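import Pool.Agent.H11.SO.Defs

/-! A map with transitive fibres on a compact set is open. -/

set_option autoImplicit false

open scoped Topology
open Topology

namespace Pool.Agent.H11.SO

/-- Proof: if not, there is an ultrafilter on κ '' L converging to κ P of points w with
κ^(-1) w cap O empty; choose Q_w in L with κ Q_w = w; Q_w converges to Q in L (compactness), κ Q = κ P;
g with g Q = P: g Q_w converges to P, so it is in O, κ (g Q_w) = w. -/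
theorem open_of_trans {X Y : Type*} [TopologicalSpace X] [TopologicalSpace Y] [T2Space Y]
    {L : Set X} (hc : IsCompact L) {κ : X → Y} (hκ : ContinuousOn κ L)
    (htr : ∀ P ∈ L, ∀ Q ∈ L, κ P = κ Q → ∃ g : X → X, ContinuousOn g L ∧
      (∀ R ∈ L, g R ∈ L ∧ κ (g R) = κ R) ∧ g Q = P) :
    ∀ P ∈ L, ∀ O ∈ 𝓝[L] P, ∀ᶠ w in 𝓝[κ '' L] (κ P), ∃ Q ∈ L ∩ O, κ Q = w := by
  classical
  intro P hP O hO
  by_contra hcon
  have hfr : ∃ᶠ w in 𝓝[κ '' L] (κ P), ¬ ∃ Q ∈ L ∩ O, κ Q = w := Filter.not_eventually.1 hcon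
  rw [Filter.frequently_iff_neBot] at hfr
  set F : Filter Y := 𝓝[κ '' L] (κ P) ⊓ Filter.principal {w | ¬ ∃ Q ∈ L ∩ O, κ Q = w} with hF
  haveI : F.NeBot := hfr
  set U : Ultrafilter Y := Ultrafilter.of F with hU
  have hUF : (U : Filter Y) ≤ F := Ultrafilter.of_le F
  have hex : ∀ w : Y, ∃ Q : X, w ∈ κ '' L → Q ∈ L ∧ κ Q = w := by
    intro w
    by_cases hw : w ∈ κ '' L
    · obtain ⟨Q, hQ, h⟩ := hw
      exact ⟨Q, fun _ => ⟨hQ, h⟩⟩
    · exact ⟨P, fun h => absurd h hw⟩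
  choose s hs using hex
  have hUL : ∀ᶠ w in (U : Filter Y), w ∈ κ '' L := by
    have h1 : (U : Filter Y) ≤ 𝓝[κ '' L] (κ P) := hUF.trans inf_le_left
    exact h1 self_mem_nhdsWithin
  have hUn : ∀ᶠ w in (U : Filter Y), ¬ ∃ Q ∈ L ∩ O, κ Q = w := by
    have h1 : (U : Filter Y) ≤ Filter.principal {w | ¬ ∃ Q ∈ L ∩ O, κ Q = w} := hUF.trans inf_le_right
    exact h1 (Filter.mem_principal_self _)
  have hUP : (U : Filter Y) ≤ 𝓝 (κ P) := (hUF.trans inf_le_left).trans nhdsWithin_le_nhds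
  have hsL : ∀ᶠ w in (U : Filter Y), s w ∈ L := hUL.mono fun w hw => (hs w hw).1
  obtain ⟨Q, hQ, hQU⟩ := isCompact_iff_ultrafilter_le_nhds.1 hc (U.map s) (by
    rw [Filter.le_principal_iff]
    exact hsL)
  have hQU' : Filter.map s (U : Filter Y) ≤ 𝓝 Q := by
    rw [← Ultrafilter.coe_map]
    exact hQU
  have hsT : Filter.Tendsto s (U : Filter Y) (𝓝[L] Q) :=
    tendsto_nhdsWithin_iff.2 ⟨hQU', hsL⟩
  have hκQ : Filter.Tendsto (fun w => κ (s w)) (U : Filter Y) (𝓝 (κ Q)) :=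
    Filter.Tendsto.comp (hκ Q hQ) hsT
  have hid : Filter.Tendsto (fun w : Y => w) (U : Filter Y) (𝓝 (κ Q)) :=
    hκQ.congr' (hUL.mono fun w hw => (hs w hw).2)
  have hPQ : κ P = κ Q := tendsto_nhds_unique (show Filter.Tendsto (fun w : Y => w) (U : Filter Y) (𝓝 (κ P)) from hUP) hid
  obtain ⟨g, hg, hgL, hgQ⟩ := htr P hP Q hQ hPQ
  have hgT : Filter.Tendsto (fun w => g (s w)) (U : Filter Y) (𝓝[L] P) := by
    refine tendsto_nhdsWithin_iff.2 ⟨?_, hsL.mono fun w hw => (hgL _ hw).1⟩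
    have h1 := Filter.Tendsto.comp (hg Q hQ) hsT
    rw [hgQ] at h1
    exact h1
  have hO' : ∀ᶠ w in (U : Filter Y), g (s w) ∈ O := hgT.eventually_mem hO
  obtain ⟨w, ⟨⟨h1, h2⟩, h3⟩⟩ := ((hUL.and hUn).and hO').exists
  obtain ⟨h4, h5⟩ := hs w h1
  refine h2 ⟨g (s w), ⟨(hgL _ h4).1, h3⟩, ?_⟩
  rw [(hgL _ h4).2, h5]

end Pool.Agent.H11.SO
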