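import Pool.Agent.H11.SO.EntO

/-! Change of the basis. -/

set_option autoImplicit false

open scoped ContDiff Topology

namespace Pool.Agent.H11.SO

open Pool.Agent.H66.SyL Pool.Agent.H11.ST

private theorem inner_vec_left (b : Bas) (y : Fin 3 → ℝ) (w : E 3) :
    inner ℂ (vecO b y 1 0) w = (y 0 : ℂ) * inner ℂ (b 0) w + (y 1 : ℂ) * inner ℂ (b 1) w +
      (y 2 : ℂ) * inner ℂ (b 2) w := by
  unfold vecO
  simp only [inner_add_left, inner_smul_left, one_mul, zero_smul, add_zero, Complex.conj_ofReal]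

private theorem inner_vec (b : Bas) (y y' : Fin 3 → ℝ) :
    inner ℂ (vecO b y 1 0) (vecO b y' 1 0) =
      ((y 0 * y' 0 + y 1 * y' 1 + y 2 * y' 2 : ℝ) : ℂ) := by
  obtain ⟨h0, h1, h2, _⟩ := inner_vecO b y' 1 0
  rw [inner_vec_left, h0, h1, h2]
  push_cast
  ring

private theorem inner_vec_b3 (b : Bas) (y : Fin 3 → ℝ) :
    inner ℂ (vecO b y 1 0) (b 3) = 0 := by
  have hb := b.orthonormal
  have h0 : inner ℂ (b 0) (b 3) = 0 := hb.2 (by decide)
  have h1 : inner ℂ (b 1) (b 3) = 0 := hb.2 (by decide)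
  have h2 : inner ℂ (b 2) (b 3) = 0 := hb.2 (by decide)
  rw [inner_vec_left, h0, h1, h2]
  ring

/-- the basis with rows of a real orthogonal matrix -/
private theorem exists_bas (b : Bas) (O : Fin 3 → Fin 3 → ℝ)
    (h : ∀ i k, O i 0 * O k 0 + O i 1 * O k 1 + O i 2 * O k 2 = if i = k then 1 else 0) :
    ∃ b' : Bas, b' 0 = vecO b (O 0) 1 0 ∧ b' 1 = vecO b (O 1) 1 0 ∧ b' 2 = vecO b (O 2) 1 0 ∧
      b' 3 = b 3 := by
  let v : Fin (3 + 1) → E 3 := ![vecO b (O 0) 1 0, vecO b (O 1) 1 0, vecO b (O 2) 1 0, b 3]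
  have hflip : ∀ y, inner ℂ (b 3) (vecO b y 1 0) = (0 : ℂ) := fun y => by
    rw [← inner_conj_symm, inner_vec_b3, map_zero]
  have hn : ∀ i, ‖vecO b (O i) 1 0‖ = 1 := by
    intro i
    apply norm_vecO
    refine ⟨?_, by simp⟩
    have := h i i
    rw [if_pos rfl] at this
    rw [← this]
    ring
  have hv : Orthonormal ℂ v := by
    rw [orthonormal_iff_ite]
    intro i k
    fin_cases i <;> fin_cases k <;>
      simp [v, inner_vec, inner_vec_b3, hflip, hn, -Complex.ofReal_add, -Complex.ofReal_mul, h]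
  have hcard : Fintype.card (Fin (3 + 1)) = Module.finrank ℂ (E 3) := by
    rw [finrank_euclideanSpace_fin, Fintype.card_fin]
  let B := basisOfOrthonormalOfCardEqFinrank hv hcard
  have hB : (B : Fin (3 + 1) → E 3) = v := coe_basisOfOrthonormalOfCardEqFinrank hv hcard
  have hB' : Orthonormal ℂ B := by rw [hB]; exact hv
  refine ⟨B.toOrthonormalBasis hB', ?_, ?_, ?_, ?_⟩ <;>
    rw [Module.Basis.coe_toOrthonormalBasis, hB] <;> rfl

private theorem exists_orth {x : Fin 3 → ℝ} (hx : x 0 ^ 2 + x 1 ^ 2 + x 2 ^ 2 = 1) :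
    ∃ O : Fin 3 → Fin 3 → ℝ, O 0 = x ∧ (∀ i k, O i k = O k i) ∧
      ∀ i k, O i 0 * O k 0 + O i 1 * O k 1 + O i 2 * O k 2 = if i = k then 1 else 0 := by
  by_cases h1 : x 0 = 1
  · have h2 : x 1 ^ 2 + x 2 ^ 2 = 0 := by rw [h1] at hx; linarith
    have h3 : x 1 = 0 := by nlinarith [sq_nonneg (x 1), sq_nonneg (x 2)]
    have h4 : x 2 = 0 := by nlinarith [sq_nonneg (x 1), sq_nonneg (x 2)]
    refine ⟨![![1, 0, 0], ![0, 1, 0], ![0, 0, 1]], ?_, ?_, ?_⟩
    · funext i
      fin_cases i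
      · simpa using h1.symm
      · simpa using h3.symm
      · simpa using h4.symm
    · intro i k
      fin_cases i <;> fin_cases k <;> simp
    · intro i k
      fin_cases i <;> fin_cases k <;> simp
  · have h2 : 1 - x 0 ≠ 0 := fun h => h1 (by linarith)
    obtain ⟨a, ha⟩ : ∃ a : ℝ, a * (1 - x 0) = 1 := ⟨(1 - x 0)⁻¹, inv_mul_cancel₀ h2⟩
    refine ⟨![![x 0, x 1, x 2], ![x 1, 1 - a * x 1 ^ 2, -(a * (x 1 * x 2))],
      ![x 2, -(a * (x 1 * x 2)), 1 - a * x 2 ^ 2]], ?_, ?_, ?_⟩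
    · funext i
      fin_cases i <;> rfl
    · intro i k
      fin_cases i <;> fin_cases k <;> simp
    · have e0 : x 0 * x 0 + x 1 * x 1 + x 2 * x 2 = 1 := by linarith
      have e1 : x 0 * x 1 + x 1 * (1 - a * x 1 ^ 2) + x 2 * -(a * (x 1 * x 2)) = 0 := by
        have : x 1 ^ 2 + x 2 ^ 2 = (1 - x 0) * (1 + x 0) := by linarith
        linear_combination (-a * x 1) * this - (x 1 * (1 + x 0)) * ha
      have e2 : x 0 * x 2 + x 1 * -(a * (x 1 * x 2)) + x 2 * (1 - a * x 2 ^ 2) = 0 := by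
        have : x 1 ^ 2 + x 2 ^ 2 = (1 - x 0) * (1 + x 0) := by linarith
        linear_combination (-a * x 2) * this - (x 2 * (1 + x 0)) * ha
      have e3 : x 1 * x 1 + (1 - a * x 1 ^ 2) * (1 - a * x 1 ^ 2) +
          -(a * (x 1 * x 2)) * -(a * (x 1 * x 2)) = 1 := by
        have : x 1 ^ 2 + x 2 ^ 2 = (1 - x 0) * (1 + x 0) := by linarith
        linear_combination (a ^ 2 * x 1 ^ 2) * this + (a * x 1 ^ 2 * (1 + x 0) - x 1 ^ 2) * ha
      have e4 : x 1 * x 2 + (1 - a * x 1 ^ 2) * -(a * (x 1 * x 2)) +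
          -(a * (x 1 * x 2)) * (1 - a * x 2 ^ 2) = 0 := by
        have : x 1 ^ 2 + x 2 ^ 2 = (1 - x 0) * (1 + x 0) := by linarith
        linear_combination (a ^ 2 * x 1 * x 2) * this + (a * x 1 * x 2 * (1 + x 0) - x 1 * x 2) * ha
      have e5 : x 2 * x 2 + -(a * (x 1 * x 2)) * -(a * (x 1 * x 2)) +
          (1 - a * x 2 ^ 2) * (1 - a * x 2 ^ 2) = 1 := by
        have : x 1 ^ 2 + x 2 ^ 2 = (1 - x 0) * (1 + x 0) := by linarith
        linear_combination (a ^ 2 * x 2 ^ 2) * this + (a * x 2 ^ 2 * (1 + x 0) - x 2 ^ 2) * ha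
      intro i k
      fin_cases i <;> fin_cases k
      · simpa using e0
      · simpa using e1
      · simpa using e2
      · simp only [Fin.zero_eta, Fin.mk_one, Matrix.cons_val_zero, Matrix.cons_val_one]
        have : x 1 * x 0 + (1 - a * x 1 ^ 2) * x 1 + -(a * (x 1 * x 2)) * x 2 = 0 := by
          linarith [e1]
        simpa using this
      · simpa using e3
      · simpa using e4
      · have : x 2 * x 0 + -(a * (x 1 * x 2)) * x 1 + (1 - a * x 2 ^ 2) * x 2 = 0 := by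
          linarith [e2]
        simpa using this
      · have : x 2 * x 1 + -(a * (x 1 * x 2)) * (1 - a * x 1 ^ 2) +
            (1 - a * x 2 ^ 2) * -(a * (x 1 * x 2)) = 0 := by
          linarith [e4]
        simpa using this
      · simpa using e5

/-- Proof: b' = b.map U, U the reflection 1 - 2 pt (vecO b v 1 0), v = (e0 - x) / |e0 - x| (identity if x = e0),
so U b0 = x0 b0 + x1 b1 + x2 b2, U b3 = b3, b'_i = sum_j O_ij b_j, O real orthogonal 3x3. -/
theorem exists_basis (b : Bas) (L : Set (Op 3)) {x : Fin 3 → ℝ}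
    (hx : x 0 ^ 2 + x 1 ^ 2 + x 2 ^ 2 = 1) (hO : Orth b L) :
    ∃ b' : Bas, Orth b' L ∧ kap b' = kap b ∧ ∀ s t : ℂ, vecO b' e0 s t = vecO b x s t := by
  obtain ⟨O, hO0, hsym, horth⟩ := exists_orth hx
  obtain ⟨b', h0, h1, h2, h3⟩ := exists_bas b O horth
  -- change of coordinates
  let M : (Fin 3 → ℝ) → (Fin 3 → ℝ) := fun y k => O 0 k * y 0 + O 1 k * y 1 + O 2 k * y 2
  have hvec : ∀ (y : Fin 3 → ℝ) (s t : ℂ), vecO b' y s t = vecO b (M y) s t := by
    intro y s t
    unfold vecO at h0 h1 h2 ⊢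
    rw [h0, h1, h2, h3]
    simp only [M, zero_smul, add_zero, one_mul, smul_add, smul_smul]
    push_cast
    module
  have hcol : ∀ i k, O 0 i * O 0 k + O 1 i * O 1 k + O 2 i * O 2 k = if i = k then 1 else 0 := by
    intro i k
    have := horth i k
    rw [hsym 0 i, hsym 0 k, hsym 1 i, hsym 1 k, hsym 2 i, hsym 2 k]
    exact this
  have hMM : ∀ y, M (M y) = y := by
    intro y
    funext k
    have e : M (M y) k = (O 0 k * O 0 0 + O 1 k * O 0 1 + O 2 k * O 0 2) * y 0 +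
        (O 0 k * O 1 0 + O 1 k * O 1 1 + O 2 k * O 1 2) * y 1 +
        (O 0 k * O 2 0 + O 1 k * O 2 1 + O 2 k * O 2 2) * y 2 := by
      simp only [M]; ring
    have f0 := horth k 0
    have f1 := horth k 1
    have f2 := horth k 2
    rw [hsym k 0, hsym k 1, hsym k 2] at f0 f1 f2
    rw [e, f0, f1, f2]
    fin_cases k <;> simp
  have hMn : ∀ y : Fin 3 → ℝ, M y 0 ^ 2 + M y 1 ^ 2 + M y 2 ^ 2 = y 0 ^ 2 + y 1 ^ 2 + y 2 ^ 2 := by
    intro y
    have g00 := horth 0 0
    have g01 := horth 0 1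
    have g02 := horth 0 2
    have g11 := horth 1 1
    have g12 := horth 1 2
    have g22 := horth 2 2
    simp at g00 g01 g02 g11 g12 g22
    simp only [M]
    linear_combination y 0 ^ 2 * g00 + y 1 ^ 2 * g11 + y 2 ^ 2 * g22 + 2 * y 0 * y 1 * g01 +
      2 * y 0 * y 2 * g02 + 2 * y 1 * y 2 * g12
  have hU : ∀ (y : Fin 3 → ℝ) (s t : ℂ), UnitO y s t → UnitO (M y) s t := by
    intro y s t h
    exact ⟨(hMn y).trans h.1, h.2⟩
  have hkap : kap b' = kap b := by
    funext P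
    have g : ∀ i k, ((O 0 i : ℂ) * O 0 k + O 1 i * O 1 k + O 2 i * O 2 k) =
        if i = k then 1 else 0 := by
      intro i k
      have := hcol i k
      have h' : (((O 0 i * O 0 k + O 1 i * O 1 k + O 2 i * O 2 k : ℝ)) : ℂ) =
          ((if i = k then 1 else 0 : ℝ) : ℂ) := by rw [this]
      push_cast at h'
      split_ifs at h' ⊢ with hik
      · simpa using h'
      · simpa using h'
    unfold kap ent
    rw [h0, h1, h2, h3, inner_vec_left, inner_vec_left, inner_vec_left]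
    refine Prod.ext ?_ rfl
    have g00 := g 0 0
    have g01 := g 0 1
    have g02 := g 0 2
    have g11 := g 1 1
    have g12 := g 1 2
    have g22 := g 2 2
    simp at g00 g01 g02 g11 g12 g22
    simp only
    set w0 := inner ℂ (b 0) (P (b 3)) with hw0
    set w1 := inner ℂ (b 1) (P (b 3)) with hw1
    set w2 := inner ℂ (b 2) (P (b 3)) with hw2
    linear_combination w0 ^ 2 * g00 + w1 ^ 2 * g11 + w2 ^ 2 * g22 + 2 * w0 * w1 * g01 +
      2 * w0 * w2 * g02 + 2 * w1 * w2 * g12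
  refine ⟨b', ⟨?_, ?_⟩, hkap, ?_⟩
  · intro P hP
    obtain ⟨y, s, t, hu, hp⟩ := hO.form P hP
    refine ⟨M y, s, t, hU y s t hu, ?_⟩
    rw [hvec, hMM, hp]
  · intro P hP y s t hu hk
    rw [hvec] at hk ⊢
    rw [hkap] at hk
    exact hO.sat P hP (M y) s t (hU y s t hu) hk
  · intro s t
    rw [hvec]
    have : M e0 = x := by
      funext k
      simp only [M, e0]
      rw [← hO0]
      simp
    rw [this]

end Pool.Agent.H11.SO
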