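import Pool.Agent.H11.SO.EntO

/-! Continuity of the map from the sphere. -/

set_option autoImplicit false

open scoped Topology
open Topology

namespace Pool.Agent.H11.SO

open Pool.Agent.H66.SyL Pool.Agent.H11.ST

private theorem pt_sum (b : Bas) (z : E 3) :
    pt z = ∑ i, ∑ j, (inner ℂ (b i) z * (starRingEnd ℂ) (inner ℂ (b j) z)) •
      ((innerSL ℂ (b j)).smulRight (b i) : Op 3) := by
  refine ContinuousLinearMap.ext fun v => ?_
  have h1 : inner ℂ z v = ∑ j, (starRingEnd ℂ) (inner ℂ (b j) z) * inner ℂ (b j) v := by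
    rw [← b.sum_inner_mul_inner]
    refine Finset.sum_congr rfl fun j _ => ?_
    rw [inner_conj_symm]
  have h2 : z = ∑ i, inner ℂ (b i) z • b i := (b.sum_repr' z).symm
  rw [pt_apply, h1]
  conv_lhs => rw [h2]
  rw [Finset.smul_sum]
  simp only [sum_apply]
  refine Finset.sum_congr rfl fun i _ => ?_
  rw [← h2, smul_smul, Finset.sum_mul, Finset.sum_smul]
  refine Finset.sum_congr rfl fun j _ => ?_
  rw [_root_.smul_apply, ContinuousLinearMap.smulRight_apply, innerSL_apply_apply,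
    smul_smul]
  congr 1
  ring

private theorem cwa_of_bound {X F : Type*} [TopologicalSpace X] [NormedAddCommGroup F] {s : Set X}
    {x : X} {f : X → F} {g : X → ℝ} (hg : ContinuousWithinAt g s x) (hb : ∀ y ∈ s, ‖f y‖ ≤ g y)
    (hx : x ∈ s) (h0 : g x = 0) : ContinuousWithinAt f s x := by
  have hfx : f x = 0 := by
    have := hb x hx
    rw [h0] at this
    exact norm_le_zero_iff.1 this
  unfold ContinuousWithinAt
  rw [hfx]
  refine squeeze_zero_norm' ?_ (by simpa [ContinuousWithinAt, h0] using hg)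
  filter_upwards [self_mem_nhdsWithin] with y hy
  exact hb y hy

private noncomputable def rr (y : EuclideanSpace ℝ (Fin 4)) : ℝ := √(y 0 ^ 2 + y 1 ^ 2 + y 2 ^ 2)

private theorem sph {y : EuclideanSpace ℝ (Fin 4)} (hy : y ∈ Metric.sphere (0 : EuclideanSpace ℝ (Fin 4)) 1) :
    y 0 ^ 2 + y 1 ^ 2 + y 2 ^ 2 + y 3 ^ 2 = 1 := by
  have h1 : ‖y‖ = 1 := mem_sphere_zero_iff_norm.1 hy
  have h2 := EuclideanSpace.norm_sq_eq y
  rw [h1, Fin.sum_univ_four] at h2
  simp only [Real.norm_eq_abs, sq_abs] at h2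
  linarith

private theorem cont_coord (i : Fin 4) : Continuous fun y : EuclideanSpace ℝ (Fin 4) => y i :=
  (continuous_apply i).comp (PiLp.continuous_ofLp 2 _)

private theorem cont_rr : Continuous rr := by
  unfold rr
  exact Real.continuous_sqrt.comp ((((cont_coord 0).pow 2).add ((cont_coord 1).pow 2)).add
    ((cont_coord 2).pow 2))

private theorem abs_div_rr (y : EuclideanSpace ℝ (Fin 4)) (i : Fin 4) (hi : i ≠ 3) :
    |y i / rr y| ≤ 1 := by
  have hr0 : 0 ≤ rr y := Real.sqrt_nonneg _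
  rw [abs_div, abs_of_nonneg hr0]
  refine div_le_one_of_le₀ ?_ hr0
  refine Real.le_sqrt_of_sq_le ?_
  rw [sq_abs]
  have h0 := sq_nonneg (y 0)
  have h1 := sq_nonneg (y 1)
  have h2 := sq_nonneg (y 2)
  fin_cases i
  · show y 0 ^ 2 ≤ _
    linarith
  · show y 1 ^ 2 ≤ _
    linarith
  · show y 2 ^ 2 ≤ _
    linarith
  · exact absurd rfl hi

private noncomputable def tau (D : ℝ → ℂ) (ρ : ℝ → ℝ) (y : EuclideanSpace ℝ (Fin 4)) : ℂ :=
  ((√(ρ (y 3 ^ 2)) : ℝ) : ℂ) * (starRingEnd ℂ) (D (y 3 ^ 2)) * ((y 3 / |y 3| : ℝ) : ℂ)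

private noncomputable def aa (ρ : ℝ → ℝ) (i : Fin 4) (y : EuclideanSpace ℝ (Fin 4)) : ℝ :=
  √(1 - ρ (y 3 ^ 2)) * (y i / rr y)

private theorem inner_zO (b : Bas) (D : ℝ → ℂ) (ρ : ℝ → ℝ) (y : EuclideanSpace ℝ (Fin 4)) :
    (∀ i : Fin 4, i ≠ 3 → inner ℂ (b i) (zO b D ρ y) = ((aa ρ i y : ℝ) : ℂ)) ∧
      inner ℂ (b 3) (zO b D ρ y) = tau D ρ y := by
  obtain ⟨h0, h1, h2, h3⟩ := inner_vecO b ![y 0 / rr y, y 1 / rr y, y 2 / rr y]
    ((√(1 - ρ (y 3 ^ 2)) : ℝ) : ℂ)
    (((√(ρ (y 3 ^ 2)) : ℝ) : ℂ) * (starRingEnd ℂ) (D (y 3 ^ 2)) * ((y 3 / |y 3| : ℝ) : ℂ))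
  refine ⟨?_, h3⟩
  intro i hi
  fin_cases i
  · refine h0.trans ?_
    simp [aa]
  · refine h1.trans ?_
    simp [aa]
  · refine h2.trans ?_
    simp [aa]
  · exact absurd rfl hi

private theorem norm_tau (D : ℝ → ℂ) (ρ : ℝ → ℝ) (hD : ∀ t, ‖D t‖ = 1)
    (y : EuclideanSpace ℝ (Fin 4)) : ‖tau D ρ y‖ ≤ √(ρ (y 3 ^ 2)) := by
  unfold tau
  rw [norm_mul, norm_mul, RCLike.norm_conj, hD, mul_one, Complex.norm_real, Complex.norm_real,
    Real.norm_eq_abs, abs_of_nonneg (Real.sqrt_nonneg _), Real.norm_eq_abs, abs_div, abs_abs]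
  refine mul_le_of_le_one_right (Real.sqrt_nonneg _) ?_
  exact div_self_le_one _

private theorem tau_sq (D : ℝ → ℂ) (ρ : ℝ → ℝ) (hD : ∀ t, ‖D t‖ = 1) (h0 : ρ 0 = 0)
    (y : EuclideanSpace ℝ (Fin 4)) (hy : 0 ≤ ρ (y 3 ^ 2)) :
    tau D ρ y * (starRingEnd ℂ) (tau D ρ y) = ((ρ (y 3 ^ 2) : ℝ) : ℂ) := by
  rw [Complex.mul_conj, Complex.normSq_eq_norm_sq]
  congr 1
  rcases eq_or_ne (y 3) 0 with h | h
  · have h1 : ρ (y 3 ^ 2) = 0 := by
      rw [h]
      simpa using h0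
    have h2 : ‖tau D ρ y‖ ≤ 0 := by
      have := norm_tau D ρ hD y
      rwa [h1, Real.sqrt_zero] at this
    rw [h1]
    have h3 : ‖tau D ρ y‖ = 0 := le_antisymm h2 (norm_nonneg _)
    rw [h3]
    norm_num
  · unfold tau
    rw [norm_mul, norm_mul, RCLike.norm_conj, hD, mul_one, Complex.norm_real, Complex.norm_real,
      Real.norm_eq_abs, abs_of_nonneg (Real.sqrt_nonneg _), Real.norm_eq_abs, abs_div, abs_abs,
      div_self (abs_ne_zero.2 h), mul_one, Real.sq_sqrt hy]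

/-- Proof: all entries are continuous (P is the sum of ent P i j times the rank one operators): with
r = |y'|, ρ, D at y_3^2: ent i j = (1 - ρ) y_i y_j / r^2 (i, j < 3), ent i 3 = sqrt (ρ (1 - ρ)) D (y_i / r) (y_3 / |y_3|),
ent 3 3 = ρ. At r = 0 (y_3^2 = 1, ρ = 1) and at y_3 = 0 (ρ = 0) the discontinuous factors are bounded
and multiplied by functions tending to 0. -/
theorem continuousOn_zO (b : Bas) (D : ℝ → ℂ) (ρ : ℝ → ℝ) (hD : ∀ t, ‖D t‖ = 1)
    (hDc : ContinuousOn D (Set.Ioo 0 1)) (hρ : ContinuousOn ρ (Set.Icc 0 1)) (h0 : ρ 0 = 0)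
    (h1 : ρ 1 = 1) (hi : ∀ t ∈ Set.Icc (0 : ℝ) 1, 0 ≤ ρ t ∧ ρ t ≤ 1) :
    ContinuousOn (fun y => pt (zO b D ρ y)) (Metric.sphere 0 1) := by
  have hmap : ∀ y ∈ Metric.sphere (0 : EuclideanSpace ℝ (Fin 4)) 1, y 3 ^ 2 ∈ Set.Icc (0 : ℝ) 1 := by
    intro y hy
    have := sph hy
    exact ⟨sq_nonneg _, by linarith [sq_nonneg (y 0), sq_nonneg (y 1), sq_nonneg (y 2)]⟩
  have hρc : ContinuousOn (fun y : EuclideanSpace ℝ (Fin 4) => ρ (y 3 ^ 2)) (Metric.sphere 0 1) :=
    hρ.comp ((cont_coord 3).pow 2).continuousOn hmap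
  have hsq : ContinuousOn (fun y : EuclideanSpace ℝ (Fin 4) => √(1 - ρ (y 3 ^ 2)))
      (Metric.sphere 0 1) :=
    Real.continuous_sqrt.comp_continuousOn (continuousOn_const.sub hρc)
  have hsr : ContinuousOn (fun y : EuclideanSpace ℝ (Fin 4) => √(ρ (y 3 ^ 2)))
      (Metric.sphere 0 1) :=
    Real.continuous_sqrt.comp_continuousOn hρc
  -- the coordinates 0, 1, 2
  have hbd : ∀ (i : Fin 4), i ≠ 3 → ∀ y : EuclideanSpace ℝ (Fin 4),
      ‖aa ρ i y‖ ≤ √(1 - ρ (y 3 ^ 2)) := by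
    intro i hi3 y
    unfold aa
    rw [norm_mul, Real.norm_eq_abs, abs_of_nonneg (Real.sqrt_nonneg _), Real.norm_eq_abs]
    exact mul_le_of_le_one_right (Real.sqrt_nonneg _) (abs_div_rr y i hi3)
  have haa : ∀ (i : Fin 4), i ≠ 3 → ContinuousOn (aa ρ i) (Metric.sphere 0 1) := by
    intro i hi3 x hx
    rcases eq_or_ne (rr x) 0 with hr | hr
    · have hx3 : x 3 ^ 2 = 1 := by
        have h2 := sph hx
        have h3 : x 0 ^ 2 + x 1 ^ 2 + x 2 ^ 2 ≤ 0 := Real.sqrt_eq_zero'.1 hr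
        linarith [sq_nonneg (x 0), sq_nonneg (x 1), sq_nonneg (x 2), (hmap x hx).2]
      refine cwa_of_bound (hsq x hx) (fun y _ => hbd i hi3 y) hx ?_
      show √(1 - ρ (x 3 ^ 2)) = 0
      rw [hx3, h1]
      simp
    · exact (hsq x hx).mul
        (((cont_coord i).continuousAt.div cont_rr.continuousAt hr).continuousWithinAt)
  -- the products with the last coordinate
  have hat : ∀ (i : Fin 4), i ≠ 3 → ContinuousOn
      (fun y => ((aa ρ i y : ℝ) : ℂ) * (starRingEnd ℂ) (tau D ρ y)) (Metric.sphere 0 1) := by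
    intro i hi3 x hx
    rcases eq_or_ne (x 3 ^ 2) 1 with hx3 | hx3
    · refine cwa_of_bound (hsq x hx) (fun y hy => ?_) hx ?_
      · rw [norm_mul, RCLike.norm_conj, Complex.norm_real]
        have h2 : ‖tau D ρ y‖ ≤ 1 := (norm_tau D ρ hD y).trans
          (Real.sqrt_le_one.2 (hi _ (hmap y hy)).2)
        calc ‖aa ρ i y‖ * ‖tau D ρ y‖ ≤ √(1 - ρ (y 3 ^ 2)) * 1 :=
              mul_le_mul (hbd i hi3 y) h2 (norm_nonneg _) (Real.sqrt_nonneg _)
          _ = _ := mul_one _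
      · show √(1 - ρ (x 3 ^ 2)) = 0
        rw [hx3, h1]
        simp
    · have hta : ContinuousWithinAt (tau D ρ) (Metric.sphere 0 1) x := by
        rcases eq_or_ne (x 3) 0 with h3 | h3
        · refine cwa_of_bound (hsr x hx) (fun y _ => norm_tau D ρ hD y) hx ?_
          show √(ρ (x 3 ^ 2)) = 0
          rw [h3]
          simp [h0]
        · have hmem : x 3 ^ 2 ∈ Set.Ioo (0 : ℝ) 1 :=
            ⟨by positivity, lt_of_le_of_ne (hmap x hx).2 hx3⟩
          have hD1 : ContinuousAt D (x 3 ^ 2) := hDc.continuousAt (Ioo_mem_nhds hmem.1 hmem.2)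
          have hD2 : ContinuousWithinAt (fun y : EuclideanSpace ℝ (Fin 4) => D (y 3 ^ 2))
              (Metric.sphere 0 1) x :=
            (ContinuousAt.comp (f := fun y : EuclideanSpace ℝ (Fin 4) => y 3 ^ 2) hD1
              ((cont_coord 3).pow 2).continuousAt).continuousWithinAt
          have hs : ContinuousWithinAt (fun y : EuclideanSpace ℝ (Fin 4) => y 3 / |y 3|)
              (Metric.sphere 0 1) x :=
            ((cont_coord 3).continuousAt.div (cont_coord 3).abs.continuousAt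
              (abs_ne_zero.2 h3)).continuousWithinAt
          exact ((Complex.continuous_ofReal.continuousAt.comp_continuousWithinAt (hsr x hx)).mul
            (Complex.continuous_conj.continuousAt.comp_continuousWithinAt hD2)).mul
            (Complex.continuous_ofReal.continuousAt.comp_continuousWithinAt hs)
      exact (Complex.continuous_ofReal.continuousAt.comp_continuousWithinAt (haa i hi3 x hx)).mul
        (Complex.continuous_conj.continuousAt.comp_continuousWithinAt hta)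
  have hcc : ∀ i j : Fin 4, ContinuousOn (fun y => inner ℂ (b i) (zO b D ρ y) *
      (starRingEnd ℂ) (inner ℂ (b j) (zO b D ρ y))) (Metric.sphere 0 1) := by
    intro i j
    rcases eq_or_ne i 3 with rfl | hi3
    · rcases eq_or_ne j 3 with rfl | hj3
      · refine (Complex.continuous_ofReal.comp_continuousOn hρc).congr fun y hy => ?_
        show inner ℂ (b 3) (zO b D ρ y) * (starRingEnd ℂ) (inner ℂ (b 3) (zO b D ρ y)) = _
        rw [(inner_zO b D ρ y).2]
        exact tau_sq D ρ hD h0 y (hi _ (hmap y hy)).1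
      · refine (Complex.continuous_conj.comp_continuousOn (hat j hj3)).congr fun y hy => ?_
        show inner ℂ (b 3) (zO b D ρ y) * (starRingEnd ℂ) (inner ℂ (b j) (zO b D ρ y)) =
          (starRingEnd ℂ) (((aa ρ j y : ℝ) : ℂ) * (starRingEnd ℂ) (tau D ρ y))
        rw [(inner_zO b D ρ y).2, (inner_zO b D ρ y).1 j hj3, map_mul, Complex.conj_conj]
        ring
    · rcases eq_or_ne j 3 with rfl | hj3
      · refine (hat i hi3).congr fun y hy => ?_
        show inner ℂ (b i) (zO b D ρ y) * (starRingEnd ℂ) (inner ℂ (b 3) (zO b D ρ y)) = _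
        rw [(inner_zO b D ρ y).2, (inner_zO b D ρ y).1 i hi3]
      · refine ((Complex.continuous_ofReal.comp_continuousOn (haa i hi3)).mul
          (Complex.continuous_ofReal.comp_continuousOn (haa j hj3))).congr fun y hy => ?_
        show inner ℂ (b i) (zO b D ρ y) * (starRingEnd ℂ) (inner ℂ (b j) (zO b D ρ y)) =
          ((aa ρ i y : ℝ) : ℂ) * ((aa ρ j y : ℝ) : ℂ)
        rw [(inner_zO b D ρ y).1 i hi3, (inner_zO b D ρ y).1 j hj3, Complex.conj_ofReal]
  have hfin : (fun y => pt (zO b D ρ y)) = fun y => ∑ i, ∑ j,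
      (inner ℂ (b i) (zO b D ρ y) * (starRingEnd ℂ) (inner ℂ (b j) (zO b D ρ y))) •
        ((innerSL ℂ (b j)).smulRight (b i) : Op 3) := by
    funext y
    exact pt_sum b _
  rw [hfin]
  refine continuousOn_finsetSum _ fun i _ => continuousOn_finsetSum _ fun j _ => ?_
  exact (hcc i j).smul continuousOn_const

end Pool.Agent.H11.SO
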