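import Pool.Agent.H11.SO.CutH

/-! Interior points cut the reduced curve (general reduced map; cut_aux is from ST/Cut of helper20). -/

set_option autoImplicit false

open scoped Topology
open Topology

namespace Pool.Agent.H11.SO

open Pool.Agent.H66.SyL Pool.Agent.H11.ST

private theorem cut_aux {X : Type*} [TopologicalSpace X] [T2Space X] (e : ℝ → X)
    (he : IsOpenEmbedding e)
    (H : ∀ V K0 : Set X, IsOpen V → IsClosed K0 → K0 ⊆ V → ∀ k : X → ℝ,
      (∀ x ∈ V, x ∉ K0 → ∀ᶠ y in 𝓝 x, k y = k x) →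
      ∃ g : X → ℝ, (∀ x ∈ V, ∀ᶠ y in 𝓝 x, g y - g x = k y - k x) ∧
        (∀ x, x ∉ V → ∀ᶠ y in 𝓝 x, g y = g x)) :
    ¬ IsPreconnected ({e 0}ᶜ : Set X) := by
  classical
  intro hpre
  have hinj := he.injective
  -- the inverse of e
  obtain ⟨r, hr⟩ : ∃ r : X → ℝ, ∀ t, r (e t) = t :=
    ⟨Function.invFun e, Function.leftInverse_invFun hinj⟩
  have hnh : ∀ (t : ℝ) (p : X → Prop), (∀ᶠ s in 𝓝 t, p (e s)) → ∀ᶠ y in 𝓝 (e t), p y := by
    intro t p h
    rw [← he.map_nhds_eq t, Filter.eventually_map]
    exact h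
  have hnh' : ∀ (t : ℝ) (p : X → Prop), (∀ᶠ y in 𝓝 (e t), p y) → ∀ᶠ s in 𝓝 t, p (e s) := by
    intro t p h
    rw [← he.map_nhds_eq t, Filter.eventually_map] at h
    exact h
  set k : X → ℝ := fun x => if x ∈ Set.range e then max 0 (min (r x) 1) else 0 with hk
  have hke : ∀ t, k (e t) = max 0 (min t 1) := by
    intro t
    rw [hk]
    simp only [Set.mem_range_self, if_true, hr]
  set K0 : Set X := e '' Set.Icc 0 1 with hK0
  have hK0c : IsClosed K0 := (isCompact_Icc.image he.continuous).isClosed
  have hK0m : ∀ t, e t ∈ K0 ↔ 0 ≤ t ∧ t ≤ 1 := by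
    intro t
    rw [hK0, hinj.mem_set_image, Set.mem_Icc]
  obtain ⟨g, hg1, hg2⟩ := H (Set.range e) K0 he.isOpen_range hK0c
    (Set.image_subset_range _ _) k (by
      rintro _ ⟨t, rfl⟩ ht
      rw [hK0m] at ht
      apply hnh
      rcases lt_or_ge t 0 with h | h
      · filter_upwards [Iio_mem_nhds h] with s hs
        rw [hke, hke, max_eq_left, max_eq_left]
        · exact (min_le_left _ _).trans h.le
        · exact (min_le_left _ _).trans (le_of_lt hs)
      · have h1 : 1 < t := by
          by_contra hc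
          exact ht ⟨h, not_lt.1 hc⟩
        filter_upwards [Ioi_mem_nhds h1] with s hs
        rw [hke, hke, min_eq_right (le_of_lt hs), min_eq_right h1.le])
  set h : X → ℝ := fun x => if x ∈ Set.range e then g x - k x + (if 0 < r x then 1 else 0)
    else g x with hh
  have hhe : ∀ t, h (e t) = g (e t) - k (e t) + (if 0 < t then 1 else 0) := by
    intro t
    rw [hh]
    simp only [Set.mem_range_self, if_true, hr]
  have hloc : ∀ x : X, x ≠ e 0 → ∀ᶠ y in 𝓝 x, h y = h x := by
    intro x hx
    by_cases hxV : x ∈ Set.range e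
    · obtain ⟨t, rfl⟩ := hxV
      have ht : t ≠ 0 := fun h0 => hx (by rw [h0])
      apply hnh
      have h1 := hnh' t _ (hg1 (e t) (Set.mem_range_self t))
      rcases lt_or_gt_of_ne ht with h2 | h2
      · filter_upwards [h1, Iio_mem_nhds h2] with s hs hs2
        have hs3 : s < 0 := hs2
        rw [hhe, hhe, if_neg (not_lt.2 hs3.le), if_neg (not_lt.2 h2.le)]
        linarith
      · filter_upwards [h1, Ioi_mem_nhds h2] with s hs hs2
        have hs3 : 0 < s := hs2
        rw [hhe, hhe, if_pos hs3, if_pos h2]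
        linarith
    · have hxK : x ∈ K0ᶜ := fun hc => hxV (Set.image_subset_range _ _ hc)
      have hhx : h x = g x := by
        rw [hh]
        simp only [hxV, if_false]
      filter_upwards [hg2 x hxV, hK0c.isOpen_compl.mem_nhds hxK] with y hy hyK
      rw [hhx, ← hy]
      by_cases hyV : y ∈ Set.range e
      · obtain ⟨t, rfl⟩ := hyV
        rw [Set.mem_compl_iff, hK0m] at hyK
        rw [hhe, hke]
        rcases lt_or_ge t 0 with h2 | h2
        · rw [if_neg (not_lt.2 h2.le), max_eq_left ((min_le_left _ _).trans h2.le)]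
          ring
        · have h3 : 1 < t := by
            by_contra hc
            exact hyK ⟨h2, not_lt.1 hc⟩
          rw [if_pos (by linarith), min_eq_right h3.le, max_eq_right zero_le_one]
          ring
      · rw [hh]
        simp only [hyV, if_false]
  -- h is constant off e 0
  have hconst : ∀ x y : X, x ≠ e 0 → y ≠ e 0 → h x = h y := by
    intro x y hx hy
    have : PreconnectedSpace ({e 0}ᶜ : Set X) := isPreconnected_iff_preconnectedSpace.1 hpre
    have hl : IsLocallyConstant fun z : ({e 0}ᶜ : Set X) => h z := by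
      rw [IsLocallyConstant.iff_eventually_eq]
      intro z
      exact continuous_subtype_val.continuousAt.eventually (hloc z z.2)
    exact hl.apply_eq_of_preconnectedSpace ⟨x, hx⟩ ⟨y, hy⟩
  have h0 := hnh' 0 _ (hg1 (e 0) (Set.mem_range_self 0))
  obtain ⟨ε, hε, hb⟩ := Metric.eventually_nhds_iff.1 h0
  have h1 := hb (y := ε / 2) (by
    rw [Real.dist_eq, sub_zero, abs_of_pos (by linarith)]
    linarith)
  have h2 := hb (y := -(ε / 2)) (by
    rw [Real.dist_eq, sub_zero, abs_neg, abs_of_pos (by linarith)]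
    linarith)
  have h3 := hconst (e (ε / 2)) (e (-(ε / 2)))
    (fun hc => by have := hinj hc; linarith) (fun hc => by have := hinj hc; linarith)
  rw [hhe, hhe, if_pos (by linarith), if_neg (by linarith)] at h3
  linarith

theorem cut_gen {X Y : Type*} [TopologicalSpace X] [TopologicalSpace Y] [T2Space Y] {L : Set X}
    {κ : X → Y} (hR : RedMap L κ) (h1 : H1Zero L) (e : ℝ → (κ '' L)) (he : IsOpenEmbedding e) :
    ¬ IsPreconnected ({e 0}ᶜ : Set (κ '' L)) :=
  cut_aux e he fun V K0 hV hK0 hKV k hk => exists_g hR h1 V K0 hV hK0 hKV k hk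

end Pool.Agent.H11.SO
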