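import Pool.Agent.H11.ST.Defs

/-!
MP_b8283b_gt, Lagrangian rational homology spheres in CP^3 of the form {[s x : t]}, x real (SO(3) case).
Definitions.
-/

set_option autoImplicit false

open scoped ContDiff Topology NNReal
open Topology

namespace Pool.Agent.H11.SO

open Pool.Agent.H66.SyL Pool.Agent.H11.ST

/-- the vector s (x0 b0 + x1 b1 + x2 b2) + t b3 -/
noncomputable def vecO (b : Bas) (x : Fin 3 → ℝ) (s t : ℂ) : E 3 :=
  (s * x 0) • b 0 + (s * x 1) • b 1 + (s * x 2) • b 2 + t • b 3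

/-- x is a unit vector of R^3 and (s, t) is a unit vector of C^2 -/
def UnitO (x : Fin 3 → ℝ) (s t : ℂ) : Prop :=
  x 0 ^ 2 + x 1 ^ 2 + x 2 ^ 2 = 1 ∧ ‖s‖ ^ 2 + ‖t‖ ^ 2 = 1

/-- the reduced coordinates: for P = pt z they are ((z_0^2 + z_1^2 + z_2^2) conj (z_3)^2, |z_3|^2) -/
noncomputable def kap (b : Bas) (P : Op 3) : ℂ × ℝ :=
  (ent b P 0 3 ^ 2 + ent b P 1 3 ^ 2 + ent b P 2 3 ^ 2, (ent b P 3 3).re)

/-- L consists of points of the form pt (vecO x s t) and is a union of level sets of kap -/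
structure Orth (b : Bas) (L : Set (Op 3)) : Prop where
  form : ∀ P ∈ L, ∃ x s t, UnitO x s t ∧ pt (vecO b x s t) = P
  sat : ∀ P ∈ L, ∀ x s t, UnitO x s t → kap b (pt (vecO b x s t)) = kap b P →
    pt (vecO b x s t) ∈ L

/-- the first basis vector of R^3 -/
def e0 : Fin 3 → ℝ := ![1, 0, 0]

/-- functions cutting out the axis {pt (vecO e0 s t)} in L near P -/
noncomputable def slO (b : Bas) (P Q : Op 3) : ℝ × ℝ :=
  ((ent b Q 1 3 * (starRingEnd ℂ) (ent b P 0 3)).re,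
    (ent b Q 2 3 * (starRingEnd ℂ) (ent b P 0 3)).re)

/-- coordinates of L at the pole pt (b 0) -/
noncomputable def slA (b : Bas) (ζ : ℂ) (Q : Op 3) : ℂ × ℝ :=
  (⟨(ent b Q 1 0).re, (ent b Q 2 0).re⟩, ((starRingEnd ℂ) ζ * ent b Q 3 0).re)

/-- coordinates of L at the pole pt (b 3) -/
noncomputable def slB (b : Bas) (ζ : ℂ) (Q : Op 3) : ℂ × ℝ :=
  (⟨((starRingEnd ℂ) ζ * ent b Q 0 3).re, ((starRingEnd ℂ) ζ * ent b Q 1 3).re⟩,
    ((starRingEnd ℂ) ζ * ent b Q 2 3).re)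

/-- the map S^3 to C^4: y goes to vecO (y' / |y'|) (sqrt (1 - ρ)) (sqrt ρ * conj D * y_3 / |y_3|),
where ρ, D are taken at y_3^2 -/
noncomputable def zO (b : Bas) (D : ℝ → ℂ) (ρ : ℝ → ℝ) (y : EuclideanSpace ℝ (Fin 4)) : E 3 :=
  let r : ℝ := √(y 0 ^ 2 + y 1 ^ 2 + y 2 ^ 2)
  vecO b ![y 0 / r, y 1 / r, y 2 / r] ((√(1 - ρ (y 3 ^ 2)) : ℝ) : ℂ)
    (((√(ρ (y 3 ^ 2)) : ℝ) : ℂ) * (starRingEnd ℂ) (D (y 3 ^ 2)) * ((y 3 / |y 3| : ℝ) : ℂ))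

/-- a continuous map of L whose fibres are path connected, open onto its image -/
structure RedMap {X Y : Type*} [TopologicalSpace X] [TopologicalSpace Y] (L : Set X)
    (κ : X → Y) : Prop where
  cont : ContinuousOn κ L
  path : ∀ P ∈ L, ∀ Q ∈ L, κ P = κ Q → ∃ γ : ℝ → X, Continuous γ ∧ γ 0 = P ∧ γ 1 = Q ∧
    ∀ t, γ t ∈ L ∧ κ (γ t) = κ P
  op : ∀ P ∈ L, ∀ O ∈ 𝓝[L] P, ∀ᶠ w in 𝓝[κ '' L] (κ P), ∃ Q ∈ L ∩ O, κ Q = w

end Pool.Agent.H11.SO
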