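import Pool.Agent.H11.SO.Defs
import Pool.Agent.H11.ST.Ent

/-! Algebra of vecO and kap. -/

set_option autoImplicit false

open scoped ContDiff Topology

namespace Pool.Agent.H11.SO

open Pool.Agent.H66.SyL Pool.Agent.H11.ST

variable (b : Bas)

private theorem onb (i j : Fin (3 + 1)) : (inner ℂ (b i) (b j) : ℂ) = if i = j then 1 else 0 :=
  orthonormal_iff_ite.1 b.orthonormal i j

theorem inner_vecO (x : Fin 3 → ℝ) (s t : ℂ) :
    inner ℂ (b 0) (vecO b x s t) = s * x 0 ∧ inner ℂ (b 1) (vecO b x s t) = s * x 1 ∧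
    inner ℂ (b 2) (vecO b x s t) = s * x 2 ∧ inner ℂ (b 3) (vecO b x s t) = t := by
  have h01 : (0 : Fin (3 + 1)) ≠ 1 := by decide
  have h02 : (0 : Fin (3 + 1)) ≠ 2 := by decide
  have h03 : (0 : Fin (3 + 1)) ≠ 3 := by decide
  have h12 : (1 : Fin (3 + 1)) ≠ 2 := by decide
  have h13 : (1 : Fin (3 + 1)) ≠ 3 := by decide
  have h23 : (2 : Fin (3 + 1)) ≠ 3 := by decide
  refine ⟨?_, ?_, ?_, ?_⟩ <;>
  · unfold vecO
    simp only [inner_add_right, inner_smul_right, onb, h01, h02, h03, h12, h13, h23, h01.symm,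
      h02.symm, h03.symm, h12.symm, h13.symm, h23.symm, if_true, if_false, mul_one, mul_zero,
      add_zero, zero_add]

theorem norm_vecO {x : Fin 3 → ℝ} {s t : ℂ} (h : UnitO x s t) : ‖vecO b x s t‖ = 1 := by
  obtain ⟨h1, h2⟩ := h
  obtain ⟨e0, e1, e2, e3⟩ := inner_vecO b x s t
  have h3 : ∑ i, ‖inner ℂ (b i) (vecO b x s t)‖ ^ 2 = ‖vecO b x s t‖ ^ 2 :=
    b.sum_sq_norm_inner_right _
  rw [Fin.sum_univ_four] at h3
  have h4 : ‖vecO b x s t‖ ^ 2 = 1 := by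
    rw [← h3]
    have e0' : inner ℂ (b 0) (vecO b x s t) = s * x 0 := e0
    have e1' : inner ℂ (b 1) (vecO b x s t) = s * x 1 := e1
    have e2' : inner ℂ (b 2) (vecO b x s t) = s * x 2 := e2
    have e3' : inner ℂ (b 3) (vecO b x s t) = t := e3
    rw [e0', e1', e2', e3', norm_mul, norm_mul, norm_mul, Complex.norm_real, Complex.norm_real,
      Complex.norm_real, mul_pow, mul_pow, mul_pow, Real.norm_eq_abs, Real.norm_eq_abs,
      Real.norm_eq_abs, sq_abs, sq_abs, sq_abs]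
    linear_combination ‖s‖ ^ 2 * h1 + h2
  have h5 : 0 ≤ ‖vecO b x s t‖ := norm_nonneg _
  nlinarith

theorem kap_vecO {x : Fin 3 → ℝ} {s t : ℂ} (h : UnitO x s t) :
    kap b (pt (vecO b x s t)) = (s ^ 2 * (starRingEnd ℂ) t ^ 2, ‖t‖ ^ 2) := by
  obtain ⟨h1, h2⟩ := h
  obtain ⟨e0, e1, e2, e3⟩ := inner_vecO b x s t
  unfold kap
  rw [ent_pt, ent_pt, ent_pt, ent_pt, e0, e1, e2, e3]
  have h1' : ((x 0 : ℂ)) ^ 2 + (x 1 : ℂ) ^ 2 + (x 2 : ℂ) ^ 2 = 1 := by exact_mod_cast h1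
  refine Prod.ext ?_ ?_
  · show (s * x 0 * (starRingEnd ℂ) t) ^ 2 + (s * x 1 * (starRingEnd ℂ) t) ^ 2 +
      (s * x 2 * (starRingEnd ℂ) t) ^ 2 = s ^ 2 * (starRingEnd ℂ) t ^ 2
    linear_combination s ^ 2 * (starRingEnd ℂ) t ^ 2 * h1'
  · show (t * (starRingEnd ℂ) t).re = ‖t‖ ^ 2
    rw [Complex.mul_conj, Complex.normSq_eq_norm_sq, Complex.ofReal_re]

theorem continuous_kap : Continuous (kap b) := by
  unfold kap
  exact (((continuous_ent b 0 3).pow 2).add ((continuous_ent b 1 3).pow 2)).add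
    ((continuous_ent b 2 3).pow 2) |>.prodMk (Complex.continuous_re.comp (continuous_ent b 3 3))

private theorem contDiff_re {f : Op 3 → ℂ} (hf : ContDiff ℝ 1 f) :
    ContDiff ℝ 1 fun Q => (f Q).re :=
  Complex.reCLM.contDiff.comp hf

private theorem contDiff_mk {f g : Op 3 → ℝ} (hf : ContDiff ℝ 1 f) (hg : ContDiff ℝ 1 g) :
    ContDiff ℝ 1 fun Q => (⟨f Q, g Q⟩ : ℂ) :=
  Complex.equivRealProdCLM.symm.contDiff.comp (hf.prodMk hg)

theorem contDiff_slO (P : Op 3) : ContDiff ℝ 1 (slO b P) := by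
  unfold slO
  exact (contDiff_re ((contDiff_ent b 1 3).mul contDiff_const)).prodMk
    (contDiff_re ((contDiff_ent b 2 3).mul contDiff_const))

theorem contDiff_slA (ζ : ℂ) : ContDiff ℝ 1 (slA b ζ) := by
  unfold slA
  exact (contDiff_mk (contDiff_re (contDiff_ent b 1 0)) (contDiff_re (contDiff_ent b 2 0))).prodMk
    (contDiff_re (contDiff_const.mul (contDiff_ent b 3 0)))

theorem contDiff_slB (ζ : ℂ) : ContDiff ℝ 1 (slB b ζ) := by
  unfold slB
  exact (contDiff_mk (contDiff_re (contDiff_const.mul (contDiff_ent b 0 3)))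
    (contDiff_re (contDiff_const.mul (contDiff_ent b 1 3)))).prodMk
    (contDiff_re (contDiff_const.mul (contDiff_ent b 2 3)))

private theorem continuous_pt' : Continuous (pt : E 3 → Op 3) := by
  have h : (pt : E 3 → Op 3) = fun z => ContinuousLinearMap.smulRightL ℂ (E 3) (E 3) (innerSL ℂ z) z := by
    funext z
    rfl
  rw [h]
  fun_prop

theorem continuous_ptO : Continuous fun q : (Fin 3 → ℝ) × ℂ × ℂ =>
    pt (vecO b q.1 q.2.1 q.2.2) := by
  have h : Continuous fun q : (Fin 3 → ℝ) × ℂ × ℂ => vecO b q.1 q.2.1 q.2.2 := by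
    unfold vecO
    fun_prop
  exact continuous_pt'.comp h

private theorem vecO_smul (x : Fin 3 → ℝ) (s t c : ℂ) :
    vecO b x (c * s) (c * t) = c • vecO b x s t := by
  unfold vecO
  rw [smul_add, smul_add, smul_add, smul_smul, smul_smul, smul_smul, smul_smul, mul_assoc,
    mul_assoc, mul_assoc]

theorem pt_phase {x : Fin 3 → ℝ} {s t c : ℂ} (hc : ‖c‖ = 1) :
    pt (vecO b x (c * s) (c * t)) = pt (vecO b x s t) := by
  rw [vecO_smul, pt_smul hc]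

theorem pt_neg (x : Fin 3 → ℝ) (s t : ℂ) : pt (vecO b (-x) s t) = pt (vecO b x (-s) t) := by
  have h : vecO b (-x) s t = vecO b x (-s) t := by
    unfold vecO
    simp only [Pi.neg_apply, Complex.ofReal_neg, mul_neg, neg_mul]
  rw [h]

/-- a unit lift of pt (vecO x s t) is a phase times vecO x s t -/
theorem lift_vecO {x : Fin 3 → ℝ} {s t : ℂ} (h : UnitO x s t) {z : E 3} (hz : ‖z‖ = 1)
    (hp : pt z = pt (vecO b x s t)) : ∃ c : ℂ, ‖c‖ = 1 ∧ z = vecO b x (c * s) (c * t) := by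
  obtain ⟨h1, h2⟩ := exists_phase (norm_vecO b h) hz hp
  refine ⟨_, h1, ?_⟩
  rw [vecO_smul]
  exact h2

theorem Orth.norm_fst {b : Bas} {L : Set (Op 3)} (hO : Orth b L) {w : ℂ × ℝ}
    (hw : w ∈ kap b '' L) : ‖w.1‖ = w.2 * (1 - w.2) ∧ 0 ≤ w.2 ∧ w.2 ≤ 1 := by
  obtain ⟨P, hP, rfl⟩ := hw
  obtain ⟨x, s, t, hu, rfl⟩ := hO.form P hP
  rw [kap_vecO b hu]
  have h2 := hu.2
  have hs : 0 ≤ ‖s‖ ^ 2 := sq_nonneg _
  have ht : 0 ≤ ‖t‖ ^ 2 := sq_nonneg _
  refine ⟨?_, ht, by linarith⟩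
  show ‖s ^ 2 * (starRingEnd ℂ) t ^ 2‖ = ‖t‖ ^ 2 * (1 - ‖t‖ ^ 2)
  rw [norm_mul, norm_pow, norm_pow, RCLike.norm_conj]
  rw [← h2]
  ring

end Pool.Agent.H11.SO
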