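import Pool.Agent.H11.SO.EntO

/-! Form and fibres of the map from the sphere. -/

set_option autoImplicit false

open scoped Topology
open Topology

namespace Pool.Agent.H11.SO

open Pool.Agent.H66.SyL Pool.Agent.H11.ST

private theorem nsq {y : EuclideanSpace ℝ (Fin 4)} (hy : ‖y‖ = 1) :
    y 0 ^ 2 + y 1 ^ 2 + y 2 ^ 2 + y 3 ^ 2 = 1 := by
  have h := EuclideanSpace.real_norm_sq_eq y
  rw [hy, Fin.sum_univ_four] at h
  linarith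

private theorem nsq' {y : EuclideanSpace ℝ (Fin 4)}
    (hy : y 0 ^ 2 + y 1 ^ 2 + y 2 ^ 2 + y 3 ^ 2 = 1) : ‖y‖ = 1 := by
  have h := EuclideanSpace.real_norm_sq_eq y
  rw [Fin.sum_univ_four, hy] at h
  have h2 : 0 ≤ ‖y‖ := norm_nonneg y
  nlinarith

theorem zO_neg (b : Bas) (D : ℝ → ℂ) (ρ : ℝ → ℝ) (y : EuclideanSpace ℝ (Fin 4)) :
    zO b D ρ (-y) = - zO b D ρ y := by
  have h : ∀ i, (-y) i = - y i := fun i => rfl
  simp only [zO, vecO, h, neg_sq, abs_neg, neg_div, Matrix.cons_val_zero, Matrix.cons_val_one,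
    Matrix.cons_val, Complex.ofReal_neg, mul_neg, neg_smul, neg_add]

private theorem sgn_sq {u : ℝ} (hu : u ≠ 0) : (u / |u|) ^ 2 = 1 := by
  rw [div_pow, sq_abs, div_self (pow_ne_zero 2 hu)]

private theorem nrm_sqrt {a : ℝ} (ha : 0 ≤ a) : ‖((√a : ℝ) : ℂ)‖ ^ 2 = a := by
  rw [Complex.norm_real, Real.norm_eq_abs, sq_abs, Real.sq_sqrt ha]

private theorem sq_sqrtC {a : ℝ} (ha : 0 ≤ a) : ((√a : ℝ) : ℂ) ^ 2 = (a : ℂ) := by
  rw [← Complex.ofReal_pow, Real.sq_sqrt ha]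

private theorem tfac (D : ℝ → ℂ) (ρ : ℝ → ℝ) (hD : ∀ t, ‖D t‖ = 1) (h0 : ρ 0 = 0) (u : ℝ)
    (hu : 0 ≤ ρ (u ^ 2) ∧ ρ (u ^ 2) ≤ 1) {s t : ℂ} (hs : s = ((√(1 - ρ (u ^ 2)) : ℝ) : ℂ))
    (ht : t = ((√(ρ (u ^ 2)) : ℝ) : ℂ) * (starRingEnd ℂ) (D (u ^ 2)) * ((u / |u| : ℝ) : ℂ)) :
    ‖s‖ ^ 2 = 1 - ρ (u ^ 2) ∧ ‖t‖ ^ 2 = ρ (u ^ 2) ∧
    s ^ 2 * (starRingEnd ℂ) t ^ 2 = ((ρ (u ^ 2) * (1 - ρ (u ^ 2)) : ℝ) : ℂ) * D (u ^ 2) ^ 2 := by
  have h1 : ‖s‖ ^ 2 = 1 - ρ (u ^ 2) := by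
    rw [hs]
    exact nrm_sqrt (by linarith [hu.2])
  refine ⟨h1, ?_⟩
  by_cases h : u = 0
  · subst h
    have h2 : ρ (0 ^ 2) = 0 := by rw [zero_pow two_ne_zero, h0]
    have h3 : t = 0 := by rw [ht]; simp
    rw [h3, h2]
    simp
  · constructor
    · rw [ht, norm_mul, norm_mul, mul_pow, mul_pow, nrm_sqrt hu.1, RCLike.norm_conj, hD,
        Complex.norm_real, Real.norm_eq_abs, sq_abs, sgn_sq h]
      ring
    · have h2 : (starRingEnd ℂ) t = ((√(ρ (u ^ 2)) : ℝ) : ℂ) * D (u ^ 2) * ((u / |u| : ℝ) : ℂ) := by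
        rw [ht, map_mul, map_mul, Complex.conj_ofReal, Complex.conj_ofReal, Complex.conj_conj]
      rw [h2, mul_pow, mul_pow, hs, sq_sqrtC hu.1, sq_sqrtC (by linarith [hu.2]),
        ← Complex.ofReal_pow (u / |u|), sgn_sq h]
      push_cast
      ring

/-- (for y' = 0 one has s = 0 and any unit x can be used; y_3 = 0: t = 0) -/
theorem zO_form (b : Bas) (D : ℝ → ℂ) (ρ : ℝ → ℝ) (hD : ∀ t, ‖D t‖ = 1) (h0 : ρ 0 = 0)
    (h1 : ρ 1 = 1) (hi : ∀ t ∈ Set.Icc (0 : ℝ) 1, 0 ≤ ρ t ∧ ρ t ≤ 1)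
    {y : EuclideanSpace ℝ (Fin 4)} (hy : ‖y‖ = 1) :
    y 3 ^ 2 ∈ Set.Icc (0 : ℝ) 1 ∧ (∃ x s t, UnitO x s t ∧ vecO b x s t = zO b D ρ y) ∧
    kap b (pt (zO b D ρ y)) =
      (((ρ (y 3 ^ 2) * (1 - ρ (y 3 ^ 2)) : ℝ) : ℂ) * D (y 3 ^ 2) ^ 2, ρ (y 3 ^ 2)) := by
  have hn := nsq hy
  have hI : y 3 ^ 2 ∈ Set.Icc (0 : ℝ) 1 :=
    ⟨sq_nonneg _, by nlinarith [sq_nonneg (y 0), sq_nonneg (y 1), sq_nonneg (y 2)]⟩
  obtain ⟨f1, f2, f3⟩ := tfac D ρ hD h0 (y 3) (hi _ hI) rfl rfl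
  have hst : ∃ x, UnitO x ((√(1 - ρ (y 3 ^ 2)) : ℝ) : ℂ)
      (((√(ρ (y 3 ^ 2)) : ℝ) : ℂ) * (starRingEnd ℂ) (D (y 3 ^ 2)) * ((y 3 / |y 3| : ℝ) : ℂ)) ∧
      vecO b x ((√(1 - ρ (y 3 ^ 2)) : ℝ) : ℂ)
      (((√(ρ (y 3 ^ 2)) : ℝ) : ℂ) * (starRingEnd ℂ) (D (y 3 ^ 2)) * ((y 3 / |y 3| : ℝ) : ℂ)) =
        zO b D ρ y := by
    have hsum : ‖((√(1 - ρ (y 3 ^ 2)) : ℝ) : ℂ)‖ ^ 2 +
        ‖((√(ρ (y 3 ^ 2)) : ℝ) : ℂ) * (starRingEnd ℂ) (D (y 3 ^ 2)) * ((y 3 / |y 3| : ℝ) : ℂ)‖ ^ 2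
        = 1 := by
      rw [f1, f2]
      ring
    by_cases hr : y 0 ^ 2 + y 1 ^ 2 + y 2 ^ 2 = 0
    · have h3 : y 3 ^ 2 = 1 := by linarith
      have hs : √(1 - ρ (y 3 ^ 2)) = 0 := by rw [h3, h1, sub_self, Real.sqrt_zero]
      refine ⟨e0, ⟨by simp [e0], hsum⟩, ?_⟩
      simp only [zO, vecO, hs, Complex.ofReal_zero, zero_mul, zero_smul]
    · have hpos : 0 ≤ y 0 ^ 2 + y 1 ^ 2 + y 2 ^ 2 := by positivity
      refine ⟨![y 0 / √(y 0 ^ 2 + y 1 ^ 2 + y 2 ^ 2), y 1 / √(y 0 ^ 2 + y 1 ^ 2 + y 2 ^ 2),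
        y 2 / √(y 0 ^ 2 + y 1 ^ 2 + y 2 ^ 2)], ⟨?_, hsum⟩, rfl⟩
      simp only [Matrix.cons_val_zero, Matrix.cons_val_one, Matrix.cons_val, div_pow,
        Real.sq_sqrt hpos]
      rw [← add_div, ← add_div, div_self hr]
  obtain ⟨x, hx, hx2⟩ := hst
  refine ⟨hI, ⟨x, _, _, hx, hx2⟩, ?_⟩
  rw [← hx2, kap_vecO b hx, f2, f3]

private theorem inner_zO (b : Bas) (D : ℝ → ℂ) (ρ : ℝ → ℝ) (y : EuclideanSpace ℝ (Fin 4)) :
    inner ℂ (b 0) (zO b D ρ y) = ((√(1 - ρ (y 3 ^ 2)) : ℝ) : ℂ) *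
      ((y 0 / √(y 0 ^ 2 + y 1 ^ 2 + y 2 ^ 2) : ℝ) : ℂ) ∧
    inner ℂ (b 1) (zO b D ρ y) = ((√(1 - ρ (y 3 ^ 2)) : ℝ) : ℂ) *
      ((y 1 / √(y 0 ^ 2 + y 1 ^ 2 + y 2 ^ 2) : ℝ) : ℂ) ∧
    inner ℂ (b 2) (zO b D ρ y) = ((√(1 - ρ (y 3 ^ 2)) : ℝ) : ℂ) *
      ((y 2 / √(y 0 ^ 2 + y 1 ^ 2 + y 2 ^ 2) : ℝ) : ℂ) ∧
    inner ℂ (b 3) (zO b D ρ y) =
      ((√(ρ (y 3 ^ 2)) : ℝ) : ℂ) * (starRingEnd ℂ) (D (y 3 ^ 2)) * ((y 3 / |y 3| : ℝ) : ℂ) :=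
  inner_vecO b _ _ _

private theorem pm {y w : EuclideanSpace ℝ (Fin 4)} (hy : ‖y‖ = 1)
    (h : ∀ i j, y i * y j = w i * w j) : y = w ∨ y = -w := by
  have hne : ∃ k, y k ≠ 0 := by
    by_contra hc
    push Not at hc
    have h1 := nsq hy
    rw [hc 0, hc 1, hc 2, hc 3] at h1
    norm_num at h1
  obtain ⟨k, hk⟩ := hne
  have h1 : (y k - w k) * (y k + w k) = 0 := by linear_combination h k k
  rcases mul_eq_zero.mp h1 with h2 | h2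
  · left
    ext j
    have h3 : w k = y k := by linarith
    have h4 := h k j
    rw [h3] at h4
    exact mul_left_cancel₀ hk h4
  · right
    ext j
    have h3 : w k = - y k := by linarith
    have h4 := h k j
    rw [h3] at h4
    show y j = - w j
    have h5 : y k * (y j + w j) = 0 := by linear_combination h4
    rcases mul_eq_zero.mp h5 with h6 | h6
    · exact absurd h6 hk
    · linarith

/-- Proof: same y_3^2, so the same ρ, D; pt equal: the vectors differ by a phase c; if 0 < ρ < 1 all coordinates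
are nonzero multiples of the real numbers y_i / r, y_3 / |y_3|, so c = 1 or -1; ρ = 0, 1 only at y_3^2 = 0, 1. -/
theorem zO_fib (b : Bas) (D : ℝ → ℂ) (ρ : ℝ → ℝ) (hD : ∀ t, ‖D t‖ = 1) (h0 : ρ 0 = 0)
    (h1 : ρ 1 = 1) (hi : ∀ t ∈ Set.Ioo (0 : ℝ) 1, 0 < ρ t ∧ ρ t < 1)
    {y w : EuclideanSpace ℝ (Fin 4)} (hy : ‖y‖ = 1) (hw : ‖w‖ = 1) (h3 : y 3 ^ 2 = w 3 ^ 2)
    (h : pt (zO b D ρ y) = pt (zO b D ρ w)) : y = w ∨ y = -w := by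
  obtain ⟨a0, a1, a2, a3⟩ := inner_zO b D ρ y
  obtain ⟨c0, c1, c2, c3⟩ := inner_zO b D ρ w
  have hny := nsq hy
  have hnw := nsq hw
  have hR : y 0 ^ 2 + y 1 ^ 2 + y 2 ^ 2 = 1 - y 3 ^ 2 := by linarith
  have hR' : w 0 ^ 2 + w 1 ^ 2 + w 2 ^ 2 = 1 - y 3 ^ 2 := by linarith
  rw [hR] at a0 a1 a2
  rw [hR', ← h3] at c0 c1 c2
  rw [← h3] at c3
  have he : ∀ i j, inner ℂ (b i) (zO b D ρ y) * (starRingEnd ℂ) (inner ℂ (b j) (zO b D ρ y)) =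
      inner ℂ (b i) (zO b D ρ w) * (starRingEnd ℂ) (inner ℂ (b j) (zO b D ρ w)) := by
    intro i j
    rw [← ent_pt, ← ent_pt, h]
  have hI : y 3 ^ 2 ≤ 1 := by nlinarith [sq_nonneg (y 0), sq_nonneg (y 1), sq_nonneg (y 2)]
  have habs : |y 3| = |w 3| := by
    rw [← Real.sqrt_sq_eq_abs, ← Real.sqrt_sq_eq_abs, h3]
  have hA : ∀ i : Fin (3 + 1), i ≠ 3 → inner ℂ (b i) (zO b D ρ y) =
      ((√(1 - ρ (y 3 ^ 2)) * (y i / √(1 - y 3 ^ 2)) : ℝ) : ℂ) := by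
    intro i hi3
    rw [Complex.ofReal_mul]
    fin_cases i
    · exact a0
    · exact a1
    · exact a2
    · exact absurd rfl hi3
  have hC : ∀ i : Fin (3 + 1), i ≠ 3 → inner ℂ (b i) (zO b D ρ w) =
      ((√(1 - ρ (y 3 ^ 2)) * (w i / √(1 - y 3 ^ 2)) : ℝ) : ℂ) := by
    intro i hi3
    rw [Complex.ofReal_mul]
    fin_cases i
    · exact c0
    · exact c1
    · exact c2
    · exact absurd rfl hi3
  rcases hI.eq_or_lt with hI1 | hI1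
  · -- y' = w' = 0
    apply pm hy
    have hy0 : ∀ i : Fin (3 + 1), i ≠ 3 → y i = 0 := by
      rw [hI1] at hR
      have k0 : y 0 = 0 := by nlinarith [sq_nonneg (y 0), sq_nonneg (y 1), sq_nonneg (y 2)]
      have k1 : y 1 = 0 := by nlinarith [sq_nonneg (y 0), sq_nonneg (y 1), sq_nonneg (y 2)]
      have k2 : y 2 = 0 := by nlinarith [sq_nonneg (y 0), sq_nonneg (y 1), sq_nonneg (y 2)]
      intro i hi3
      fin_cases i
      · exact k0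
      · exact k1
      · exact k2
      · exact absurd rfl hi3
    have hw0 : ∀ i : Fin (3 + 1), i ≠ 3 → w i = 0 := by
      rw [hI1] at hR'
      have k0 : w 0 = 0 := by nlinarith [sq_nonneg (w 0), sq_nonneg (w 1), sq_nonneg (w 2)]
      have k1 : w 1 = 0 := by nlinarith [sq_nonneg (w 0), sq_nonneg (w 1), sq_nonneg (w 2)]
      have k2 : w 2 = 0 := by nlinarith [sq_nonneg (w 0), sq_nonneg (w 1), sq_nonneg (w 2)]
      intro i hi3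
      fin_cases i
      · exact k0
      · exact k1
      · exact k2
      · exact absurd rfl hi3
    intro i j
    by_cases h1 : i = 3
    · by_cases h2 : j = 3
      · rw [h1, h2]
        nlinarith [h3]
      · rw [hy0 j h2, hw0 j h2, mul_zero, mul_zero]
    · rw [hy0 i h1, hw0 i h1, zero_mul, zero_mul]
  · have hRpos : 0 < √(1 - y 3 ^ 2) := Real.sqrt_pos.mpr (by linarith)
    have hρ1 : ρ (y 3 ^ 2) < 1 := by
      rcases (sq_nonneg (y 3)).eq_or_lt with hz | hz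
      · rw [← hz, h0]
        exact one_pos
      · exact (hi _ ⟨hz, hI1⟩).2
    have hspos : 0 < √(1 - ρ (y 3 ^ 2)) := Real.sqrt_pos.mpr (by linarith)
    have e1 : ∀ i j : Fin (3 + 1), i ≠ 3 → j ≠ 3 → y i * y j = w i * w j := by
      intro i j hi3 hj3
      have h4 := he i j
      rw [hA i hi3, hA j hj3, hC i hi3, hC j hj3, Complex.conj_ofReal, Complex.conj_ofReal,
        ← Complex.ofReal_mul, ← Complex.ofReal_mul] at h4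
      have h5 := Complex.ofReal_injective h4
      have h6 : (√(1 - ρ (y 3 ^ 2)) / √(1 - y 3 ^ 2)) ^ 2 * (y i * y j) =
          (√(1 - ρ (y 3 ^ 2)) / √(1 - y 3 ^ 2)) ^ 2 * (w i * w j) := by
        linear_combination h5
      exact mul_left_cancel₀ (by positivity) h6
    have e2 : ∀ i : Fin (3 + 1), i ≠ 3 → y i * y 3 = w i * w 3 := by
      intro i hi3
      by_cases hz : y 3 = 0
      · have hz' : w 3 = 0 := by
          rw [hz, abs_zero] at habs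
          exact abs_eq_zero.mp habs.symm
        rw [hz, hz', mul_zero, mul_zero]
      · have hpos : 0 < y 3 ^ 2 := by positivity
        have hρ0 : 0 < √(ρ (y 3 ^ 2)) := Real.sqrt_pos.mpr (hi _ ⟨hpos, hI1⟩).1
        have hDn : D (y 3 ^ 2) ≠ 0 := by
          intro hd
          have := hD (y 3 ^ 2)
          rw [hd, norm_zero] at this
          exact zero_ne_one this
        have habs0 : 0 < |y 3| := abs_pos.mpr hz
        have h4 := he i 3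
        rw [hA i hi3, hC i hi3, a3, c3, map_mul, map_mul, map_mul, map_mul, Complex.conj_ofReal,
          Complex.conj_ofReal, Complex.conj_ofReal, Complex.conj_conj] at h4
        have h5 : D (y 3 ^ 2) * ((√(1 - ρ (y 3 ^ 2)) * (y i / √(1 - y 3 ^ 2)) *
            (√(ρ (y 3 ^ 2)) * (y 3 / |y 3|)) : ℝ) : ℂ) =
            D (y 3 ^ 2) * ((√(1 - ρ (y 3 ^ 2)) * (w i / √(1 - y 3 ^ 2)) *
            (√(ρ (y 3 ^ 2)) * (w 3 / |w 3|)) : ℝ) : ℂ) := by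
          push_cast
          push_cast at h4
          linear_combination h4
        have h6 := Complex.ofReal_injective (mul_left_cancel₀ hDn h5)
        rw [← habs] at h6
        have h7 : (√(1 - ρ (y 3 ^ 2)) / √(1 - y 3 ^ 2) * √(ρ (y 3 ^ 2)) / |y 3|) * (y i * y 3) =
            (√(1 - ρ (y 3 ^ 2)) / √(1 - y 3 ^ 2) * √(ρ (y 3 ^ 2)) / |y 3|) * (w i * w 3) := by
          linear_combination h6
        exact mul_left_cancel₀ (by positivity) h7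
    apply pm hy
    intro i j
    by_cases h1 : i = 3
    · by_cases h2 : j = 3
      · rw [h1, h2]
        nlinarith [h3]
      · rw [h1, mul_comm (y 3), mul_comm (w 3)]
        exact e2 j h2
    · by_cases h2 : j = 3
      · rw [h2]
        exact e2 i h1
      · exact e1 i j h1 h2

private theorem norm_form (ρ : ℝ) (d : ℂ) (hd : ‖d‖ = 1) (hρ : 0 ≤ ρ ∧ ρ ≤ 1)
    {s t : ℂ} (hst : ‖s‖ ^ 2 + ‖t‖ ^ 2 = 1) (ht : ‖t‖ ^ 2 = ρ)
    (h : s ^ 2 * (starRingEnd ℂ) t ^ 2 = ((ρ * (1 - ρ) : ℝ) : ℂ) * d ^ 2) :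
    ∃ (c : ℂ) (ε : ℝ), ‖c‖ = 1 ∧ ε ^ 2 = 1 ∧ c * s = ((√(1 - ρ) * ε : ℝ) : ℂ) ∧
      c * t = ((√ρ : ℝ) : ℂ) * (starRingEnd ℂ) d := by
  have hs : ‖s‖ ^ 2 = 1 - ρ := by linarith
  by_cases hρ0 : ρ = 0
  · subst hρ0
    have ht0 : t = 0 := norm_eq_zero.mp (pow_eq_zero_iff two_ne_zero |>.mp ht)
    refine ⟨(starRingEnd ℂ) s, 1, ?_, by norm_num, ?_, ?_⟩
    · rw [RCLike.norm_conj]
      have h1 : 0 ≤ ‖s‖ := norm_nonneg s
      nlinarith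
    · rw [mul_comm, Complex.mul_conj, Complex.normSq_eq_norm_sq, hs]
      simp
    · rw [ht0]
      simp
  · have hρp : 0 < ρ := lt_of_le_of_ne hρ.1 (Ne.symm hρ0)
    have htn : t ≠ 0 := by
      intro h1
      rw [h1, norm_zero] at ht
      exact hρ0 (by rw [← ht]; norm_num)
    have hdn : d * (starRingEnd ℂ) d = 1 := by
      rw [Complex.mul_conj, Complex.normSq_eq_norm_sq, hd]
      norm_num
    have htt : t * (starRingEnd ℂ) t = (ρ : ℂ) := by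
      rw [Complex.mul_conj, Complex.normSq_eq_norm_sq, ht]
    have htc : (starRingEnd ℂ) t ≠ 0 := by
      intro h1
      rw [h1, mul_zero] at htt
      exact hρ0 (by exact_mod_cast htt.symm)
    have hρC : (ρ : ℂ) ≠ 0 := by exact_mod_cast hρ0
    set c : ℂ := ((√ρ : ℝ) : ℂ) * (starRingEnd ℂ) d / t with hc
    have hct : c * t = ((√ρ : ℝ) : ℂ) * (starRingEnd ℂ) d := by
      rw [hc]
      field_simp
    have hcn : ‖c‖ = 1 := by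
      rw [hc, norm_div, norm_mul, RCLike.norm_conj, hd, mul_one, Complex.norm_real,
        Real.norm_eq_abs, abs_of_nonneg (Real.sqrt_nonneg _)]
      have h1 : √ρ = ‖t‖ := by rw [← ht, Real.sqrt_sq (norm_nonneg t)]
      rw [h1, div_self (norm_ne_zero_iff.mpr htn)]
    have hcs : (c * s) ^ 2 = ((√(1 - ρ) : ℝ) : ℂ) ^ 2 := by
      rw [sq_sqrtC (by linarith [hρ.2])]
      have h1 : (c * s) ^ 2 * (t * (starRingEnd ℂ) t) ^ 2 =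
          (((1 - ρ : ℝ)) : ℂ) * (t * (starRingEnd ℂ) t) ^ 2 := by
        calc (c * s) ^ 2 * (t * (starRingEnd ℂ) t) ^ 2
            = (c * t) ^ 2 * (s ^ 2 * (starRingEnd ℂ) t ^ 2) := by ring
          _ = (((1 - ρ : ℝ)) : ℂ) * (t * (starRingEnd ℂ) t) ^ 2 := by
            rw [hct, h, mul_pow, sq_sqrtC hρ.1, htt]
            push_cast
            linear_combination (ρ : ℂ) ^ 2 * (1 - (ρ : ℂ)) *
              (d * (starRingEnd ℂ) d + 1) * hdn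
      exact mul_right_cancel₀ (pow_ne_zero 2 (by rw [htt]; exact hρC)) h1
    rcases sq_eq_sq_iff_eq_or_eq_neg.mp hcs with h2 | h2
    · refine ⟨c, 1, hcn, by norm_num, ?_, hct⟩
      rw [h2, mul_one]
    · refine ⟨c, -1, hcn, by norm_num, ?_, hct⟩
      rw [h2]
      push_cast
      ring

private theorem vecO_congr (b : Bas) {x x' : Fin 3 → ℝ} {s s' t t' : ℂ}
    (h : ∀ i, s' * (x' i : ℂ) = s * (x i : ℂ)) (ht : t' = t) :
    vecO b x' s' t' = vecO b x s t := by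
  simp only [vecO, h, ht]

/-- Proof: y = (sqrt (1 - τ) ξ, sqrt τ), ξ = x or -x: at τ the vectors vecO e0 s1 t1 = zO (sqrt (1 - τ), 0, 0, sqrt τ) and
vecO x s t have the same kap; normal form: vecO x s t is a phase times vecO ξ s1 t1. -/
theorem zO_surj (b : Bas) (D : ℝ → ℂ) (ρ : ℝ → ℝ) (hD : ∀ t, ‖D t‖ = 1) (h0 : ρ 0 = 0)
    (h1 : ρ 1 = 1) (hi : ∀ t ∈ Set.Icc (0 : ℝ) 1, 0 ≤ ρ t ∧ ρ t ≤ 1)
    (hi' : ∀ t ∈ Set.Ioo (0 : ℝ) 1, 0 < ρ t ∧ ρ t < 1) {τ : ℝ} (hτ : τ ∈ Set.Icc (0 : ℝ) 1)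
    {x : Fin 3 → ℝ} {s t : ℂ} (hu : UnitO x s t)
    (hk : kap b (pt (vecO b x s t)) = (((ρ τ * (1 - ρ τ) : ℝ) : ℂ) * D τ ^ 2, ρ τ)) :
    ∃ y : EuclideanSpace ℝ (Fin 4), ‖y‖ = 1 ∧ y 3 ^ 2 = τ ∧
      pt (zO b D ρ y) = pt (vecO b x s t) := by
  rw [kap_vecO b hu] at hk
  obtain ⟨hk1, hk2⟩ := Prod.mk.inj hk
  obtain ⟨c, ε, hc, hε, hcs, hct⟩ := norm_form (ρ τ) (D τ) (hD τ) (hi τ hτ) hu.2 hk2 hk1
  have hτ0 : 0 ≤ τ := hτ.1
  have hτ1 : 0 ≤ 1 - τ := by linarith [hτ.2]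
  obtain ⟨y, y0, y1, y2, y3⟩ : ∃ y : EuclideanSpace ℝ (Fin 4), y 0 = √(1 - τ) * ε * x 0 ∧
      y 1 = √(1 - τ) * ε * x 1 ∧ y 2 = √(1 - τ) * ε * x 2 ∧ y 3 = √τ :=
    ⟨WithLp.toLp 2 ![√(1 - τ) * ε * x 0, √(1 - τ) * ε * x 1, √(1 - τ) * ε * x 2, √τ],
      rfl, rfl, rfl, rfl⟩
  have hy3 : y 3 ^ 2 = τ := by rw [y3, Real.sq_sqrt hτ0]
  have hx := hu.1
  have hsum : y 0 ^ 2 + y 1 ^ 2 + y 2 ^ 2 = 1 - τ := by
    rw [y0, y1, y2]
    have h2 : √(1 - τ) ^ 2 = 1 - τ := Real.sq_sqrt hτ1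
    calc (√(1 - τ) * ε * x 0) ^ 2 + (√(1 - τ) * ε * x 1) ^ 2 + (√(1 - τ) * ε * x 2) ^ 2
        = √(1 - τ) ^ 2 * ε ^ 2 * (x 0 ^ 2 + x 1 ^ 2 + x 2 ^ 2) := by ring
      _ = 1 - τ := by rw [h2, hε, hx]; ring
  refine ⟨y, nsq' (by rw [hsum, hy3]; ring), hy3, ?_⟩
  rw [← pt_phase b (x := x) (s := s) (t := t) hc]
  congr 1
  simp only [zO, hsum, hy3]
  apply vecO_congr
  · have key : ∀ z : ℝ, ((√(1 - ρ τ) : ℝ) : ℂ) * ((√(1 - τ) * ε * z / √(1 - τ) : ℝ) : ℂ) =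
        c * s * (z : ℂ) := by
      intro z
      rw [hcs, ← Complex.ofReal_mul, ← Complex.ofReal_mul]
      congr 1
      rcases hτ.2.eq_or_lt with h2 | h2
      · rw [h2, h1, sub_self, Real.sqrt_zero]
        ring
      · have h3 : √(1 - τ) ≠ 0 := (Real.sqrt_pos.mpr (by linarith)).ne'
        field_simp
    intro i
    fin_cases i
    · show ((√(1 - ρ τ) : ℝ) : ℂ) * ((y 0 / √(1 - τ) : ℝ) : ℂ) = c * s * (x 0 : ℂ)
      rw [y0]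
      exact key _
    · show ((√(1 - ρ τ) : ℝ) : ℂ) * ((y 1 / √(1 - τ) : ℝ) : ℂ) = c * s * (x 1 : ℂ)
      rw [y1]
      exact key _
    · show ((√(1 - ρ τ) : ℝ) : ℂ) * ((y 2 / √(1 - τ) : ℝ) : ℂ) = c * s * (x 2 : ℂ)
      rw [y2]
      exact key _
  · rw [hct]
    rcases hτ0.eq_or_lt with h2 | h2
    · rw [← h2, h0, Real.sqrt_zero]
      simp
    · have h3 : 0 < √τ := Real.sqrt_pos.mpr h2
      rw [y3, abs_of_pos h3, div_self h3.ne', Complex.ofReal_one, mul_one]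

end Pool.Agent.H11.SO
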