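import Pool.Agent.H11.SO.EntO
import Pool.Agent.H66.SyL.MomA
import Pool.Agent.H66.SyL.CDa

/-! Coordinates of L at the pole t = 0. -/

set_option autoImplicit false

open scoped ContDiff Topology

namespace Pool.Agent.H11.SO

open Pool.Agent.H66.SyL Pool.Agent.H11.ST

variable {b : Bas} {L : Set (Op 3)}

private noncomputable def entR (b : Bas) (i j : Fin (3 + 1)) : Op 3 →L[ℝ] ℂ :=
  ((innerSL ℂ (b i)).comp (ContinuousLinearMap.apply ℂ (E 3) (b j))).restrictScalars ℝ

private theorem entR_apply (i j : Fin (3 + 1)) (Q : Op 3) : entR b i j Q = ent b Q i j := rfl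

private theorem along {G : Type*} [NormedAddCommGroup G] [NormedSpace ℝ G] {f : R 3 → G} {x u : R 3}
    (hf : DifferentiableAt ℝ f x) : HasDerivAt (fun t : ℝ => f (x + t • u)) (fderiv ℝ f x u) 0 := by
  have h1 : HasDerivAt (fun t : ℝ => x + t • u) u 0 := by
    simpa using ((hasDerivAt_id (0 : ℝ)).smul_const u).const_add x
  have hf' : HasFDerivAt f (fderiv ℝ f x) (x + (0 : ℝ) • u) := by simpa using hf.hasFDerivAt
  exact hf'.comp_hasDerivAt 0 h1

private theorem ev_ball {x0 : R 3} {δ : ℝ} {x : R 3} (hx : x ∈ Metric.ball x0 δ) (u : R 3) :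
    ∀ᶠ t : ℝ in 𝓝 0, x + t • u ∈ Metric.ball x0 δ := by
  have h1 : ContinuousAt (fun t : ℝ => x + t • u) 0 := by fun_prop
  have h2 : Metric.ball x0 δ ∈ 𝓝 (x + (0 : ℝ) • u) := by
    rw [zero_smul, add_zero]
    exact Metric.isOpen_ball.mem_nhds hx
  exact h1.eventually h2

private theorem hasDerivAt_coord {γ : ℝ → E 3} {Y : E 3} (h : HasDerivAt γ Y 0) (i : Fin (3 + 1)) :
    HasDerivAt (fun t => inner ℂ (b i) (γ t)) (inner ℂ (b i) Y) 0 := by
  have h1 := (((innerSL ℂ (b i)).restrictScalars ℝ).hasFDerivAt (x := γ 0)).comp_hasDerivAt 0 h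
  exact h1

private theorem hasDerivAt_conj {f : ℝ → ℂ} {f' : ℂ} (h : HasDerivAt f f' 0) :
    HasDerivAt (fun t => (starRingEnd ℂ) (f t)) ((starRingEnd ℂ) f') 0 := by
  have h1 := ((Complex.conjCLE : ℂ ≃L[ℝ] ℂ).toContinuousLinearMap.hasFDerivAt
    (x := f 0)).comp_hasDerivAt 0 h
  exact h1

/-- the entries of the derivative of the chart are real for i = 1, 2 -/
private theorem ent_real (hO : Orth b L) (C : LChart L) {x : R 3} (hx : x ∈ Metric.ball C.x0 C.δ)
    (i : Fin (3 + 1)) (hi : i = 1 ∨ i = 2) (v : R 3) : (ent b (fderiv ℝ C.p x v) i 0).im = 0 := by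
  have hpd : DifferentiableAt ℝ C.p x :=
    (C.smooth_p.contDiffAt (Metric.isOpen_ball.mem_nhds hx)).differentiableAt one_ne_zero
  have h1 := along (u := v) hpd
  have h2 : HasDerivAt (fun t : ℝ => (entR b i 0 (C.p (x + t • v))).im)
      (entR b i 0 (fderiv ℝ C.p x v)).im 0 := by
    have h3 := ((Complex.imCLM.comp (entR b i 0)).hasFDerivAt
      (x := C.p (x + (0 : ℝ) • v))).comp_hasDerivAt 0 h1
    exact h3
  have h3 : (fun t : ℝ => (entR b i 0 (C.p (x + t • v))).im) =ᶠ[𝓝 0] fun _ => 0 := by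
    filter_upwards [ev_ball hx v] with t ht
    obtain ⟨y, s, u, -, hP⟩ := hO.form _ (C.p_mem _ ht).1
    rw [entR_apply, ← hP, ent_pt]
    obtain ⟨e0, e1, e2, -⟩ := inner_vecO b y s u
    rcases hi with rfl | rfl
    · rw [e0, e1, map_mul, Complex.conj_ofReal]
      have : s * (y 1 : ℂ) * ((starRingEnd ℂ) s * (y 0 : ℂ)) =
          (((Complex.normSq s) * (y 1) * (y 0) : ℝ) : ℂ) := by
        push_cast
        rw [← Complex.mul_conj]
        ring
      rw [this, Complex.ofReal_im]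
    · rw [e0, e2, map_mul, Complex.conj_ofReal]
      have : s * (y 2 : ℂ) * ((starRingEnd ℂ) s * (y 0 : ℂ)) =
          (((Complex.normSq s) * (y 2) * (y 0) : ℝ) : ℂ) := by
        push_cast
        rw [← Complex.mul_conj]
        ring
      rw [this, Complex.ofReal_im]
  have h4 := h2.unique ((hasDerivAt_const (0 : ℝ) (0 : ℝ)).congr_of_eventuallyEq h3)
  exact h4

private theorem vecO_e0 : vecO b e0 1 0 = b 0 := by
  simp [vecO, e0]

private theorem unit_e0 : UnitO e0 1 0 := by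
  simp [UnitO, e0]

/-- the three entries determine the tangent vector -/
private theorem ent_inj (C : LChart L) (hP : pt (vecO b e0 1 0) ∈ L ∩ C.U) (v : R 3)
    (h1 : ent b (fderiv ℝ C.p (C.r (pt (vecO b e0 1 0))) v) 1 0 = 0)
    (h2 : ent b (fderiv ℝ C.p (C.r (pt (vecO b e0 1 0))) v) 2 0 = 0)
    (h3 : ent b (fderiv ℝ C.p (C.r (pt (vecO b e0 1 0))) v) 3 0 = 0) : v = 0 := by
  obtain ⟨P, hPdef⟩ : ∃ P, P = pt (vecO b e0 1 0) := ⟨_, rfl⟩
  rw [← hPdef] at hP h1 h2 h3
  obtain ⟨x0, hx0⟩ : ∃ x0, x0 = C.r P := ⟨_, rfl⟩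
  rw [← hx0] at h1 h2 h3
  have hb : x0 ∈ Metric.ball C.x0 C.δ := by rw [hx0]; exact C.r_mem P hP
  have hball : Metric.ball C.x0 C.δ ∈ 𝓝 x0 := Metric.isOpen_ball.mem_nhds hb
  have hpd : DifferentiableAt ℝ C.p x0 := (C.smooth_p.contDiffAt hball).differentiableAt one_ne_zero
  have hzd : DifferentiableAt ℝ C.z x0 := (C.smooth_z.contDiffAt hball).differentiableAt one_ne_zero
  have hz0 : ‖C.z x0‖ = 1 := C.norm_z x0 hb
  have hzP : pt (C.z x0) = pt (vecO b e0 1 0) := by
    rw [C.pt_z x0 hb, hx0, C.p_r P hP, hPdef]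
  obtain ⟨c, hc, hzc⟩ := lift_vecO b unit_e0 hz0 hzP
  have hc0 : c ≠ 0 := by
    intro h
    rw [h, norm_zero] at hc
    exact zero_ne_one hc
  have hcc : (starRingEnd ℂ) c ≠ 0 := fun h => hc0 ((map_eq_zero _).1 h)
  obtain ⟨i0, i1, i2, i3⟩ := inner_vecO b e0 (c * 1) (c * 0)
  rw [← hzc] at i0 i1 i2 i3
  have j0 : inner ℂ (b 0) (C.z x0) = c := by rw [i0]; simp [e0]
  have j1 : inner ℂ (b 1) (C.z x0) = 0 := by rw [i1]; simp [e0]
  have j2 : inner ℂ (b 2) (C.z x0) = 0 := by rw [i2]; simp [e0]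
  have j3 : inner ℂ (b 3) (C.z x0) = 0 := by rw [i3]; simp
  obtain ⟨Y, hY⟩ : ∃ Y, Y = fderiv ℝ C.z x0 v := ⟨_, rfl⟩
  have hzb : C.z x0 = c • b 0 := by
    rw [hzc]
    simp [vecO, e0]
  have y0 : inner ℂ (b 0) Y = 0 := by
    have h4 := C.leg x0 hb v
    rw [hzb, inner_smul_left, ← hY] at h4
    exact (mul_eq_zero.1 h4).resolve_left hcc
  have key : ∀ i : Fin (3 + 1), inner ℂ (b i) (C.z x0) = 0 →
      ent b (fderiv ℝ C.p x0 v) i 0 = inner ℂ (b i) Y * (starRingEnd ℂ) c := by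
    intro i hi
    have d1 : HasDerivAt (fun t : ℝ => entR b i 0 (C.p (x0 + t • v)))
        (entR b i 0 (fderiv ℝ C.p x0 v)) 0 := by
      have h4 := ((entR b i 0).hasFDerivAt (x := C.p (x0 + (0 : ℝ) • v))).comp_hasDerivAt 0
        (along (u := v) hpd)
      exact h4
    have hzc' : HasDerivAt (fun t : ℝ => C.z (x0 + t • v)) Y 0 := by
      rw [hY]
      exact along (u := v) hzd
    have d2 := (hasDerivAt_coord (b := b) hzc' i).mul (hasDerivAt_conj (hasDerivAt_coord (b := b) hzc' 0))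
    have e : (fun t : ℝ => entR b i 0 (C.p (x0 + t • v))) =ᶠ[𝓝 0] fun t =>
        inner ℂ (b i) (C.z (x0 + t • v)) * (starRingEnd ℂ) (inner ℂ (b 0) (C.z (x0 + t • v))) := by
      filter_upwards [ev_ball hb v] with t ht
      rw [entR_apply, ← C.pt_z _ ht, ent_pt]
    have h5 := d1.unique (d2.congr_of_eventuallyEq e)
    rw [entR_apply] at h5
    rw [h5]
    simp only [zero_smul, add_zero, hi, j0, y0, map_zero, mul_zero]
  have k1 : inner ℂ (b 1) Y = 0 := by
    rw [key 1 j1] at h1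
    exact (mul_eq_zero.1 h1).resolve_right hcc
  have k2 : inner ℂ (b 2) Y = 0 := by
    rw [key 2 j2] at h2
    exact (mul_eq_zero.1 h2).resolve_right hcc
  have k3 : inner ℂ (b 3) Y = 0 := by
    rw [key 3 j3] at h3
    exact (mul_eq_zero.1 h3).resolve_right hcc
  have hY0 : Y = 0 := by
    apply b.repr.injective
    ext k
    rw [b.repr_apply_apply, map_zero]
    fin_cases k
    · exact y0
    · exact k1
    · exact k2
    · exact k3
  exact C.imm x0 hb (by rw [← hY, hY0, map_zero])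

/-- the derivative of a great circle through b 0 -/
private theorem circle_deriv (k : Fin (3 + 1)) :
    HasDerivAt (fun a : ℝ => pt (((Real.cos a : ℝ) : ℂ) • b 0 + ((Real.sin a : ℝ) : ℂ) • b k))
      ((innerSL ℂ (b 0)).smulRight (b k) + (innerSL ℂ (b k)).smulRight (b 0) : Op 3) 0 := by
  have e : (fun a : ℝ => pt (((Real.cos a : ℝ) : ℂ) • b 0 + ((Real.sin a : ℝ) : ℂ) • b k)) =
      fun a : ℝ => (Real.cos a ^ 2) • ((innerSL ℂ (b 0)).smulRight (b 0) : Op 3) +
        (Real.cos a * Real.sin a) • ((innerSL ℂ (b 0)).smulRight (b k) +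
          (innerSL ℂ (b k)).smulRight (b 0) : Op 3) +
        (Real.sin a ^ 2) • ((innerSL ℂ (b k)).smulRight (b k) : Op 3) := by
    funext a
    refine ContinuousLinearMap.ext fun v => ?_
    rw [pt_apply]
    simp only [inner_add_left, inner_smul_left, Complex.conj_ofReal, add_apply,
      smul_apply, ContinuousLinearMap.smulRight_apply, innerSL_apply_apply]
    simp only [← Complex.coe_smul]
    push_cast
    module
  rw [e]
  have hcos := Real.hasDerivAt_cos 0
  have hsin := Real.hasDerivAt_sin 0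
  have h1 := ((hcos.pow 2).smul_const ((innerSL ℂ (b 0)).smulRight (b 0) : Op 3)).add
    (((hcos.mul hsin).smul_const ((innerSL ℂ (b 0)).smulRight (b k) +
          (innerSL ℂ (b k)).smulRight (b 0) : Op 3)))
  have h2 := h1.add ((hsin.pow 2).smul_const ((innerSL ℂ (b k)).smulRight (b k) : Op 3))
  refine h2.congr_deriv ?_
  simp

/-- tangent vectors with entries (1, 0, 0), (0, 1, 0) -/
private theorem tangent (hO : Orth b L) (C : LChart L) (hP : pt (vecO b e0 1 0) ∈ L ∩ C.U)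
    (k : Fin (3 + 1)) (hk : k = 1 ∨ k = 2) :
    ∃ y : R 3, ∀ i : Fin (3 + 1), i ≠ 0 →
      ent b (fderiv ℝ C.p (C.r (pt (vecO b e0 1 0))) y) i 0 = if i = k then 1 else 0 := by
  have hg : ∀ a : ℝ, pt (((Real.cos a : ℝ) : ℂ) • b 0 + ((Real.sin a : ℝ) : ℂ) • b k) ∈ L := by
    intro a
    have hcs : Real.cos a ^ 2 + Real.sin a ^ 2 = 1 := Real.cos_sq_add_sin_sq a
    rcases hk with rfl | rfl
    · have hu : UnitO ![Real.cos a, Real.sin a, 0] 1 0 := by
        refine ⟨?_, by simp⟩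
        simp
      have h1 := hO.sat _ hP.1 ![Real.cos a, Real.sin a, 0] 1 0 hu
        (by rw [kap_vecO b hu, kap_vecO b unit_e0])
      have h2 : vecO b ![Real.cos a, Real.sin a, 0] 1 0 =
          ((Real.cos a : ℝ) : ℂ) • b 0 + ((Real.sin a : ℝ) : ℂ) • b 1 := by
        simp [vecO]
      rw [h2] at h1
      exact h1
    · have hu : UnitO ![Real.cos a, 0, Real.sin a] 1 0 := by
        refine ⟨?_, by simp⟩
        simp
      have h1 := hO.sat _ hP.1 ![Real.cos a, 0, Real.sin a] 1 0 hu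
        (by rw [kap_vecO b hu, kap_vecO b unit_e0])
      have h2 : vecO b ![Real.cos a, 0, Real.sin a] 1 0 =
          ((Real.cos a : ℝ) : ℂ) • b 0 + ((Real.sin a : ℝ) : ℂ) • b 2 := by
        simp [vecO]
      rw [h2] at h1
      exact h1
  have h0 : pt (((Real.cos 0 : ℝ) : ℂ) • b 0 + ((Real.sin 0 : ℝ) : ℂ) • b k) = pt (vecO b e0 1 0) := by
    rw [vecO_e0]
    simp
  obtain ⟨y, -, hy, -⟩ := curve_deriv C (t0 := 0) (Filter.Eventually.of_forall hg)
    (by rw [h0]; exact hP.2) (circle_deriv (b := b) k)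
  rw [h0] at hy
  refine ⟨y, fun i hi => ?_⟩
  rw [← hy]
  show inner ℂ (b i) (((innerSL ℂ (b 0)).smulRight (b k) + (innerSL ℂ (b k)).smulRight (b 0) : Op 3) (b 0)) = _
  rw [add_apply, ContinuousLinearMap.smulRight_apply,
    ContinuousLinearMap.smulRight_apply, innerSL_apply_apply, innerSL_apply_apply]
  have hon := orthonormal_iff_ite.1 b.orthonormal
  rw [hon 0 0, hon k 0, inner_add_right, inner_smul_right, inner_smul_right, hon i k, hon i 0]
  have hk0 : k ≠ 0 := by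
    rcases hk with rfl | rfl <;> decide
  simp [hi, hk0]

private noncomputable def slAL (b : Bas) (ζ : ℂ) : Op 3 →L[ℝ] ℂ × ℝ :=
  LinearMap.toContinuousLinearMap
    { toFun := slA b ζ
      map_add' := by
        intro P Q
        have h : ∀ i j, ent b (P + Q) i j = ent b P i j + ent b Q i j := by
          intro i j
          exact map_add (entR b i j) P Q
        unfold slA
        rw [h, h, h, mul_add]
        refine Prod.ext (Complex.ext ?_ ?_) ?_ <;> simp
      map_smul' := by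
        intro c P
        have h : ∀ i j, ent b (c • P) i j = c • ent b P i j := by
          intro i j
          exact map_smul (entR b i j) c P
        unfold slA
        rw [h, h, h]
        refine Prod.ext (Complex.ext ?_ ?_) ?_
        · simp
        · simp
        · simp only [RingHom.id_apply, Prod.smul_mk, smul_eq_mul]
          rw [mul_smul_comm, Complex.smul_re, smul_eq_mul] }

/-- Proof: z = C.z x0 (z = c b0, |c| = 1), Y = D z v, Y_i = (b i, Y). Y_0 = 0 (leg). For Q in L near P (z_0 ≠ 0),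
z_1 conj z_0 and z_2 conj z_0 are real (form), so Y_1 conj c, Y_2 conj c are real. So the 3-dimensional
real space T of the vectors conj c * (Y_1, Y_2, Y_3) is in R x R x C; the curves
a -> pt (vecO (cos a, sin a, 0) 1 0), pt (vecO (cos a, 0, sin a) 1 0) lie in L (sat, kap = 0) and curve_deriv
gives (1, 0, 0), (0, 1, 0) in T; so T = R x R x R ζ for a unit ζ. The derivative of slA is
(Re (Y_1 conj c) + i Re (Y_2 conj c), Re (conj ζ Y_3 conj c)), injective on T. -/
theorem pol_a (hO : Orth b L) (C : LChart L) (hP : pt (vecO b e0 1 0) ∈ L ∩ C.U) :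
    ∃ ζ : ℂ, ‖ζ‖ = 1 ∧ Function.Bijective
      (fderiv ℝ (fun y => slA b ζ (C.p y)) (C.r (pt (vecO b e0 1 0)))) := by
  have hinj := ent_inj C hP
  obtain ⟨y1, hy1⟩ := tangent hO C hP 1 (Or.inl rfl)
  obtain ⟨y2, hy2⟩ := tangent hO C hP 2 (Or.inr rfl)
  have hbx : C.r (pt (vecO b e0 1 0)) ∈ Metric.ball C.x0 C.δ := C.r_mem _ hP
  have hre1 := ent_real hO C hbx 1 (Or.inl rfl)
  have hre2 := ent_real hO C hbx 2 (Or.inr rfl)
  have hpd : DifferentiableAt ℝ C.p (C.r (pt (vecO b e0 1 0))) :=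
    (C.smooth_p.contDiffAt (Metric.isOpen_ball.mem_nhds hbx)).differentiableAt one_ne_zero
  revert hinj hy1 hy2 hre1 hre2 hpd
  generalize C.r (pt (vecO b e0 1 0)) = x0
  intro hinj hy1 hy2 hre1 hre2 hpd
  obtain ⟨A, hA⟩ : ∃ A : R 3 →L[ℝ] Op 3, A = fderiv ℝ C.p x0 := ⟨_, rfl⟩
  rw [← hA] at hinj hy1 hy2 hre1 hre2
  -- the kernel of the first two entries
  obtain ⟨φ, hφ⟩ : ∃ φ : R 3 →ₗ[ℝ] (ℝ × ℝ), φ =
      ((Complex.reCLM.comp ((entR b 1 0).comp A)).prod
        (Complex.reCLM.comp ((entR b 2 0).comp A)) : R 3 →L[ℝ] (ℝ × ℝ)).toLinearMap := ⟨_, rfl⟩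
  have hφa : ∀ v, φ v = ((ent b (A v) 1 0).re, (ent b (A v) 2 0).re) := by
    intro v
    rw [hφ]
    rfl
  have hsurj : Function.Surjective φ := by
    rintro ⟨p, q⟩
    refine ⟨p • y1 + q • y2, ?_⟩
    rw [map_add, map_smul, map_smul, hφa, hφa, hy1 1 (by decide), hy1 2 (by decide), hy2 1 (by decide),
      hy2 2 (by decide)]
    simp
  have hker : Module.finrank ℝ (LinearMap.ker φ) = 1 := by
    have h1 := LinearMap.finrank_range_add_finrank_ker φ
    rw [LinearMap.range_eq_top.2 hsurj, finrank_top] at h1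
    simp at h1
    omega
  obtain ⟨⟨v3, hv3k⟩, hv3⟩ : ∃ v : LinearMap.ker φ, v ≠ 0 := by
    have : Nontrivial (LinearMap.ker φ) := by
      apply Module.nontrivial_of_finrank_pos (R := ℝ)
      rw [hker]
      exact one_pos
    exact exists_ne 0
  have hspan := (finrank_eq_one_iff_of_nonzero' _ hv3).1 hker
  have hv30 : v3 ≠ 0 := by
    intro h
    exact hv3 (Subtype.ext h)
  have hzero : ∀ v ∈ LinearMap.ker φ, ent b (A v) 1 0 = 0 ∧ ent b (A v) 2 0 = 0 := by
    intro v hv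
    have h1 := LinearMap.mem_ker.1 hv
    rw [hφa] at h1
    exact ⟨Complex.ext (congrArg Prod.fst h1) (hre1 v), Complex.ext (congrArg Prod.snd h1) (hre2 v)⟩
  have hw : ent b (A v3) 3 0 ≠ 0 := fun h =>
    hv30 (hinj v3 (hzero v3 hv3k).1 (hzero v3 hv3k).2 h)
  have hn : ‖ent b (A v3) 3 0‖ ≠ 0 := norm_ne_zero_iff.2 hw
  obtain ⟨w, hwdef⟩ : ∃ w, w = ent b (A v3) 3 0 := ⟨_, rfl⟩
  rw [← hwdef] at hw hn
  have hnC : ((‖w‖ : ℝ) : ℂ) ≠ 0 := by exact_mod_cast hn
  refine ⟨w / ‖w‖, ?_, ?_⟩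
  · rw [norm_div, Complex.norm_real, norm_norm, div_self hn]
  have hfd : fderiv ℝ (fun y => slA b (w / ‖w‖) (C.p y)) x0 = (slAL b (w / ‖w‖)).comp A := by
    rw [hA]
    exact ((slAL b (w / ‖w‖)).hasFDerivAt.comp x0 hpd.hasFDerivAt).fderiv
  rw [hfd]
  -- injectivity
  have hi : Function.Injective ((slAL b (w / ‖w‖)).comp A) := by
    rw [injective_iff_map_eq_zero]
    intro v hv
    have h1 : slA b (w / ‖w‖) (A v) = 0 := hv
    have h2 := congrArg Prod.fst h1
    have h3 : ((starRingEnd ℂ) (w / ‖w‖) * ent b (A v) 3 0).re = 0 := congrArg Prod.snd h1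
    have h4 : (ent b (A v) 1 0).re = 0 := congrArg Complex.re h2
    have h5 : (ent b (A v) 2 0).re = 0 := congrArg Complex.im h2
    have hvk : v ∈ LinearMap.ker φ := by
      rw [LinearMap.mem_ker, hφa, h4, h5]
      rfl
    obtain ⟨r, hr⟩ := hspan ⟨v, hvk⟩
    have hr' : r • v3 = v := congrArg Subtype.val hr
    have h8 : ent b (A v) 3 0 = (r : ℂ) * w := by
      rw [← hr', hwdef]
      have h9 : ∀ u, ent b (A u) 3 0 = ((entR b 3 0).comp A) u := fun u => rfl
      rw [h9, map_smul, ← h9, Complex.real_smul]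
    rw [h8] at h3
    have h10 : (starRingEnd ℂ) (w / ‖w‖) * ((r : ℂ) * w) = ((r * ‖w‖ : ℝ) : ℂ) := by
      rw [map_div₀, Complex.conj_ofReal]
      have h11 : (starRingEnd ℂ) w * w = ((‖w‖ : ℝ) : ℂ) * ((‖w‖ : ℝ) : ℂ) := by
        rw [mul_comm, Complex.mul_conj, Complex.normSq_eq_norm_sq]
        push_cast
        ring
      push_cast
      field_simp
      linear_combination (r : ℂ) * h11
    rw [h10, Complex.ofReal_re] at h3
    have hr0 : r = 0 := (mul_eq_zero.1 h3).resolve_right hn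
    rw [← hr', hr0, zero_smul]
  refine ⟨hi, ?_⟩
  have hfin : Module.finrank ℝ (R 3) = Module.finrank ℝ (ℂ × ℝ) := by
    rw [Module.finrank_prod, Complex.finrank_real_complex, finrank_euclideanSpace, Fintype.card_fin,
      Module.finrank_self]
  exact (LinearMap.injective_iff_surjective_of_finrank_eq_finrank hfin
    (f := (((slAL b (w / ‖w‖)).comp A : R 3 →L[ℝ] ℂ × ℝ) : R 3 →ₗ[ℝ] ℂ × ℝ))).1 hi

end Pool.Agent.H11.SO
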