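import Pool.Agent.H11.SO.EntO

/-! Reflections. -/

set_option autoImplicit false

open scoped ContDiff Topology

namespace Pool.Agent.H11.SO

open Pool.Agent.H66.SyL Pool.Agent.H11.ST

/-- the reflection 1 - c pt m -/
private noncomputable def refl (c : ℝ) (m : E 3) : Op 3 :=
  ContinuousLinearMap.id ℂ (E 3) - (c : ℂ) • pt m

private theorem refl_apply (c : ℝ) (m u : E 3) :
    refl c m u = u - ((c : ℂ) * inner ℂ m u) • m := by
  unfold refl
  rw [_root_.sub_apply, _root_.smul_apply, pt_apply, smul_smul]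
  rfl

private theorem inner_refl (c : ℝ) (m z u : E 3) :
    inner ℂ z (refl c m u) = inner ℂ (refl c m z) u := by
  rw [refl_apply, refl_apply, inner_sub_right, inner_sub_left, inner_smul_right, inner_smul_left,
    map_mul, Complex.conj_ofReal, inner_conj_symm]
  ring

private noncomputable def conjG (c : ℝ) (m : E 3) : Op 3 →L[ℝ] Op 3 :=
  (ContinuousLinearMap.mulLeftRight ℂ (Op 3) (refl c m) (refl c m)).restrictScalars ℝ

private theorem conjG_apply (c : ℝ) (m : E 3) (P : Op 3) (u : E 3) :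
    conjG c m P u = refl c m (P (refl c m u)) := rfl

private theorem conjG_pt (c : ℝ) (m z : E 3) :
    conjG c m (pt z) = pt (refl c m z) := by
  refine ContinuousLinearMap.ext fun u => ?_
  rw [conjG_apply, pt_apply, pt_apply, map_smul, inner_refl]

private theorem inner_vec (b : Bas) (m y : Fin 3 → ℝ) (s t : ℂ) :
    inner ℂ (vecO b m 1 0) (vecO b y s t) =
      s * ((m 0 * y 0 + m 1 * y 1 + m 2 * y 2 : ℝ) : ℂ) := by
  obtain ⟨h0, h1, h2, h3⟩ := inner_vecO b y s t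
  have e : ∀ w : E 3, inner ℂ (vecO b m 1 0) w = (m 0 : ℂ) * inner ℂ (b 0) w +
      (m 1 : ℂ) * inner ℂ (b 1) w + (m 2 : ℂ) * inner ℂ (b 2) w := by
    intro w
    unfold vecO
    simp only [inner_add_left, inner_smul_left, one_mul, zero_smul, add_zero, Complex.conj_ofReal]
  rw [e, h0, h1, h2]
  push_cast
  ring

private theorem refl_vec (b : Bas) (c : ℝ) (m y : Fin 3 → ℝ) (s t : ℂ) :
    refl c (vecO b m 1 0) (vecO b y s t) =
      vecO b (fun i => y i - c * (m 0 * y 0 + m 1 * y 1 + m 2 * y 2) * m i) s t := by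
  rw [refl_apply, inner_vec]
  unfold vecO
  simp only [one_mul, zero_smul, add_zero, smul_add, smul_smul]
  set q : ℝ := m 0 * y 0 + m 1 * y 1 + m 2 * y 2
  have e : ∀ i, (s * ((y i - c * q * m i : ℝ) : ℂ)) = s * y i - (c : ℂ) * (s * (q : ℂ)) * m i := by
    intro i
    push_cast
    ring
  rw [e 0, e 1, e 2, sub_smul, sub_smul, sub_smul]
  abel

/-- Proof: x = x1: identity. Otherwise v = (x - x1) / |x - x1|, U = 1 - 2 pt (vecO b v 1 0),
U (vecO y s t) = vecO (y - 2 (v . y) v) s t, g P = U P U, g (pt z) = pt (U z). -/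
theorem exists_reflection (b : Bas) {x x1 : Fin 3 → ℝ} (hx : x 0 ^ 2 + x 1 ^ 2 + x 2 ^ 2 = 1)
    (hx1 : x1 0 ^ 2 + x1 1 ^ 2 + x1 2 ^ 2 = 1) :
    ∃ g : Op 3 →L[ℝ] Op 3, (∀ y s t, UnitO y s t →
      ∃ y1, UnitO y1 s t ∧ g (pt (vecO b y s t)) = pt (vecO b y1 s t)) ∧
      ∀ s t, g (pt (vecO b x s t)) = pt (vecO b x1 s t) := by
  by_cases hxx : x = x1
  · subst hxx
    refine ⟨ContinuousLinearMap.id ℝ (Op 3), fun y s t h => ⟨y, h, rfl⟩, fun s t => rfl⟩
  set m : Fin 3 → ℝ := fun i => x i - x1 i with hm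
  set N : ℝ := m 0 ^ 2 + m 1 ^ 2 + m 2 ^ 2 with hN
  have hN0 : N ≠ 0 := by
    intro h0
    apply hxx
    have h00 : 0 ≤ m 0 ^ 2 := sq_nonneg _
    have h01 : 0 ≤ m 1 ^ 2 := sq_nonneg _
    have h02 : 0 ≤ m 2 ^ 2 := sq_nonneg _
    have a0 : m 0 = 0 := by
      have : m 0 ^ 2 = 0 := by linarith
      exact pow_eq_zero_iff (two_ne_zero) |>.1 this
    have a1 : m 1 = 0 := by
      have : m 1 ^ 2 = 0 := by linarith
      exact pow_eq_zero_iff (two_ne_zero) |>.1 this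
    have a2 : m 2 = 0 := by
      have : m 2 ^ 2 = 0 := by linarith
      exact pow_eq_zero_iff (two_ne_zero) |>.1 this
    funext i
    fin_cases i
    · exact sub_eq_zero.1 a0
    · exact sub_eq_zero.1 a1
    · exact sub_eq_zero.1 a2
  set c : ℝ := 2 / N with hc
  have hcN : c * N = 2 := by rw [hc]; field_simp
  refine ⟨conjG c (vecO b m 1 0), fun y s t h =>
    ⟨fun i => y i - c * (m 0 * y 0 + m 1 * y 1 + m 2 * y 2) * m i, ?_, ?_⟩, fun s t => ?_⟩
  · refine ⟨?_, h.2⟩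
    have h1 := h.1
    show (y 0 - c * (m 0 * y 0 + m 1 * y 1 + m 2 * y 2) * m 0) ^ 2 +
      (y 1 - c * (m 0 * y 0 + m 1 * y 1 + m 2 * y 2) * m 1) ^ 2 +
      (y 2 - c * (m 0 * y 0 + m 1 * y 1 + m 2 * y 2) * m 2) ^ 2 = 1
    set q : ℝ := m 0 * y 0 + m 1 * y 1 + m 2 * y 2 with hq
    have e : (y 0 - c * q * m 0) ^ 2 + (y 1 - c * q * m 1) ^ 2 + (y 2 - c * q * m 2) ^ 2 =
        (y 0 ^ 2 + y 1 ^ 2 + y 2 ^ 2) - 2 * c * q ^ 2 + c * q ^ 2 * (c * N) := by
      rw [hN, hq]; ring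
    rw [e, hcN, h1]
    ring
  · rw [conjG_pt, refl_vec]
  · rw [conjG_pt, refl_vec]
    congr 2
    funext i
    have e2 : 2 * (m 0 * x 0 + m 1 * x 1 + m 2 * x 2) = N := by
      rw [hN]
      simp only [hm]
      linear_combination hx - hx1
    have e3 : c * (m 0 * x 0 + m 1 * x 1 + m 2 * x 2) = 1 := by
      have : c * (2 * (m 0 * x 0 + m 1 * x 1 + m 2 * x 2)) = 2 := by rw [e2, hcN]
      linarith
    show x i - c * (m 0 * x 0 + m 1 * x 1 + m 2 * x 2) * m i = x1 i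
    rw [e3]
    simp only [hm]
    ring

end Pool.Agent.H11.SO
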