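import Pool.Agent.H11.SO.NormF
import Pool.Agent.H11.SO.RefO
import Pool.Agent.H11.SO.OpG

/-! kap is a reduced map. -/

set_option autoImplicit false

open scoped ContDiff Topology
open Topology

namespace Pool.Agent.H11.SO

open Pool.Agent.H66.SyL Pool.Agent.H11.ST

variable {b : Bas} {L : Set (Op 3)}

/-- a path on the unit sphere of R^3 -/
private theorem sphere_path {x y : Fin 3 → ℝ} (hx : x 0 ^ 2 + x 1 ^ 2 + x 2 ^ 2 = 1)
    (hy : y 0 ^ 2 + y 1 ^ 2 + y 2 ^ 2 = 1) :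
    ∃ γ : ℝ → Fin 3 → ℝ, Continuous γ ∧ γ 0 = x ∧ γ 1 = y ∧
      ∀ t, γ t 0 ^ 2 + γ t 1 ^ 2 + γ t 2 ^ 2 = 1 := by
  have hmem : ∀ z : Fin 3 → ℝ, (WithLp.toLp 2 z : EuclideanSpace ℝ (Fin 3)) ∈ Metric.sphere 0 1 ↔
      z 0 ^ 2 + z 1 ^ 2 + z 2 ^ 2 = 1 := by
    intro z
    rw [mem_sphere_zero_iff_norm, EuclideanSpace.norm_eq, Real.sqrt_eq_one, Fin.sum_univ_three]
    simp only [Real.norm_eq_abs, sq_abs]
  have hrank : 1 < Module.rank ℝ (EuclideanSpace ℝ (Fin 3)) := by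
    rw [← Module.finrank_eq_rank]
    rw [finrank_euclideanSpace, Fintype.card_fin]
    norm_num
  have hpc := isPathConnected_sphere hrank (0 : EuclideanSpace ℝ (Fin 3)) (zero_le_one)
  have hj := hpc.joinedIn _ ((hmem x).2 hx) _ ((hmem y).2 hy)
  obtain ⟨p, hp⟩ := hj
  refine ⟨fun t => WithLp.ofLp (p.extend t), ?_, ?_, ?_, ?_⟩
  · exact (PiLp.continuous_ofLp 2 _).comp p.continuous_extend
  · show WithLp.ofLp (p.extend 0) = x
    rw [p.extend_zero]
  · show WithLp.ofLp (p.extend 1) = y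
    rw [p.extend_one]
  · intro t
    rw [← hmem]
    show p.extend t ∈ Metric.sphere 0 1
    have : p.extend t ∈ Set.range p.extend := ⟨t, rfl⟩
    rw [p.extend_range] at this
    obtain ⟨u, hu⟩ := this
    rw [← hu]
    exact hp u

private theorem cont_path (b : Bas) {γ : ℝ → Fin 3 → ℝ} (hγ : Continuous γ) (s t : ℂ) :
    Continuous fun r => pt (vecO b (γ r) s t) := by
  have hst : Continuous fun _ : ℝ => (s, t) := continuous_const
  have hq : Continuous fun r : ℝ => ((γ r, s, t) : (Fin 3 → ℝ) × ℂ × ℂ) :=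
    Continuous.prodMk hγ hst
  have h := (continuous_ptO b).comp hq
  exact h

private theorem fib_path {x x2 : Fin 3 → ℝ} {s t : ℂ} (hu : UnitO x s t) (hu2 : UnitO x2 s t) :
    ∃ γ : ℝ → Op 3, Continuous γ ∧ γ 0 = pt (vecO b x s t) ∧ γ 1 = pt (vecO b x2 s t) ∧
      ∀ r, ∃ y, UnitO y s t ∧ γ r = pt (vecO b y s t) := by
  obtain ⟨γ, hγ, h0, h1, hs⟩ := sphere_path hu.1 hu2.1
  refine ⟨fun r => pt (vecO b (γ r) s t), cont_path b hγ s t, congrArg (fun y => pt (vecO b y s t)) h0,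
    congrArg (fun y => pt (vecO b y s t)) h1, fun r => ⟨γ r, ⟨hs r, hu.2⟩, rfl⟩⟩

/-- Proof: normal_form gives P = pt (vecO x s t), Q = pt (vecO x2 s t). path: a path from x to x2 on the unit
sphere of R^3 (path connected), Orth.sat. op: open_of_trans with exists_reflection. -/
theorem redMap_kap (hc : IsCompact L) (hO : Orth b L) : RedMap L (kap b) := by
  have hsat : ∀ y s t, UnitO y s t → pt (vecO b y s t) ∈ L → ∀ y1, UnitO y1 s t →
      pt (vecO b y1 s t) ∈ L ∧ kap b (pt (vecO b y1 s t)) = kap b (pt (vecO b y s t)) := by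
    intro y s t hy hL y1 hy1
    have hk : kap b (pt (vecO b y1 s t)) = kap b (pt (vecO b y s t)) := by
      rw [kap_vecO b hy1, kap_vecO b hy]
    exact ⟨hO.sat _ hL _ _ _ hy1 hk, hk⟩
  refine ⟨(continuous_kap b).continuousOn, ?_, ?_⟩
  · intro P hP Q hQ hPQ
    obtain ⟨x, s, t, hu, rfl⟩ := hO.form P hP
    obtain ⟨x1, s1, t1, hu1, rfl⟩ := hO.form Q hQ
    obtain ⟨x2, hu2, he⟩ := normal_form hu hu1 hPQ
    obtain ⟨γ, hγ, h0, h1, hs⟩ := fib_path (b := b) hu hu2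
    refine ⟨γ, hγ, h0, h1.trans he, ?_⟩
    intro r
    obtain ⟨y, hy, h⟩ := hs r
    rw [h]
    exact hsat x s t hu hP y hy
  · refine open_of_trans hc (continuous_kap b).continuousOn ?_
    intro P hP Q hQ hPQ
    obtain ⟨x, s, t, hu, rfl⟩ := hO.form P hP
    obtain ⟨x1, s1, t1, hu1, rfl⟩ := hO.form Q hQ
    obtain ⟨x2, hu2, he⟩ := normal_form hu hu1 hPQ
    obtain ⟨g, hg1, hg2⟩ := exists_reflection b hu2.1 hu.1
    refine ⟨g, g.continuous.continuousOn, ?_, ?_⟩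
    · intro R hR
      obtain ⟨y, s', t', hy, rfl⟩ := hO.form R hR
      obtain ⟨y1, hy1, h⟩ := hg1 y s' t' hy
      rw [h]
      exact hsat y s' t' hy hR y1 hy1
    · rw [← he]
      exact hg2 s t

end Pool.Agent.H11.SO
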