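import Pool.Agent.H11.SO.EntO

/-! Rotating into the axis. -/

set_option autoImplicit false

open scoped ContDiff Topology

namespace Pool.Agent.H11.SO

open Pool.Agent.H66.SyL Pool.Agent.H11.ST

variable {b : Bas} {L : Set (Op 3)}

private theorem rot_alg {x : Fin 3 → ℝ} {s t : ℂ} (h : UnitO x s t) (h0 : s * x 0 ≠ 0) :
    UnitO e0 (((√(1 - ‖t‖ ^ 2) / ‖s * x 0‖ : ℝ) : ℂ) * (s * x 0)) t ∧
      (((√(1 - ‖t‖ ^ 2) / ‖s * x 0‖ : ℝ) : ℂ) * (s * x 0)) ^ 2 = s ^ 2 := by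
  have hs0 : s ≠ 0 := fun h1 => h0 (by rw [h1, zero_mul])
  have hx0 : x 0 ≠ 0 := fun h1 => h0 (by rw [h1, Complex.ofReal_zero, mul_zero])
  have hsn : 0 < ‖s‖ := norm_pos_iff.2 hs0
  have hxa : 0 < |x 0| := abs_pos.2 hx0
  have e1 : √(1 - ‖t‖ ^ 2) = ‖s‖ := by
    have h2 : 1 - ‖t‖ ^ 2 = ‖s‖ ^ 2 := by linarith [h.2]
    rw [h2, Real.sqrt_sq hsn.le]
  have e2 : ‖s * x 0‖ = ‖s‖ * |x 0| := by rw [norm_mul, Complex.norm_real, Real.norm_eq_abs]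
  have e3 : √(1 - ‖t‖ ^ 2) / ‖s * x 0‖ = 1 / |x 0| := by
    rw [e1, e2]
    field_simp
  rw [e3]
  have e4 : ((1 / |x 0| : ℝ) : ℂ) * (s * x 0) = s * ((x 0 / |x 0| : ℝ) : ℂ) := by
    push_cast
    ring
  rw [e4]
  have e5 : (x 0 / |x 0|) ^ 2 = 1 := by
    rw [div_pow, sq_abs]
    exact div_self (pow_ne_zero 2 hx0)
  refine ⟨⟨by simp [e0], ?_⟩, ?_⟩
  · rw [norm_mul, Complex.norm_real, mul_pow, Real.norm_eq_abs, sq_abs, e5, mul_one]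
    exact h.2
  · rw [mul_pow]
    have e6 : (((x 0 / |x 0| : ℝ) : ℂ)) ^ 2 = 1 := by exact_mod_cast e5
    rw [e6, mul_one]

/-- Proof: z_R = vecO e0 s t, for Q near R = pt z_R the vector z = Q z_R / |Q z_R| is a continuous unit lift,
z = vecO x s' t' (form, lift_vecO, sign of x with x_0 > 0): s' x_0 -> s, s' x_i -> 0, so x -> e0,
s' -> s, t' -> t; kap of pt (vecO e0 s' t') is kap Q. -/
theorem rot_axis (hO : Orth b L) {s t : ℂ} (hu : UnitO e0 s t) (hs : s ≠ 0)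
    (hR : pt (vecO b e0 s t) ∈ L) {V : Set (Op 3)} (hV : V ∈ 𝓝 (pt (vecO b e0 s t))) :
    ∀ᶠ Q in 𝓝[L] (pt (vecO b e0 s t)), ∃ s' t' : ℂ, UnitO e0 s' t' ∧ pt (vecO b e0 s' t') ∈ V ∧
      kap b (pt (vecO b e0 s' t')) = kap b Q := by
  obtain ⟨zR, hzR⟩ : ∃ zR, zR = vecO b e0 s t := ⟨_, rfl⟩
  have hz1 : ‖zR‖ = 1 := by rw [hzR]; exact norm_vecO b hu
  rw [← hzR] at hR hV ⊢
  have hRz : pt zR zR = zR := pt_self hz1
  obtain ⟨Z, hZ⟩ : ∃ Z : Op 3 → E 3, Z = fun Q => ((‖Q zR‖⁻¹ : ℝ) : ℂ) • Q zR := ⟨_, rfl⟩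
  have hev : Continuous fun Q : Op 3 => Q zR := by fun_prop
  have hevn : ContinuousAt (fun Q : Op 3 => ((‖Q zR‖⁻¹ : ℝ) : ℂ)) (pt zR) := by
    refine Complex.continuous_ofReal.continuousAt.comp ?_
    refine ContinuousAt.inv₀ hev.norm.continuousAt ?_
    rw [hRz, hz1]
    exact one_ne_zero
  have hZc : ContinuousAt Z (pt zR) := by
    rw [hZ]
    exact hevn.smul hev.continuousAt
  have hZR : Z (pt zR) = zR := by
    rw [hZ]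
    show ((‖pt zR zR‖⁻¹ : ℝ) : ℂ) • pt zR zR = zR
    rw [hRz, hz1]
    simp
  obtain ⟨i0, i1, i2, i3⟩ := inner_vecO b e0 s t
  have hb0 : Continuous fun z : E 3 => (inner ℂ (b 0) z : ℂ) := continuous_const.inner continuous_id
  have hb3 : Continuous fun z : E 3 => (inner ℂ (b 3) z : ℂ) := continuous_const.inner continuous_id
  have h00 : (e0 0 : ℂ) = 1 := by simp [e0]
  have j0 : (inner ℂ (b 0) zR : ℂ) = s := by rw [hzR, i0, h00, mul_one]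
  have j3 : (inner ℂ (b 3) zR : ℂ) = t := by rw [hzR, i3]
  -- the new first coordinate
  obtain ⟨f, hf⟩ : ∃ f : E 3 → ℂ, f = fun z =>
    ((√(1 - ‖(inner ℂ (b 3) z : ℂ)‖ ^ 2) / ‖(inner ℂ (b 0) z : ℂ)‖ : ℝ) : ℂ) * inner ℂ (b 0) z := ⟨_, rfl⟩
  have hfc : ContinuousAt f zR := by
    rw [hf]
    refine ContinuousAt.mul ?_ hb0.continuousAt
    refine Complex.continuous_ofReal.continuousAt.comp ?_
    refine ContinuousAt.div ?_ hb0.norm.continuousAt ?_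
    · exact (continuous_const.sub (hb3.norm.pow 2)).sqrt.continuousAt
    · rw [j0]
      exact norm_ne_zero_iff.2 hs
  have hfR : f zR = s := by
    rw [hf]
    show ((√(1 - ‖(inner ℂ (b 3) zR : ℂ)‖ ^ 2) / ‖(inner ℂ (b 0) zR : ℂ)‖ : ℝ) : ℂ) * inner ℂ (b 0) zR = s
    rw [j0, j3]
    have h2 : 1 - ‖t‖ ^ 2 = ‖s‖ ^ 2 := by linarith [hu.2]
    rw [h2, Real.sqrt_sq (norm_nonneg s), div_self (norm_ne_zero_iff.2 hs), Complex.ofReal_one, one_mul]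
  have hZ' : Filter.Tendsto Z (𝓝 (pt zR)) (𝓝 zR) := by
    have h1 : Filter.Tendsto Z (𝓝 (pt zR)) (𝓝 (Z (pt zR))) := hZc
    rwa [hZR] at h1
  have hf' : Filter.Tendsto (fun Q => f (Z Q)) (𝓝 (pt zR)) (𝓝 s) := by
    have h1 : Filter.Tendsto f (𝓝 zR) (𝓝 (f zR)) := hfc
    rw [hfR] at h1
    exact h1.comp hZ'
  have h3' : Filter.Tendsto (fun Q => (inner ℂ (b 3) (Z Q) : ℂ)) (𝓝 (pt zR)) (𝓝 t) := by
    have h1 : Filter.Tendsto (fun z : E 3 => (inner ℂ (b 3) z : ℂ)) (𝓝 zR) (𝓝 (inner ℂ (b 3) zR)) := hb3.continuousAt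
    rw [j3] at h1
    exact h1.comp hZ'
  have h0' : Filter.Tendsto (fun Q => (inner ℂ (b 0) (Z Q) : ℂ)) (𝓝 (pt zR)) (𝓝 s) := by
    have h1 : Filter.Tendsto (fun z : E 3 => (inner ℂ (b 0) z : ℂ)) (𝓝 zR) (𝓝 (inner ℂ (b 0) zR)) := hb0.continuousAt
    rw [j0] at h1
    exact h1.comp hZ'
  have hpt : Filter.Tendsto (fun Q => pt (vecO b e0 (f (Z Q)) (inner ℂ (b 3) (Z Q)))) (𝓝 (pt zR)) (𝓝 (pt zR)) := by
    have h1 : Filter.Tendsto (fun q : (Fin 3 → ℝ) × ℂ × ℂ => pt (vecO b q.1 q.2.1 q.2.2)) (𝓝 (e0, s, t))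
        (𝓝 (pt (vecO b e0 s t))) := (continuous_ptO b).continuousAt
    rw [← hzR] at h1
    have h2 : Filter.Tendsto (fun Q : Op 3 => ((e0, f (Z Q), (inner ℂ (b 3) (Z Q) : ℂ)) : (Fin 3 → ℝ) × ℂ × ℂ))
        (𝓝 (pt zR)) (𝓝 (e0, s, t)) := tendsto_const_nhds.prodMk_nhds (hf'.prodMk_nhds h3')
    have h3 := h1.comp h2
    simpa only [Function.comp_def] using h3
  have hA : ∀ᶠ Q in 𝓝[L] (pt zR), pt (vecO b e0 (f (Z Q)) (inner ℂ (b 3) (Z Q))) ∈ V :=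
    (hpt.eventually hV).filter_mono nhdsWithin_le_nhds
  have hB : ∀ᶠ Q in 𝓝[L] (pt zR), (inner ℂ (b 0) (Z Q) : ℂ) ≠ 0 :=
    (h0'.eventually_ne hs).filter_mono nhdsWithin_le_nhds
  have hC : ∀ᶠ Q in 𝓝[L] (pt zR), Q zR ≠ 0 := by
    refine (Filter.Tendsto.eventually_ne (hev.tendsto (pt zR)) ?_).filter_mono nhdsWithin_le_nhds
    rw [hRz]
    intro h1
    rw [h1, norm_zero] at hz1
    exact zero_ne_one hz1
  filter_upwards [hA, hB, hC, self_mem_nhdsWithin] with Q hQA hQB hQC hQL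
  obtain ⟨x, s1, t1, hu1, hQ⟩ := hO.form Q hQL
  have hn1 := norm_vecO b hu1
  have hQz : Q zR = inner ℂ (vecO b x s1 t1) zR • vecO b x s1 t1 := by rw [← hQ, pt_apply]
  have hi0 : (inner ℂ (vecO b x s1 t1) zR : ℂ) ≠ 0 := by
    intro h1
    rw [h1, zero_smul] at hQz
    exact hQC hQz
  have hZQ : Z Q = (((‖(inner ℂ (vecO b x s1 t1) zR : ℂ)‖⁻¹ : ℝ) : ℂ) * inner ℂ (vecO b x s1 t1) zR) • vecO b x s1 t1 := by
    rw [hZ]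
    show ((‖Q zR‖⁻¹ : ℝ) : ℂ) • Q zR = _
    rw [hQz, norm_smul, hn1, mul_one, smul_smul]
  have hc : ‖((‖(inner ℂ (vecO b x s1 t1) zR : ℂ)‖⁻¹ : ℝ) : ℂ) * inner ℂ (vecO b x s1 t1) zR‖ = 1 := by
    rw [norm_mul, Complex.norm_real, Real.norm_eq_abs, abs_of_nonneg (inv_nonneg.2 (norm_nonneg _))]
    exact inv_mul_cancel₀ (norm_ne_zero_iff.2 hi0)
  have hZ1 : ‖Z Q‖ = 1 := by rw [hZQ, norm_smul, hc, hn1, one_mul]
  have hZ2 : pt (Z Q) = pt (vecO b x s1 t1) := by rw [hZQ, pt_smul hc]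
  obtain ⟨c, hc1, hc2⟩ := lift_vecO b hu1 hZ1 hZ2
  obtain ⟨s2, hs2⟩ : ∃ s2, s2 = c * s1 := ⟨_, rfl⟩
  obtain ⟨t2, ht2⟩ : ∃ t2, t2 = c * t1 := ⟨_, rfl⟩
  rw [← hs2, ← ht2] at hc2
  have hu2 : UnitO x s2 t2 := by
    refine ⟨hu1.1, ?_⟩
    rw [hs2, ht2, norm_mul, norm_mul, hc1, one_mul, one_mul]
    exact hu1.2
  obtain ⟨k0, k1, k2, k3⟩ := inner_vecO b x s2 t2
  rw [← hc2] at k0 k3
  rw [k0] at hQB
  obtain ⟨m1, m2⟩ := rot_alg hu2 hQB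
  have hfZ : f (Z Q) = ((√(1 - ‖t2‖ ^ 2) / ‖s2 * x 0‖ : ℝ) : ℂ) * (s2 * x 0) := by
    rw [hf]
    show ((√(1 - ‖(inner ℂ (b 3) (Z Q) : ℂ)‖ ^ 2) / ‖(inner ℂ (b 0) (Z Q) : ℂ)‖ : ℝ) : ℂ) * inner ℂ (b 0) (Z Q) = _
    rw [k0, k3]
  rw [k3, hfZ] at hQA
  refine ⟨_, _, m1, hQA, ?_⟩
  rw [kap_vecO b m1, m2, ← hQ, ← hZ2, hc2, kap_vecO b hu2]

end Pool.Agent.H11.SO
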