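import Pool.Agent.H11.ST.ArcA
import Pool.Agent.H11.ST.ImpP
import Pool.Agent.H11.SO.RedO
import Pool.Agent.H11.SO.PolA
import Pool.Agent.H11.SO.RotO

/-! The reduced curve is a half open arc near the pole t = 0. -/

set_option autoImplicit false

open scoped ContDiff Topology
open Topology

namespace Pool.Agent.H11.SO

open Pool.Agent.H66.SyL Pool.Agent.H11.ST

variable {b : Bas} {L : Set (Op 3)}

private theorem e0_vals : e0 0 = 1 ∧ e0 1 = 0 ∧ e0 2 = 0 := by
  refine ⟨rfl, rfl, rfl⟩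

/-- slA on the axis -/
private theorem slA_axis (b : Bas) (ζ s t : ℂ) :
    slA b ζ (pt (vecO b e0 s t)) =
      ((0 : ℂ), ((starRingEnd ℂ) ζ * (t * (starRingEnd ℂ) s)).re) := by
  obtain ⟨h0, h1, h2⟩ := e0_vals
  obtain ⟨i0, i1, i2, i3⟩ := inner_vecO b e0 s t
  unfold slA
  rw [ent_pt, ent_pt, ent_pt, i0, i1, i2, i3, h0, h1, h2]
  refine Prod.ext ?_ ?_
  · apply Complex.ext
    · simp
    · simp
  · simp

/-- a point of L with large entry (0,0) and first coordinate of slA zero is on the axis -/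
private theorem on_axis (hO : Orth b L) (ζ : ℂ) {Q : Op 3} (hQ : Q ∈ L)
    (hW : 1 / 2 < (ent b Q 0 0).re) (h1 : (slA b ζ Q).1 = 0) :
    ∃ s t : ℂ, UnitO e0 s t ∧ s ≠ 0 ∧ pt (vecO b e0 s t) = Q := by
  obtain ⟨x, s, t, hu, rfl⟩ := hO.form Q hQ
  obtain ⟨i0, i1, i2, i3⟩ := inner_vecO b x s t
  have hss : s * (starRingEnd ℂ) s = ((‖s‖ ^ 2 : ℝ) : ℂ) := by
    rw [Complex.mul_conj, Complex.normSq_eq_norm_sq]
  have hent : ∀ i : Fin 3, ∀ j : Fin 3, s * x i * (starRingEnd ℂ) (s * x j) =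
      ((‖s‖ ^ 2 * (x i * x j) : ℝ) : ℂ) := by
    intro i j
    rw [map_mul, Complex.conj_ofReal]
    calc s * x i * ((starRingEnd ℂ) s * x j) = (s * (starRingEnd ℂ) s) * (x i * x j) := by ring
      _ = _ := by rw [hss]; push_cast; ring
  have e00 : (ent b (pt (vecO b x s t)) 0 0).re = ‖s‖ ^ 2 * (x 0 * x 0) := by
    rw [ent_pt, i0, hent, Complex.ofReal_re]
  have e10 : (ent b (pt (vecO b x s t)) 1 0).re = ‖s‖ ^ 2 * (x 1 * x 0) := by
    rw [ent_pt, i0, i1, hent, Complex.ofReal_re]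
  have e20 : (ent b (pt (vecO b x s t)) 2 0).re = ‖s‖ ^ 2 * (x 2 * x 0) := by
    rw [ent_pt, i0, i2, hent, Complex.ofReal_re]
  rw [e00] at hW
  have hne : ‖s‖ ^ 2 * (x 0 * x 0) ≠ 0 := by linarith
  have hs2 : ‖s‖ ^ 2 ≠ 0 := left_ne_zero_of_mul hne
  have hx0 : x 0 ≠ 0 := left_ne_zero_of_mul (right_ne_zero_of_mul hne)
  have hs : s ≠ 0 := by
    intro h
    apply hs2
    rw [h]
    simp
  have hre : (slA b ζ (pt (vecO b x s t))).1.re = 0 := by rw [h1]; rfl
  have him : (slA b ζ (pt (vecO b x s t))).1.im = 0 := by rw [h1]; rfl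
  have hre' : ‖s‖ ^ 2 * (x 1 * x 0) = 0 := by rw [← e10]; exact hre
  have him' : ‖s‖ ^ 2 * (x 2 * x 0) = 0 := by rw [← e20]; exact him
  have hx1 : x 1 = 0 := by
    rcases mul_eq_zero.1 hre' with h | h
    · exact absurd h hs2
    · rcases mul_eq_zero.1 h with h | h
      · exact h
      · exact absurd h hx0
  have hx2 : x 2 = 0 := by
    rcases mul_eq_zero.1 him' with h | h
    · exact absurd h hs2
    · rcases mul_eq_zero.1 h with h | h
      · exact h
      · exact absurd h hx0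
  obtain ⟨hu1, hu2⟩ := hu
  have hx0' : x 0 ^ 2 = 1 := by
    rw [hx1, hx2] at hu1
    linarith
  have hue : ∀ s' : ℂ, ‖s'‖ = ‖s‖ → UnitO e0 s' t := by
    intro s' hs'
    obtain ⟨h0, h1, h2⟩ := e0_vals
    refine ⟨by rw [h0, h1, h2]; norm_num, by rw [hs']; exact hu2⟩
  rcases (sq_eq_sq_iff_eq_or_eq_neg.1 (by rw [hx0', one_pow]) : x 0 = 1 ∨ x 0 = -1) with h | h
  · refine ⟨s, t, hue s rfl, hs, ?_⟩
    have : x = e0 := by
      funext i
      fin_cases i
      · exact h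
      · exact hx1
      · exact hx2
    rw [this]
  · refine ⟨-s, t, hue (-s) (norm_neg s), neg_ne_zero.2 hs, ?_⟩
    have : x = -e0 := by
      funext i
      fin_cases i
      · exact h
      · show x 1 = -(0 : ℝ)
        rw [hx1, neg_zero]
      · show x 2 = -(0 : ℝ)
        rw [hx2, neg_zero]
    rw [this, pt_neg]

/-- the reflection in the first coordinate -/
private theorem flip_axis (b : Bas) : ∃ F : Op 3 → Op 3, Continuous F ∧
    ∀ s t : ℂ, F (pt (vecO b e0 s t)) = pt (vecO b e0 (-s) t) := by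
  refine ⟨fun P => act b ![Real.pi, 0, 0, 0] P, ?_, fun s t => ?_⟩
  · unfold act
    exact continuous_const.clm_comp (continuous_id.clm_comp continuous_const)
  · show act b ![Real.pi, 0, 0, 0] (pt (vecO b e0 s t)) = _
    rw [act_pt]
    refine pt_eq_of_coord b (c := 1) norm_one fun i => ?_
    obtain ⟨h0, h1, h2⟩ := e0_vals
    obtain ⟨i0, i1, i2, i3⟩ := inner_vecO b e0 s t
    obtain ⟨j0, j1, j2, j3⟩ := inner_vecO b e0 (-s) t
    rw [coord_rot, one_mul]
    fin_cases i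
    · show Complex.exp (((Real.pi : ℝ) : ℂ) * Complex.I) * inner ℂ (b 0) (vecO b e0 s t) =
        inner ℂ (b 0) (vecO b e0 (-s) t)
      rw [i0, j0, Complex.exp_pi_mul_I]
      ring
    · show Complex.exp (((0 : ℝ) : ℂ) * Complex.I) * inner ℂ (b 1) (vecO b e0 s t) =
        inner ℂ (b 1) (vecO b e0 (-s) t)
      rw [i1, j1, h1]
      simp
    · show Complex.exp (((0 : ℝ) : ℂ) * Complex.I) * inner ℂ (b 2) (vecO b e0 s t) =
        inner ℂ (b 2) (vecO b e0 (-s) t)
      rw [i2, j2, h2]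
      simp
    · show Complex.exp (((0 : ℝ) : ℂ) * Complex.I) * inner ℂ (b 3) (vecO b e0 s t) =
        inner ℂ (b 3) (vecO b e0 (-s) t)
      rw [i3, j3]
      simp

private theorem unit_flip {s t : ℂ} (h : UnitO e0 s t) : UnitO e0 (-s) t :=
  ⟨h.1, by rw [norm_neg]; exact h.2⟩

private theorem kap_flip (b : Bas) {s t : ℂ} (h : UnitO e0 s t) :
    kap b (pt (vecO b e0 (-s) t)) = kap b (pt (vecO b e0 s t)) := by
  rw [kap_vecO b h, kap_vecO b (unit_flip h), neg_sq]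

/-- Proof (as ST/LocP.lean): chart C, (δ, σ, O) from imp_p with pol_a for f = slA b ζ, f P = (0, 0),
O in W = {Re (ent Q 0 0) > 1/2}. c r = kap (σ (0, r)), 0 ≤ r < δ. f (σ (0, r)) = (0, r): x_1 x_0 |s|^2 = x_2 x_0 |s|^2 = 0,
so σ (0, r) = pt (vecO e0 s t) with Re (conj ζ t conj s) = r. Injective: kap gives (s conj t)^2, so r up to sign.
Open: Q in L near R = σ (0, a): rot_axis gives Q' on the axis near R with kap Q' = kap Q, f Q' = (0, r'),
r' near a; if r' < 0 (only for a = 0, R = P) take pt (vecO e0 (-s') t') instead (Q -> U Q U,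
U = 1 - 2 pt (b 0), is continuous and fixes P). So kap Q = c |r'|. redMap_kap.op, end_of. -/
theorem loc_a (hL : IsLagrangian L) (hc : IsCompact L) (hO : Orth b L)
    (hP : pt (vecO b e0 1 0) ∈ L) (w : kap b '' L)
    (hw : (w : ℂ × ℝ) = kap b (pt (vecO b e0 1 0))) : EndAt w := by
  obtain ⟨C, hPC⟩ := exists_lchart hL hP
  obtain ⟨ζ, hζ, hbij⟩ := pol_a hO C ⟨hP, hPC⟩
  have hfP : slA b ζ (pt (vecO b e0 1 0)) = ((0 : ℂ), (0 : ℝ)) := by
    rw [slA_axis]
    simp
  have hent00 : ent b (pt (vecO b e0 1 0)) 0 0 = 1 := by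
    obtain ⟨h0, h1, h2⟩ := e0_vals
    obtain ⟨i0, -, -, -⟩ := inner_vecO b e0 1 0
    rw [ent_pt, i0, h0]
    simp
  have hWo : {Q : Op 3 | 1 / 2 < (ent b Q 0 0).re} ∈ 𝓝 (pt (vecO b e0 1 0)) := by
    refine (isOpen_lt continuous_const
      (Complex.continuous_re.comp (continuous_ent b 0 0))).mem_nhds ?_
    show 1 / 2 < (ent b (pt (vecO b e0 1 0)) 0 0).re
    rw [hent00, Complex.one_re]
    norm_num
  obtain ⟨δ, σ, O, hδ, hOo, hPO, hOW, hσc, hσ1, hσ2⟩ :=
    imp_p C ⟨hP, hPC⟩ (slA b ζ) (contDiff_slA b ζ) hbij hWo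
  rw [hfP] at hσc hσ1 hσ2
  have hball : ∀ r : ℝ, |r| < δ → ((0 : ℂ), r) ∈ Metric.ball ((0 : ℂ), (0 : ℝ)) δ := by
    intro r hr
    rw [Metric.mem_ball, Prod.dist_eq]
    simpa [hδ] using hr
  have hball' : ∀ r : ℝ, ((0 : ℂ), r) ∈ Metric.ball ((0 : ℂ), (0 : ℝ)) δ → |r| < δ := by
    intro r hr
    rw [Metric.mem_ball, Prod.dist_eq] at hr
    have h1 := (max_lt_iff.1 hr).2
    simpa using h1
  have hσ0 : σ ((0 : ℂ), (0 : ℝ)) = pt (vecO b e0 1 0) := by
    have := (hσ2 _ ⟨hP, hPO⟩).2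
    rwa [hfP] at this
  -- points sigma (0, r)
  have haxis : ∀ r : ℝ, |r| < δ → ∃ s t : ℂ, UnitO e0 s t ∧ s ≠ 0 ∧
      pt (vecO b e0 s t) = σ ((0 : ℂ), r) ∧ ((starRingEnd ℂ) ζ * (t * (starRingEnd ℂ) s)).re = r := by
    intro r hr
    obtain ⟨⟨h1, h2⟩, h3⟩ := hσ1 _ (hball r hr)
    obtain ⟨s, t, hu, hs, hQ⟩ := on_axis hO ζ h1 (hOW h2) (by rw [h3])
    refine ⟨s, t, hu, hs, hQ, ?_⟩
    have h4 := slA_axis b ζ s t
    rw [hQ, h3] at h4
    exact (congrArg Prod.snd h4).symm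
  -- points of the axis near P
  have hback : ∀ s t : ℂ, UnitO e0 s t → pt (vecO b e0 s t) ∈ L ∩ O →
      |((starRingEnd ℂ) ζ * (t * (starRingEnd ℂ) s)).re| < δ ∧
      σ ((0 : ℂ), ((starRingEnd ℂ) ζ * (t * (starRingEnd ℂ) s)).re) = pt (vecO b e0 s t) := by
    intro s t hu hQ
    obtain ⟨h1, h2⟩ := hσ2 _ hQ
    rw [slA_axis] at h1 h2
    exact ⟨hball' _ h1, h2⟩
  have hIco : ∀ r ∈ Set.Ico (0 : ℝ) δ, |r| < δ := fun r hr => by
    rw [abs_of_nonneg hr.1]
    exact hr.2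
  have hmem0 : kap b (σ ((0 : ℂ), (0 : ℝ))) ∈ kap b '' L := by
    rw [hσ0]
    exact Set.mem_image_of_mem _ hP
  obtain ⟨F, hFc, hF⟩ := flip_axis b
  have key := end_of (kap b '' L) (c := fun r => kap b (σ ((0 : ℂ), r))) hδ
    ((continuous_kap b).comp_continuousOn (hσc.comp (by fun_prop) fun r hr => hball r (hIco r hr)))
    (by
      intro r hr r' hr' hrr
      obtain ⟨s, t, hu, hs, hQ, hre⟩ := haxis r (hIco r hr)
      obtain ⟨s', t', hu', hs', hQ', hre'⟩ := haxis r' (hIco r' hr')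
      have h1 : kap b (pt (vecO b e0 s t)) = kap b (pt (vecO b e0 s' t')) := by
        rw [hQ, hQ']
        exact hrr
      rw [kap_vecO b hu, kap_vecO b hu'] at h1
      have h2 : (s * (starRingEnd ℂ) t) ^ 2 = (s' * (starRingEnd ℂ) t') ^ 2 := by
        rw [mul_pow, mul_pow]
        exact congrArg Prod.fst h1
      have h3 : ∀ a c : ℂ, ((starRingEnd ℂ) ζ * (c * (starRingEnd ℂ) a)).re =
          (ζ * (a * (starRingEnd ℂ) c)).re := by
        intro a c
        rw [← Complex.conj_re]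
        congr 1
        rw [map_mul, map_mul, Complex.conj_conj, Complex.conj_conj]
        ring
      rw [h3] at hre hre'
      rcases sq_eq_sq_iff_eq_or_eq_neg.1 h2 with h4 | h4
      · rw [← hre, ← hre', h4]
      · have h5 : r = -r' := by
          rw [← hre, ← hre', h4, mul_neg, Complex.neg_re]
        have h6 := hr.1
        have h7 := hr'.1
        linarith)
    (by
      intro r hr
      exact Set.mem_image_of_mem _ (hσ1 _ (hball r (hIco r hr))).1.1)
    (by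
      intro a ha J hJ
      obtain ⟨s, t, hu, hs, hR, hre⟩ := haxis a (hIco a ha)
      obtain ⟨⟨hRL, hRO⟩, hfR⟩ := hσ1 _ (hball a (hIco a ha))
      have hcont2 : Continuous fun Q : Op 3 => (slA b ζ Q).2 :=
        continuous_snd.comp (contDiff_slA b ζ).continuous
      -- the neighbourhood
      have hN : O ∩ {Q : Op 3 | (slA b ζ Q).2 ∈ J} ∈ 𝓝 (σ ((0 : ℂ), a)) := by
        refine Filter.inter_mem (hOo.mem_nhds hRO) ?_
        have : J ∈ 𝓝 ((slA b ζ (σ ((0 : ℂ), a))).2) := by rw [hfR]; exact hJ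
        exact hcont2.continuousAt.preimage_mem_nhds this
      have hgood : ∃ V ∈ 𝓝 (σ ((0 : ℂ), a)), ∀ s' t' : ℂ, UnitO e0 s' t' →
          pt (vecO b e0 s' t') ∈ V → pt (vecO b e0 s' t') ∈ L →
          ∃ r ∈ J ∩ Set.Ico 0 δ, kap b (σ ((0 : ℂ), r)) = kap b (pt (vecO b e0 s' t')) := by
        have hpos : ∀ s' t' : ℂ, UnitO e0 s' t' →
            pt (vecO b e0 s' t') ∈ O ∩ {Q : Op 3 | (slA b ζ Q).2 ∈ J} →
            pt (vecO b e0 s' t') ∈ L →
            0 ≤ ((starRingEnd ℂ) ζ * (t' * (starRingEnd ℂ) s')).re →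
            ∃ r ∈ J ∩ Set.Ico 0 δ, kap b (σ ((0 : ℂ), r)) = kap b (pt (vecO b e0 s' t')) := by
          intro s' t' hu' hN' hL' h0
          obtain ⟨h1, h2⟩ := hback s' t' hu' ⟨hL', hN'.1⟩
          refine ⟨_, ⟨?_, h0, lt_of_le_of_lt (le_abs_self _) h1⟩, by rw [h2]⟩
          have h3 : (slA b ζ (pt (vecO b e0 s' t'))).2 ∈ J := hN'.2
          rw [slA_axis] at h3
          exact h3
        rcases eq_or_lt_of_le ha.1 with h0 | h0
        · -- a = 0
          subst h0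
          have hfix : F (σ ((0 : ℂ), (0 : ℝ))) = σ ((0 : ℂ), (0 : ℝ)) := by
            rw [hσ0, hF]
            have h1 : pt (vecO b e0 (-1) 0) = pt (vecO b e0 ((-1) * 1) ((-1) * 0)) := by
              norm_num
            rw [h1, pt_phase b (by norm_num)]
          refine ⟨_, Filter.inter_mem hN (hFc.continuousAt.preimage_mem_nhds
            (by rw [hfix]; exact hN)), ?_⟩
          intro s' t' hu' hV' hL'
          rcases le_total 0 ((starRingEnd ℂ) ζ * (t' * (starRingEnd ℂ) s')).re with h1 | h1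
          · exact hpos s' t' hu' hV'.1 hL' h1
          · have h2 : pt (vecO b e0 (-s') t') ∈ O ∩ {Q : Op 3 | (slA b ζ Q).2 ∈ J} := by
              rw [← hF]
              exact hV'.2
            have h3 : pt (vecO b e0 (-s') t') ∈ L :=
              hO.sat _ hL' e0 (-s') t' (unit_flip hu') (kap_flip b hu')
            have h4 : 0 ≤ ((starRingEnd ℂ) ζ * (t' * (starRingEnd ℂ) (-s'))).re := by
              rw [map_neg, mul_neg, mul_neg, Complex.neg_re]
              linarith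
            obtain ⟨r, hr, hr2⟩ := hpos (-s') t' (unit_flip hu') h2 h3 h4
            exact ⟨r, hr, by rw [hr2, kap_flip b hu']⟩
        · -- 0 < a
          have hN2 : {Q : Op 3 | 0 < (slA b ζ Q).2} ∈ 𝓝 (σ ((0 : ℂ), a)) := by
            refine (isOpen_lt continuous_const hcont2).mem_nhds ?_
            show 0 < (slA b ζ (σ ((0 : ℂ), a))).2
            rw [hfR]
            exact h0
          refine ⟨_, Filter.inter_mem hN hN2, ?_⟩
          intro s' t' hu' hV' hL'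
          refine hpos s' t' hu' hV'.1 hL' ?_
          have h1 : 0 < (slA b ζ (pt (vecO b e0 s' t'))).2 := hV'.2
          rw [slA_axis] at h1
          exact le_of_lt h1
      obtain ⟨V, hV, hVgood⟩ := hgood
      have hRL' : pt (vecO b e0 s t) ∈ L := by rw [hR]; exact hRL
      have h6 := rot_axis hO hu hs hRL' (V := V) (by rw [hR]; exact hV)
      rw [hR] at h6
      have h7 := (redMap_kap hc hO).op _ hRL _ h6
      filter_upwards [h7] with w hw
      obtain ⟨Q, ⟨hQL, s', t', hu', hQV, hQk⟩, hQw⟩ := hw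
      have h8 : pt (vecO b e0 s' t') ∈ L := hO.sat Q hQL e0 s' t' hu' hQk
      obtain ⟨r, hr, hr2⟩ := hVgood s' t' hu' hQV h8
      exact ⟨r, hr, by rw [hr2, hQk, hQw]⟩)
    hmem0
  have e : (⟨kap b (σ ((0 : ℂ), (0 : ℝ))), hmem0⟩ : kap b '' L) = w :=
    Subtype.ext (by rw [hw]; exact congrArg (kap b) hσ0)
  rw [← e]
  exact key

end Pool.Agent.H11.SO
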