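import Pool.Agent.H11.SO.EntO
import Pool.Agent.H11.SO.RefO
import Pool.Agent.H66.SyL.MomA
import Pool.Agent.H66.SyL.CDa

/-! Coordinates of L at the pole s = 0. -/

set_option autoImplicit false

open scoped ContDiff Topology

namespace Pool.Agent.H11.SO

open Pool.Agent.H66.SyL Pool.Agent.H11.ST

variable {b : Bas} {L : Set (Op 3)}

private noncomputable def entL (b : Bas) (i j : Fin (3 + 1)) : Op 3 →L[ℝ] ℂ :=
  ((innerSL ℂ (b i)).comp (ContinuousLinearMap.apply ℂ (E 3) (b j))).restrictScalars ℝ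

private theorem entL_apply (i j : Fin (3 + 1)) (P : Op 3) : entL b i j P = ent b P i j := rfl

private theorem hasDerivAt_coord {γ : ℝ → E 3} {Y : E 3} (h : HasDerivAt γ Y 0) (i : Fin (3 + 1)) :
    HasDerivAt (fun t => inner ℂ (b i) (γ t)) (inner ℂ (b i) Y) 0 := by
  have h1 := (((innerSL ℂ (b i)).restrictScalars ℝ).hasFDerivAt (x := γ 0)).comp_hasDerivAt 0 h
  exact h1

private theorem hasDerivAt_conj {f : ℝ → ℂ} {f' : ℂ} (h : HasDerivAt f f' 0) :
    HasDerivAt (fun t => (starRingEnd ℂ) (f t)) ((starRingEnd ℂ) f') 0 := by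
  have h1 := ((Complex.conjCLE : ℂ ≃L[ℝ] ℂ).toContinuousLinearMap.hasFDerivAt
    (x := f 0)).comp_hasDerivAt 0 h
  exact h1

private theorem inner_sum_coord (z y : E 3) :
    inner ℂ z y = ∑ i, (starRingEnd ℂ) (inner ℂ (b i) z) * inner ℂ (b i) y := by
  rw [← b.sum_inner_mul_inner z y]
  refine Finset.sum_congr rfl fun i _ => ?_
  rw [inner_conj_symm]

/-- slB as a linear map -/
private theorem slB_lin (ζ : ℂ) : ∃ M : Op 3 →L[ℝ] ℂ × ℝ, ∀ Q, M Q = slB b ζ Q := by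
  have h1 : ∀ P Q : Op 3, slB b ζ (P + Q) = slB b ζ P + slB b ζ Q := by
    intro P Q
    unfold slB
    simp only [← entL_apply, map_add, mul_add, Complex.add_re]
    rfl
  have h2 : ∀ (r : ℝ) (P : Op 3), slB b ζ (r • P) = r • slB b ζ P := by
    intro r P
    unfold slB
    simp only [← entL_apply, map_smul, mul_smul_comm, Complex.smul_re]
    apply Prod.ext
    · apply Complex.ext
      · simp
      · simp
    · simp
  exact ⟨⟨⟨⟨slB b ζ, h1⟩, h2⟩, (contDiff_slB b ζ).continuous⟩, fun Q => rfl⟩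

private theorem inner_vec' (x : Fin 3 → ℝ) (s t : ℂ) {i : Fin (3 + 1)} (hi : i ≠ 3) :
    ∃ r : ℝ, inner ℂ (b i) (vecO b x s t) = s * r := by
  obtain ⟨h0, h1, h2, -⟩ := inner_vecO b x s t
  fin_cases i
  · exact ⟨_, h0⟩
  · exact ⟨_, h1⟩
  · exact ⟨_, h2⟩
  · exact absurd rfl hi

private theorem ent_real (hO : Orth b L) {z : E 3} (hz : pt z ∈ L) {i j : Fin (3 + 1)}
    (hi : i ≠ 3) (hj : j ≠ 3) :
    (inner ℂ (b i) z * (starRingEnd ℂ) (inner ℂ (b j) z)).im = 0 := by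
  rw [← ent_pt]
  obtain ⟨x, s, t, -, h⟩ := hO.form _ hz
  rw [← h, ent_pt]
  obtain ⟨r, hr⟩ := inner_vec' (b := b) x s t hi
  obtain ⟨r', hr'⟩ := inner_vec' (b := b) x s t hj
  rw [hr, hr', map_mul, Complex.conj_ofReal]
  have e : s * (r : ℂ) * ((starRingEnd ℂ) s * (r' : ℂ)) = ((Complex.normSq s * r * r' : ℝ) : ℂ) := by
    push_cast
    rw [← Complex.mul_conj]
    ring
  rw [e, Complex.ofReal_im]

/-- the second order argument -/
private theorem im_zero {f g : ℝ → ℂ} {f' g' : ℂ} (hf : HasDerivAt f f' 0) (hg : HasDerivAt g g' 0)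
    (f0 : f 0 = 0) (g0 : g 0 = 0) (h : ∀ᶠ t in 𝓝 (0 : ℝ), (f t * (starRingEnd ℂ) (g t)).im = 0) :
    (f' * (starRingEnd ℂ) g').im = 0 := by
  have h1 := hf.tendsto_slope_zero
  have h2 := hg.tendsto_slope_zero
  simp only [f0, g0, sub_zero, zero_add] at h1 h2
  have h3 : Filter.Tendsto (fun t : ℝ => ((t⁻¹ • f t) * (starRingEnd ℂ) (t⁻¹ • g t)).im)
      (𝓝[≠] 0) (𝓝 ((f' * (starRingEnd ℂ) g').im)) :=
    (Complex.continuous_im.tendsto _).comp (h1.mul ((Complex.continuous_conj.tendsto _).comp h2))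
  have h4 : (fun t : ℝ => ((t⁻¹ • f t) * (starRingEnd ℂ) (t⁻¹ • g t)).im) =ᶠ[𝓝[≠] 0]
      fun _ => (0 : ℝ) := by
    filter_upwards [h.filter_mono nhdsWithin_le_nhds] with t ht
    have e : (t⁻¹ • f t) * (starRingEnd ℂ) (t⁻¹ • g t) =
        ((t⁻¹ * t⁻¹ : ℝ) : ℂ) * (f t * (starRingEnd ℂ) (g t)) := by
      rw [Complex.real_smul, Complex.real_smul, map_mul, Complex.conj_ofReal]
      push_cast
      ring
    rw [e, Complex.im_ofReal_mul, ht, mul_zero]
  exact tendsto_nhds_unique h3 (tendsto_const_nhds.congr' h4.symm)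

/-- the tangent vector with coordinates ζ x -/
private noncomputable def dir (b : Bas) (ζ : ℂ) (x : Fin 3 → ℝ) : Op 3 :=
  (1 / 2 : ℝ) • (pt (vecO b x ζ 1) - pt (vecO b x (-ζ) 1))

private theorem ent_dir (ζ : ℂ) (x : Fin 3 → ℝ) (i j : Fin (3 + 1)) :
    ent b (dir b ζ x) i j = (1 / 2 : ℝ) * (inner ℂ (b i) (vecO b x ζ 1) *
      (starRingEnd ℂ) (inner ℂ (b j) (vecO b x ζ 1)) - inner ℂ (b i) (vecO b x (-ζ) 1) *
      (starRingEnd ℂ) (inner ℂ (b j) (vecO b x (-ζ) 1))) := by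
  rw [← ent_pt, ← ent_pt, ← entL_apply, ← entL_apply, ← entL_apply]
  unfold dir
  rw [map_smul, map_sub, Complex.real_smul]

/-- Proof: z = C.z x0 = c b3. T = the real space of the vectors y = conj c * (Y_0, Y_1, Y_2), Y = D z v
(Y_3 = 0 by leg), dimension 3. Every point of L near P is pt (vecO x s t), so z_i conj z_j is real for i, j < 3
(z_i conj z_j = |s|^2 x_i x_j), hence y_i conj y_j is real (second order in a curve p (x0 + a v)), y = ζ v,
v real. Reflections (exists_reflection, they preserve L and P; the image of a curve in L is a curve in L,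
curve_deriv) map T to T; one nonzero y = ζ v in T, |ζ| = 1, so all ζ w, w real, are in T, T = ζ R^3. The
derivative of slB at v is Re (conj ζ y), injective. -/
theorem pol_b (hO : Orth b L) (C : LChart L) (hP : pt (vecO b e0 0 1) ∈ L ∩ C.U) :
    ∃ ζ : ℂ, ‖ζ‖ = 1 ∧ Function.Bijective
      (fderiv ℝ (fun y => slB b ζ (C.p y)) (C.r (pt (vecO b e0 0 1)))) := by
  set P := pt (vecO b e0 0 1) with hPdef
  set x0 := C.r P with hx0
  have hb : x0 ∈ Metric.ball C.x0 C.δ := C.r_mem P hP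
  have hball : Metric.ball C.x0 C.δ ∈ 𝓝 x0 := Metric.isOpen_ball.mem_nhds hb
  have hpP : C.p x0 = P := C.p_r P hP
  have hU0 : UnitO e0 0 1 := by
    refine ⟨by simp [e0], by simp⟩
  have hzd : HasFDerivAt C.z (fderiv ℝ C.z x0) x0 :=
    ((C.smooth_z.contDiffAt hball).differentiableAt one_ne_zero).hasFDerivAt
  have hpd : HasFDerivAt C.p (fderiv ℝ C.p x0) x0 :=
    ((C.smooth_p.contDiffAt hball).differentiableAt one_ne_zero).hasFDerivAt
  obtain ⟨c, hc1, hz0⟩ := lift_vecO b hU0 (C.norm_z x0 hb) (by rw [C.pt_z x0 hb, hpP])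
  have hzi := inner_vecO b e0 (c * 0) (c * 1)
  rw [← hz0] at hzi
  have z3 : inner ℂ (b 3) (C.z x0) = c := by rw [hzi.2.2.2, mul_one]
  have zi : ∀ i : Fin (3 + 1), i ≠ 3 → inner ℂ (b i) (C.z x0) = 0 := by
    intro i hi
    obtain ⟨r, hr⟩ := inner_vec' (b := b) e0 (c * 0) (c * 1) hi
    rw [hz0, hr, mul_zero, zero_mul]
  -- the direction
  set v0 : R 3 := EuclideanSpace.single 0 1 with hv0
  have hv0n : v0 ≠ 0 := by
    intro h
    have := congrArg (fun u : R 3 => u 0) h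
    simp [hv0] at this
  set γ : ℝ → R 3 := fun t => x0 + t • v0 with hγ
  have hγ0 : γ 0 = x0 := by simp [hγ]
  have hγd : HasDerivAt γ v0 0 := by
    have h1 := ((hasDerivAt_id (0 : ℝ)).smul_const v0).const_add x0
    simpa [hγ] using h1
  have hγt : ∀ᶠ t in 𝓝 (0 : ℝ), γ t ∈ Metric.ball C.x0 C.δ := by
    refine hγd.continuousAt.eventually ?_
    rw [hγ0]
    exact hball
  set Y : E 3 := fderiv ℝ C.z x0 v0 with hY
  set X : Op 3 := fderiv ℝ C.p x0 v0 with hX
  have hzc : HasDerivAt (fun t => C.z (γ t)) Y 0 := by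
    have h1 : HasFDerivAt C.z (fderiv ℝ C.z x0) (γ 0) := by rw [hγ0]; exact hzd
    exact h1.comp_hasDerivAt 0 hγd
  have hpc : HasDerivAt (fun t => C.p (γ t)) X 0 := by
    have h1 : HasFDerivAt C.p (fderiv ℝ C.p x0) (γ 0) := by rw [hγ0]; exact hpd
    exact h1.comp_hasDerivAt 0 hγd
  have hpt : ∀ᶠ t in 𝓝 (0 : ℝ), pt (C.z (γ t)) = C.p (γ t) ∧ C.p (γ t) ∈ L := by
    filter_upwards [hγt] with t ht
    exact ⟨C.pt_z _ ht, (C.p_mem _ ht).1⟩
  have hcc : c * (starRingEnd ℂ) c = 1 := by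
    rw [Complex.mul_conj, Complex.normSq_eq_norm_sq, hc1]
    simp
  have hcc' : (starRingEnd ℂ) c * c = 1 := by rw [mul_comm, hcc]
  have hc := fun i => hasDerivAt_coord (b := b) hzc i
  have Y3 : inner ℂ (b 3) Y = 0 := by
    have h1 := C.leg x0 hb v0
    rw [inner_sum_coord (b := b), Fin.sum_univ_four, zi 0 (by decide), zi 1 (by decide),
      zi 2 (by decide), z3, ← hY] at h1
    simp only [map_zero, zero_mul, zero_add] at h1
    rcases mul_eq_zero.1 h1 with h | h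
    · rw [h, zero_mul] at hcc'
      exact absurd hcc' zero_ne_one
    · exact h
  have Yim : ∀ i j : Fin (3 + 1), i ≠ 3 → j ≠ 3 →
      (inner ℂ (b i) Y * (starRingEnd ℂ) (inner ℂ (b j) Y)).im = 0 := by
    intro i j hi hj
    refine im_zero (hc i) (hc j) ?_ ?_ ?_
    · show inner ℂ (b i) (C.z (γ 0)) = 0
      rw [hγ0, zi i hi]
    · show inner ℂ (b j) (C.z (γ 0)) = 0
      rw [hγ0, zi j hj]
    · filter_upwards [hpt] with t ht
      exact ent_real hO (by rw [ht.1]; exact ht.2) hi hj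
  have hYn : Y ≠ 0 := by
    intro h
    exact hv0n (C.imm x0 hb (by rw [← hY, h, map_zero]))
  obtain ⟨k, hk3, hk⟩ : ∃ k : Fin (3 + 1), k ≠ 3 ∧ inner ℂ (b k) Y ≠ 0 := by
    by_contra hne
    push Not at hne
    apply hYn
    have h5 := inner_sum_coord (b := b) Y Y
    rw [Fin.sum_univ_four, hne 0 (by decide), hne 1 (by decide), hne 2 (by decide), Y3] at h5
    have h6 : inner ℂ Y Y = (0 : ℂ) := by
      rw [h5]
      simp
    exact inner_self_eq_zero.1 h6
  -- the phase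
  set yk : ℂ := inner ℂ (b k) Y * (starRingEnd ℂ) c with hyk
  have hykn : yk ≠ 0 := by
    refine mul_ne_zero hk ?_
    intro h
    rw [h, mul_zero] at hcc
    exact zero_ne_one hcc
  have hnk : ‖yk‖ ≠ 0 := norm_ne_zero_iff.2 hykn
  set ζ : ℂ := yk / (‖yk‖ : ℂ) with hζ
  have hζ1 : ‖ζ‖ = 1 := by
    rw [hζ, norm_div, Complex.norm_real, norm_norm, div_self hnk]
  have hζζ : ζ * (starRingEnd ℂ) ζ = 1 := by
    rw [Complex.mul_conj, Complex.normSq_eq_norm_sq, hζ1]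
    simp
  set w : Fin (3 + 1) → ℝ := fun i => ((starRingEnd ℂ) ζ * (inner ℂ (b i) Y * (starRingEnd ℂ) c)).re
    with hw
  have hyw : ∀ i : Fin (3 + 1), i ≠ 3 → inner ℂ (b i) Y * (starRingEnd ℂ) c = ζ * w i := by
    intro i hi
    have h1 : ((starRingEnd ℂ) ζ * (inner ℂ (b i) Y * (starRingEnd ℂ) c)).im = 0 := by
      have h2 := Yim i k hi hk3
      have e : (starRingEnd ℂ) ζ * (inner ℂ (b i) Y * (starRingEnd ℂ) c) =
          ((‖yk‖⁻¹ : ℝ) : ℂ) * (inner ℂ (b i) Y * (starRingEnd ℂ) (inner ℂ (b k) Y)) := by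
        rw [hζ, hyk, map_div₀, map_mul, Complex.conj_conj, Complex.conj_ofReal, Complex.ofReal_inv]
        rw [div_eq_mul_inv]
        linear_combination ((‖inner ℂ (b k) Y * (starRingEnd ℂ) c‖ : ℂ)⁻¹ * inner ℂ (b i) Y *
          (starRingEnd ℂ) (inner ℂ (b k) Y)) * hcc
      rw [e, Complex.im_ofReal_mul, h2, mul_zero]
    have h3 : (starRingEnd ℂ) ζ * (inner ℂ (b i) Y * (starRingEnd ℂ) c) = (w i : ℂ) := by
      apply Complex.ext
      · rw [Complex.ofReal_re]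
      · rw [Complex.ofReal_im, h1]
    rw [← h3, ← mul_assoc, hζζ, one_mul]
  set N2 : ℝ := w 0 ^ 2 + w 1 ^ 2 + w 2 ^ 2 with hN2
  have hwk : w k ≠ 0 := by
    intro h
    have h1 := hyw k hk3
    rw [h] at h1
    simp only [Complex.ofReal_zero, mul_zero] at h1
    exact hykn h1
  have hN2p : 0 < N2 := by
    have h1 : 0 < w k ^ 2 := by positivity
    have h2 : w k ^ 2 ≤ N2 := by
      have a0 := sq_nonneg (w 0)
      have a1 := sq_nonneg (w 1)
      have a2 := sq_nonneg (w 2)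
      rw [hN2]
      clear_value w N2
      fin_cases k
      · show w 0 ^ 2 ≤ _
        linarith
      · show w 1 ^ 2 ≤ _
        linarith
      · show w 2 ^ 2 ≤ _
        linarith
      · exact absurd rfl hk3
    linarith
  set ρ : ℝ := √N2 with hρ
  have hρp : 0 < ρ := Real.sqrt_pos.2 hN2p
  have hρ2 : ρ ^ 2 = N2 := Real.sq_sqrt hN2p.le
  set x : Fin 3 → ℝ := ![w 0 / ρ, w 1 / ρ, w 2 / ρ] with hx
  have hx1 : x 0 ^ 2 + x 1 ^ 2 + x 2 ^ 2 = 1 := by
    show (w 0 / ρ) ^ 2 + (w 1 / ρ) ^ 2 + (w 2 / ρ) ^ 2 = 1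
    rw [div_pow, div_pow, div_pow, ← add_div, ← add_div, hρ2, ← hN2, div_self hN2p.ne']
  -- the entries of the derivative of p
  have hentX : ∀ i j : Fin (3 + 1), ent b X i j = inner ℂ (b i) Y *
      (starRingEnd ℂ) (inner ℂ (b j) (C.z x0)) + inner ℂ (b i) (C.z x0) *
      (starRingEnd ℂ) (inner ℂ (b j) Y) := by
    intro i j
    have h1 : HasDerivAt (fun t => ent b (C.p (γ t)) i j) (ent b X i j) 0 := by
      have h2 := ((entL b i j).hasFDerivAt (x := C.p (γ 0))).comp_hasDerivAt 0 hpc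
      exact h2
    have h2 := (hc i).mul (hasDerivAt_conj (hc j))
    have h3 := h1.congr_of_eventuallyEq (f₁ := fun t => inner ℂ (b i) (C.z (γ t)) *
      (starRingEnd ℂ) (inner ℂ (b j) (C.z (γ t)))) (by
        filter_upwards [hpt] with t ht
        rw [← ht.1, ent_pt])
    have h4 := h3.unique h2
    rw [hγ0] at h4
    exact h4
  have hco : ∀ i : Fin (3 + 1), i ≠ 3 → ∃ a : ℝ, ρ * a = w i ∧
      ∀ s : ℂ, inner ℂ (b i) (vecO b x s 1) = s * a := by
    intro i hi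
    fin_cases i
    · exact ⟨w 0 / ρ, mul_div_cancel₀ _ hρp.ne', fun s => (inner_vecO b x s 1).1⟩
    · exact ⟨w 1 / ρ, mul_div_cancel₀ _ hρp.ne', fun s => (inner_vecO b x s 1).2.1⟩
    · exact ⟨w 2 / ρ, mul_div_cancel₀ _ hρp.ne', fun s => (inner_vecO b x s 1).2.2.1⟩
    · exact absurd rfl hi
  have hco3 : ∀ s : ℂ, inner ℂ (b 3) (vecO b x s 1) = 1 := fun s => (inner_vecO b x s 1).2.2.2
  have hXd : X = ρ • dir b ζ x := by
    refine eq_of_ent b fun i j => ?_
    rw [← entL_apply i j (ρ • dir b ζ x), map_smul, entL_apply, ent_dir, Complex.real_smul, hentX]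
    by_cases hi : i = 3
    · subst hi
      by_cases hj : j = 3
      · subst hj
        rw [hco3, hco3, Y3, z3]
        simp
      · obtain ⟨a, ha, hs⟩ := hco j hj
        rw [hco3, hco3, hs, hs, Y3, z3, zero_mul, zero_add]
        have h1 := congrArg (starRingEnd ℂ) (hyw j hj)
        rw [← ha] at h1
        simp only [map_mul, map_neg, Complex.conj_conj, Complex.conj_ofReal, Complex.ofReal_mul] at h1 ⊢
        push_cast
        linear_combination h1
    · obtain ⟨a, ha, hs⟩ := hco i hi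
      by_cases hj : j = 3
      · subst hj
        rw [hco3, hco3, hs, hs, zi i hi, z3, zero_mul, add_zero, hyw i hi, ← ha, map_one]
        push_cast
        ring
      · obtain ⟨a', ha', hs'⟩ := hco j hj
        rw [hs, hs, hs', hs', zi i hi, zi j hj]
        simp only [map_mul, map_neg, map_zero]
        ring
  have hrefl : ∀ x1 : Fin 3 → ℝ, x1 0 ^ 2 + x1 1 ^ 2 + x1 2 ^ 2 = 1 →
      ∃ y' : R 3, fderiv ℝ C.p x0 y' = ρ • dir b ζ x1 := by
    intro x1 hx1'
    obtain ⟨g, hg1, hg2⟩ := exists_reflection b hx1 hx1'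
    have hgL : ∀ Q ∈ L, g Q ∈ L := by
      intro Q hQ
      obtain ⟨y, s, t, hU, hQe⟩ := hO.form Q hQ
      obtain ⟨y1, hU1, hge⟩ := hg1 y s t hU
      have h1 : g Q = pt (vecO b y1 s t) := by rw [← hQe, hge]
      rw [h1]
      refine hO.sat Q hQ y1 s t hU1 ?_
      rw [kap_vecO b hU1, ← hQe, kap_vecO b hU]
    have hgP : g P = P := by
      obtain ⟨y1, -, hge⟩ := hg1 e0 0 1 hU0
      rw [hPdef, hge]
      unfold vecO
      simp
    have hgd : g (dir b ζ x) = dir b ζ x1 := by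
      unfold dir
      rw [map_smul, map_sub, hg2, hg2]
    have hG : HasDerivAt (fun t => g (C.p (γ t))) (g X) 0 :=
      (g.hasFDerivAt (x := C.p (γ 0))).comp_hasDerivAt 0 hpc
    have hG0 : g (C.p (γ 0)) = P := by rw [hγ0, hpP, hgP]
    obtain ⟨y', -, hX', -⟩ := curve_deriv C (g := fun t => g (C.p (γ t))) (t0 := 0) (X := g X)
      (by
        filter_upwards [hpt] with t ht
        exact hgL _ ht.2)
      (by
        show g (C.p (γ 0)) ∈ C.U
        rw [hG0]
        exact hP.2) hG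
    refine ⟨y', ?_⟩
    simp only [hG0] at hX'
    rw [← hx0] at hX'
    rw [← hX', hXd, map_smul, hgd]
  obtain ⟨M, hM⟩ := slB_lin (b := b) ζ
  have hder : fderiv ℝ (fun y => slB b ζ (C.p y)) x0 = M.comp (fderiv ℝ C.p x0) := by
    have h1 : (fun y => slB b ζ (C.p y)) = fun y => M (C.p y) := funext fun y => (hM _).symm
    rw [h1]
    exact ((M.hasFDerivAt (x := C.p x0)).comp x0 hpd).fderiv
  refine ⟨ζ, hζ1, ?_⟩
  rw [hder]
  have key : ∀ a : ℝ, ((starRingEnd ℂ) ζ * (((1 / 2 : ℝ) : ℂ) * (ζ * a * (starRingEnd ℂ) 1 -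
      -ζ * a * (starRingEnd ℂ) 1))).re = a := by
    intro a
    have e : (starRingEnd ℂ) ζ * (((1 / 2 : ℝ) : ℂ) * (ζ * a * (starRingEnd ℂ) 1 -
      -ζ * a * (starRingEnd ℂ) 1)) = (a : ℂ) := by
      rw [map_one]
      push_cast
      linear_combination (a : ℂ) * hζζ
    rw [e, Complex.ofReal_re]
  have hMd : ∀ x1 : Fin 3 → ℝ, M (dir b ζ x1) = ((⟨x1 0, x1 1⟩ : ℂ), x1 2) := by
    intro x1
    rw [hM]
    unfold slB
    rw [ent_dir, ent_dir, ent_dir]
    obtain ⟨p0, p1, p2, p3⟩ := inner_vecO b x1 ζ 1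
    obtain ⟨q0, q1, q2, q3⟩ := inner_vecO b x1 (-ζ) 1
    rw [p0, p1, p2, p3, q0, q1, q2, q3, key, key, key]
  have hsurj : Function.Surjective (M.comp (fderiv ℝ C.p x0) : R 3 →ₗ[ℝ] ℂ × ℝ) := by
    intro q
    have b0 := sq_nonneg q.1.re
    have b1 := sq_nonneg q.1.im
    have b2 := sq_nonneg q.2
    by_cases h0 : q.1.re ^ 2 + q.1.im ^ 2 + q.2 ^ 2 = 0
    · refine ⟨0, ?_⟩
      rw [map_zero]
      have c0 : q.1.re = 0 := pow_eq_zero_iff two_ne_zero |>.1 (by linarith)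
      have c1 : q.1.im = 0 := pow_eq_zero_iff two_ne_zero |>.1 (by linarith)
      have c2 : q.2 = 0 := pow_eq_zero_iff two_ne_zero |>.1 (by linarith)
      refine Prod.ext (Complex.ext ?_ ?_) ?_
      · exact c0.symm
      · exact c1.symm
      · exact c2.symm
    · have hn : 0 < q.1.re ^ 2 + q.1.im ^ 2 + q.2 ^ 2 :=
        lt_of_le_of_ne (by positivity) (Ne.symm h0)
      set r : ℝ := √(q.1.re ^ 2 + q.1.im ^ 2 + q.2 ^ 2) with hr
      have hrp : 0 < r := Real.sqrt_pos.2 hn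
      have hr2 : r ^ 2 = q.1.re ^ 2 + q.1.im ^ 2 + q.2 ^ 2 := Real.sq_sqrt hn.le
      obtain ⟨y', hy'⟩ := hrefl ![q.1.re / r, q.1.im / r, q.2 / r] (by
        show (q.1.re / r) ^ 2 + (q.1.im / r) ^ 2 + (q.2 / r) ^ 2 = 1
        rw [div_pow, div_pow, div_pow, ← add_div, ← add_div, ← hr2, div_self (by positivity)])
      refine ⟨(r / ρ) • y', ?_⟩
      show M (fderiv ℝ C.p x0 ((r / ρ) • y')) = q
      rw [map_smul, hy', smul_smul, div_mul_cancel₀ _ hρp.ne', map_smul, hMd]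
      refine Prod.ext (Complex.ext ?_ ?_) ?_
      · show (r • (⟨q.1.re / r, q.1.im / r⟩ : ℂ)).re = q.1.re
        rw [Complex.smul_re]
        exact mul_div_cancel₀ _ hrp.ne'
      · show (r • (⟨q.1.re / r, q.1.im / r⟩ : ℂ)).im = q.1.im
        rw [Complex.smul_im]
        exact mul_div_cancel₀ _ hrp.ne'
      · exact mul_div_cancel₀ _ hrp.ne'
  have hdim : Module.finrank ℝ (R 3) = Module.finrank ℝ (ℂ × ℝ) := by
    rw [Module.finrank_prod, Complex.finrank_real_complex, Module.finrank_self]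
    simp
  have hinj : Function.Injective (M.comp (fderiv ℝ C.p x0) : R 3 →ₗ[ℝ] ℂ × ℝ) :=
    (LinearMap.injective_iff_surjective_of_finrank_eq_finrank hdim).2 hsurj
  exact ⟨hinj, hsurj⟩

end Pool.Agent.H11.SO
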