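import Pool.Agent.H11.ST.ArcA
import Pool.Agent.H11.ST.ImpP
import Pool.Agent.H11.SO.RedO
import Pool.Agent.H11.SO.PolB
import Pool.Agent.H11.SO.RotO

/-! The reduced curve is a half open arc near the pole s = 0. -/

set_option autoImplicit false

open scoped ContDiff Topology
open Topology

namespace Pool.Agent.H11.SO

open Pool.Agent.H66.SyL Pool.Agent.H11.ST

variable {b : Bas} {L : Set (Op 3)}

private noncomputable def mm (ζ s t : ℂ) : ℝ :=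
  ((starRingEnd ℂ) ζ * (s * (starRingEnd ℂ) t)).re

private theorem slB_vecO (b : Bas) (ζ : ℂ) (x : Fin 3 → ℝ) (s t : ℂ) :
    slB b ζ (pt (vecO b x s t)) = (⟨mm ζ s t * x 0, mm ζ s t * x 1⟩, mm ζ s t * x 2) := by
  obtain ⟨h0, h1, h2, h3⟩ := inner_vecO b x s t
  have key : ∀ r : ℝ, ((starRingEnd ℂ) ζ * ((s * r) * (starRingEnd ℂ) t)).re = mm ζ s t * r := by
    intro r
    have : (starRingEnd ℂ) ζ * ((s * r) * (starRingEnd ℂ) t) =
        ((starRingEnd ℂ) ζ * (s * (starRingEnd ℂ) t)) * (r : ℂ) := by ring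
    rw [this, Complex.re_mul_ofReal]
    rfl
  unfold slB
  rw [ent_pt, ent_pt, ent_pt, h0, h1, h2, h3, key, key, key]

private theorem unit_e0 {x : Fin 3 → ℝ} {s t : ℂ} (h : UnitO x s t) : UnitO e0 s t :=
  ⟨by simp [e0], h.2⟩

private theorem unit_neg {x : Fin 3 → ℝ} {s t : ℂ} (h : UnitO x s t) : UnitO x (-s) t :=
  ⟨h.1, by rw [norm_neg]; exact h.2⟩

private theorem mm_neg (ζ s t : ℂ) : mm ζ (-s) t = - mm ζ s t := by
  unfold mm
  rw [neg_mul, mul_neg, Complex.neg_re]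

private theorem slB_e0 (b : Bas) (ζ s t : ℂ) :
    slB b ζ (pt (vecO b e0 s t)) = (((mm ζ s t : ℝ) : ℂ), (0 : ℝ)) := by
  rw [slB_vecO]
  simp only [e0, Matrix.cons_val_zero, Matrix.cons_val_one, mul_one, mul_zero, Prod.mk.injEq]
  refine ⟨?_, ?_⟩
  · apply Complex.ext <;> simp
  · simp

/-- points on the curve sigma lie on the axis -/
private theorem on_axis (b : Bas) {ζ : ℂ} {x : Fin 3 → ℝ} {s t : ℂ} (h : UnitO x s t) {r : ℝ}
    (hr : 0 < r) (hf : slB b ζ (pt (vecO b x s t)) = (((r : ℝ) : ℂ), (0 : ℝ))) :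
    ∃ s' : ℂ, UnitO e0 s' t ∧ pt (vecO b x s t) = pt (vecO b e0 s' t) ∧ mm ζ s' t = r := by
  rw [slB_vecO] at hf
  rw [Prod.mk.injEq] at hf
  obtain ⟨h1, h2⟩ := hf
  have h3 : mm ζ s t * x 0 = r := by
    have := congrArg Complex.re h1
    simpa using this
  have h4 : mm ζ s t * x 1 = 0 := by
    have := congrArg Complex.im h1
    simpa using this
  have hm : mm ζ s t ≠ 0 := by
    intro h0
    rw [h0, zero_mul] at h3
    exact absurd h3.symm hr.ne'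
  have hx1 : x 1 = 0 := by
    rcases mul_eq_zero.mp h4 with h | h
    · exact absurd h hm
    · exact h
  have hx2 : x 2 = 0 := by
    rcases mul_eq_zero.mp h2 with h | h
    · exact absurd h hm
    · exact h
  have hx0 : x 0 = 1 ∨ x 0 = -1 := by
    have := h.1
    rw [hx1, hx2] at this
    have h5 : x 0 ^ 2 = 1 := by linarith
    have h6 : (x 0 - 1) * (x 0 + 1) = 0 := by linarith [h5, (by ring : (x 0 - 1) * (x 0 + 1) = x 0 ^ 2 - 1)]
    rcases mul_eq_zero.mp h6 with h7 | h7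
    · exact Or.inl (by linarith)
    · exact Or.inr (by linarith)
  rcases hx0 with h5 | h5
  · have hx : x = e0 := by
      funext i
      fin_cases i
      · simp [e0, h5]
      · simp [e0, hx1]
      · simp [e0, hx2]
    rw [hx] at h ⊢
    refine ⟨s, h, rfl, ?_⟩
    rw [h5, mul_one] at h3
    exact h3
  · have hx : x = -e0 := by
      funext i
      fin_cases i
      · simp [e0, h5]
      · simp [e0, hx1]
      · simp [e0, hx2]
    refine ⟨-s, unit_neg (unit_e0 h), ?_, ?_⟩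
    · rw [hx, pt_neg]
    · rw [mm_neg]
      rw [h5] at h3
      linarith

private theorem kap_e0_or (b : Bas) (hO : Orth b L) {ζ : ℂ} {x : Fin 3 → ℝ} {s t : ℂ}
    (h : UnitO x s t) (hQ : pt (vecO b x s t) ∈ L) :
    ∃ s' : ℂ, UnitO e0 s' t ∧ ‖s'‖ = ‖s‖ ∧ 0 ≤ mm ζ s' t ∧ pt (vecO b e0 s' t) ∈ L ∧
      kap b (pt (vecO b e0 s' t)) = kap b (pt (vecO b x s t)) := by
  have h1 : kap b (pt (vecO b e0 s t)) = kap b (pt (vecO b x s t)) := by
    rw [kap_vecO b h, kap_vecO b (unit_e0 h)]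
  have h2 : kap b (pt (vecO b e0 (-s) t)) = kap b (pt (vecO b x s t)) := by
    rw [kap_vecO b h, kap_vecO b (unit_neg (unit_e0 h)), neg_sq]
  rcases le_total 0 (mm ζ s t) with h0 | h0
  · exact ⟨s, unit_e0 h, rfl, h0, hO.sat _ hQ _ _ _ (unit_e0 h) h1, h1⟩
  · exact ⟨-s, unit_neg (unit_e0 h), norm_neg s, by rw [mm_neg]; linarith,
      hO.sat _ hQ _ _ _ (unit_neg (unit_e0 h)) h2, h2⟩

private theorem abs_mm_le {ζ s t : ℂ} (hζ : ‖ζ‖ = 1) (ht : ‖t‖ ≤ 1) : |mm ζ s t| ≤ ‖s‖ := by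
  unfold mm
  refine (Complex.abs_re_le_norm _).trans ?_
  rw [norm_mul, norm_mul, RCLike.norm_conj, RCLike.norm_conj, hζ, one_mul]
  exact mul_le_of_le_one_right (norm_nonneg _) ht

private theorem near_aux {Z : Type*} [TopologicalSpace Z] {g : (Fin 3 → ℝ) × ℂ × ℂ → Z}
    (hg : Continuous g) {V : Set Z} (hV : V ∈ 𝓝 (g (e0, 0, 1))) :
    ∃ ε : ℝ, 0 < ε ∧ ∀ s t : ℂ, ‖s‖ < ε → ‖t - 1‖ < ε → g (e0, s, t) ∈ V := by
  have hq : Continuous fun q : ℂ × ℂ => ((e0, q.1, q.2) : (Fin 3 → ℝ) × ℂ × ℂ) :=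
    Continuous.prodMk continuous_const (Continuous.prodMk continuous_fst continuous_snd)
  have hcont : Continuous fun q : ℂ × ℂ => g (e0, q.1, q.2) := hg.comp hq
  have hpre : (fun q : ℂ × ℂ => g (e0, q.1, q.2)) ⁻¹' V ∈ 𝓝 ((0 : ℂ), (1 : ℂ)) :=
    hcont.continuousAt.preimage_mem_nhds hV
  obtain ⟨ε, hε, hball⟩ := Metric.mem_nhds_iff.1 hpre
  refine ⟨ε, hε, fun s t hs ht => ?_⟩
  have : ((s, t) : ℂ × ℂ) ∈ Metric.ball ((0 : ℂ), (1 : ℂ)) ε := by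
    rw [Metric.mem_ball, Prod.dist_eq, max_lt_iff]
    constructor
    · simpa using hs
    · simpa [dist_eq_norm] using ht
  exact hball this

private theorem kap_aux (b : Bas) {η : ℝ} (hη : 0 < η) :
    ∀ᶠ Q in 𝓝 (pt (vecO b e0 0 1)), √(1 - (kap b Q).2) < η ∧ |√((kap b Q).2) - 1| < η := by
  have hk0 : (kap b (pt (vecO b e0 0 1))).2 = (1 : ℝ) := by
    rw [kap_vecO b (⟨by simp [e0], by simp⟩ : UnitO e0 0 1)]
    simp
  have hk : Continuous fun Q : Op 3 => (kap b Q).2 := continuous_snd.comp (continuous_kap b)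
  generalize pt (vecO b e0 0 1) = P at hk0 ⊢
  have hc1 : Continuous fun Q : Op 3 => √(1 - (kap b Q).2) :=
    Real.continuous_sqrt.comp (continuous_const.sub hk)
  have hc2 : Continuous fun Q : Op 3 => |√((kap b Q).2) - 1| :=
    continuous_abs.comp ((Real.continuous_sqrt.comp hk).sub continuous_const)
  have e1 : ∀ᶠ Q in 𝓝 P, √(1 - (kap b Q).2) < η := by
    apply hc1.continuousAt.eventually_lt_const
    show √(1 - (kap b P).2) < η
    rw [hk0]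
    simp [hη]
  have e2 : ∀ᶠ Q in 𝓝 P, |√((kap b Q).2) - 1| < η := by
    apply hc2.continuousAt.eventually_lt_const
    show |√((kap b P).2) - 1| < η
    rw [hk0]
    simp [hη]
  exact e1.and e2

private theorem exists_u (t : ℂ) : ∃ u : ℂ, ‖u‖ = 1 ∧ u * t = ‖t‖ := by
  by_cases ht : t = 0
  · exact ⟨1, by simp, by simp [ht]⟩
  · refine ⟨(starRingEnd ℂ) t / ‖t‖, ?_, ?_⟩
    · rw [norm_div, RCLike.norm_conj, Complex.norm_real, norm_norm]
      exact div_self (norm_ne_zero_iff.mpr ht)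
    · have hne : (‖t‖ : ℂ) ≠ 0 := by
        exact_mod_cast norm_ne_zero_iff.mpr ht
      rw [div_mul_eq_mul_div, mul_comm, Complex.mul_conj, Complex.normSq_eq_norm_sq]
      push_cast
      field_simp

/-- near the pole the point on the axis with the same kap is near the pole -/
private theorem near_pole (b : Bas) (hO : Orth b L) {ζ : ℂ} (hζ : ‖ζ‖ = 1)
    {V : Set (Op 3)} (hV : V ∈ 𝓝 (pt (vecO b e0 0 1))) {J : Set ℝ} (hJ : J ∈ 𝓝 (0 : ℝ)) :
    ∀ᶠ Q in 𝓝[L] (pt (vecO b e0 0 1)), ∃ s t : ℂ, UnitO e0 s t ∧ pt (vecO b e0 s t) ∈ V ∧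
      pt (vecO b e0 s t) ∈ L ∧
      0 ≤ mm ζ s t ∧ mm ζ s t ∈ J ∧ kap b (pt (vecO b e0 s t)) = kap b Q := by
  obtain ⟨ε, hε, hball⟩ := near_aux (continuous_ptO b) hV
  obtain ⟨η, hη, hJball⟩ := Metric.mem_nhds_iff.1 hJ
  have e1 := kap_aux b (lt_min hε hη)
  filter_upwards [nhdsWithin_le_nhds e1, self_mem_nhdsWithin] with Q h12 hQ
  obtain ⟨h1, h2⟩ := h12
  obtain ⟨x, s, t, hu, hxQ⟩ := hO.form Q hQ
  rw [← hxQ] at hQ h1 h2 ⊢
  obtain ⟨s', hu', hs', h0, hL', hk⟩ := kap_e0_or b hO (ζ := ζ) hu hQ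
  rw [kap_vecO b hu] at h1 h2
  have hst := hu.2
  have h3 : √(1 - ‖t‖ ^ 2) = ‖s‖ := by
    rw [show 1 - ‖t‖ ^ 2 = ‖s‖ ^ 2 by linarith]
    exact Real.sqrt_sq (norm_nonneg _)
  have h4 : √(‖t‖ ^ 2) = ‖t‖ := Real.sqrt_sq (norm_nonneg _)
  simp only [h3, h4] at h1 h2
  have ht1 : ‖t‖ ≤ 1 := by nlinarith [norm_nonneg t, sq_nonneg ‖s‖]
  refine ⟨s', t, hu', ?_, hL', h0, ?_, hk⟩
  · obtain ⟨u, hu1, hut⟩ := exists_u t
    have h5 := pt_phase b (x := e0) (s := s') (t := t) hu1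
    rw [hut] at h5
    rw [← h5]
    refine hball (u * s') ((‖t‖ : ℝ) : ℂ) ?_ ?_
    · rw [norm_mul, hu1, one_mul, hs']
      exact lt_of_lt_of_le h1 (min_le_left _ _)
    · rw [show ((‖t‖ : ℂ) - 1) = ((‖t‖ - 1 : ℝ) : ℂ) by push_cast; rfl, Complex.norm_real]
      exact lt_of_lt_of_le h2 (min_le_left _ _)
  · apply hJball
    rw [Metric.mem_ball, Real.dist_eq, sub_zero]
    refine lt_of_le_of_lt (abs_mm_le hζ ht1) ?_
    rw [hs']
    exact lt_of_lt_of_le h1 (min_le_right _ _)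

private theorem slB_e0_re (b : Bas) (ζ s t : ℂ) :
    (slB b ζ (pt (vecO b e0 s t))).1.re = mm ζ s t := by
  rw [slB_e0]
  simp

/-- near a point of the axis with positive coordinate -/
private theorem near_axis (b : Bas) (hO : Orth b L) {ζ s0 t0 : ℂ} (hu0 : UnitO e0 s0 t0)
    (hR : pt (vecO b e0 s0 t0) ∈ L) {a : ℝ} (ha : 0 < a) (hm : mm ζ s0 t0 = a)
    {V : Set (Op 3)} (hV : V ∈ 𝓝 (pt (vecO b e0 s0 t0))) {J : Set ℝ} (hJ : J ∈ 𝓝 a) :
    ∀ᶠ Q in 𝓝[L] (pt (vecO b e0 s0 t0)), ∃ s t : ℂ, UnitO e0 s t ∧ pt (vecO b e0 s t) ∈ V ∧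
      pt (vecO b e0 s t) ∈ L ∧
      0 ≤ mm ζ s t ∧ mm ζ s t ∈ J ∧ kap b (pt (vecO b e0 s t)) = kap b Q := by
  have hs0 : s0 ≠ 0 := by
    intro h
    rw [h] at hm
    unfold mm at hm
    rw [zero_mul, mul_zero, Complex.zero_re] at hm
    exact ha.ne hm
  have hcont : Continuous fun Q : Op 3 => (slB b ζ Q).1.re :=
    Complex.continuous_re.comp (continuous_fst.comp (contDiff_slB b ζ).continuous)
  have hJ' : J ∩ Set.Ioi 0 ∈ 𝓝 ((slB b ζ (pt (vecO b e0 s0 t0))).1.re) := by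
    rw [slB_e0_re, hm]
    exact Filter.inter_mem hJ (Ioi_mem_nhds ha)
  have hV' : V ∩ (fun Q : Op 3 => (slB b ζ Q).1.re) ⁻¹' (J ∩ Set.Ioi 0) ∈
      𝓝 (pt (vecO b e0 s0 t0)) :=
    Filter.inter_mem hV (hcont.continuousAt.preimage_mem_nhds hJ')
  filter_upwards [rot_axis hO hu0 hs0 hR hV', self_mem_nhdsWithin] with Q hQ hQL
  obtain ⟨s', t', hu', ⟨hV1, hV2⟩, hk⟩ := hQ
  have h1 : (slB b ζ (pt (vecO b e0 s' t'))).1.re ∈ J ∩ Set.Ioi 0 := hV2
  rw [slB_e0_re] at h1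
  exact ⟨s', t', hu', hV1, hO.sat Q hQL _ _ _ hu' hk, le_of_lt h1.2, h1.1, hk⟩

/-- Proof (as ST/LocP.lean): chart C, (δ, σ, O) from imp_p with pol_b for f = slB b ζ, f P = (0, 0).
f (pt (vecO x s t)) = m x, m = Re (conj ζ s conj t). c r = kap (σ (r, 0)), 0 ≤ r < δ. Injective: kap gives
(s conj t)^2, so |m|^2 = r^2. Open: R = σ (a, 0) = pt (vecO e0 s1 t1) (x = e0 if a > 0 after a sign; a = 0: R = P by
injectivity of f on L cap O). Q = pt (vecO x s t) in L near R; Q' = pt (vecO e0 s t) or pt (vecO e0 (-s) t) with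
m ≥ 0: f Q' = (|f Q|, 0), kap Q' = kap Q, Q' in L (sat), Q' near R (its entries are continuous functions of
those of Q; for a = 0, s tends to 0), so Q' = σ (|f Q|, 0). redMap_kap.op, end_of. -/
theorem loc_b (hL : IsLagrangian L) (hc : IsCompact L) (hO : Orth b L)
    (hP : pt (vecO b e0 0 1) ∈ L) (w : kap b '' L)
    (hw : (w : ℂ × ℝ) = kap b (pt (vecO b e0 0 1))) : EndAt w := by
  obtain ⟨C, hC⟩ := exists_lchart hL hP
  obtain ⟨ζ, hζ, hbij⟩ := pol_b hO C ⟨hP, hC⟩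
  obtain ⟨δ, σ, O, hδ, hOo, hPO, -, hσc, hσ, hσf⟩ :=
    imp_p C ⟨hP, hC⟩ (slB b ζ) (contDiff_slB b ζ) hbij Filter.univ_mem
  have hu1 : UnitO e0 0 1 := ⟨by simp [e0], by simp⟩
  have hf0 : slB b ζ (pt (vecO b e0 0 1)) = ((0 : ℂ), (0 : ℝ)) := by
    rw [slB_e0]
    unfold mm
    simp
  rw [hf0] at hσc hσ hσf
  -- the ball
  have hball : ∀ r : ℝ, |r| < δ → (((r : ℝ) : ℂ), (0 : ℝ)) ∈ Metric.ball ((0 : ℂ), (0 : ℝ)) δ := by
    intro r hr
    rw [Metric.mem_ball, Prod.dist_eq, max_lt_iff]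
    constructor
    · simpa using hr
    · simpa using hδ
  have hball' : ∀ r : ℝ, (((r : ℝ) : ℂ), (0 : ℝ)) ∈ Metric.ball ((0 : ℂ), (0 : ℝ)) δ → |r| < δ := by
    intro r hr
    rw [Metric.mem_ball, Prod.dist_eq, max_lt_iff] at hr
    simpa using hr.1
  -- points of the curve
  have hax : ∀ r ∈ Set.Ico 0 δ, ∃ s t : ℂ, UnitO e0 s t ∧
      σ (((r : ℝ) : ℂ), (0 : ℝ)) = pt (vecO b e0 s t) ∧ mm ζ s t = r := by
    rintro r ⟨hr0, hr1⟩
    have hr : |r| < δ := by rwa [abs_of_nonneg hr0]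
    rcases hr0.lt_or_eq with hr0 | hr0
    · obtain ⟨h1, h2⟩ := hσ _ (hball r hr)
      obtain ⟨x, s, t, hu, hx⟩ := hO.form _ h1.1
      rw [← hx] at h2
      obtain ⟨s', hu', h3, h4⟩ := on_axis b hu hr0 h2
      exact ⟨s', t, hu', hx.symm.trans h3, h4⟩
    · refine ⟨0, 1, hu1, ?_, ?_⟩
      · have h1 := (hσf _ ⟨hP, hPO⟩).2
        rw [hf0] at h1
        rw [← hr0]
        simpa using h1
      · rw [← hr0]
        unfold mm
        simp
  have hback : ∀ s t : ℂ, UnitO e0 s t → pt (vecO b e0 s t) ∈ O → pt (vecO b e0 s t) ∈ L →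
      |mm ζ s t| < δ ∧ σ (((mm ζ s t : ℝ) : ℂ), (0 : ℝ)) = pt (vecO b e0 s t) := by
    intro s t hu h1 h2
    obtain ⟨h3, h4⟩ := hσf _ ⟨h2, h1⟩
    rw [slB_e0] at h3 h4
    exact ⟨hball' _ h3, h4⟩
  obtain ⟨c, hcdef⟩ : ∃ c : ℝ → ℂ × ℝ, c = fun r => kap b (σ (((r : ℝ) : ℂ), (0 : ℝ))) := ⟨_, rfl⟩
  have hc' : ∀ r, c r = kap b (σ (((r : ℝ) : ℂ), (0 : ℝ))) := fun r => by rw [hcdef]
  have hc0 : c 0 = w := by
    rw [hc', hw]
    have h1 := (hσf _ ⟨hP, hPO⟩).2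
    rw [hf0] at h1
    rw [Complex.ofReal_zero, h1]
  have hcont : ContinuousOn c (Set.Ico 0 δ) := by
    rw [hcdef]
    refine (continuous_kap b).comp_continuousOn (hσc.comp ?_ ?_)
    · exact (Continuous.prodMk Complex.continuous_ofReal continuous_const).continuousOn
    · rintro r ⟨hr0, hr1⟩
      exact hball r (by rwa [abs_of_nonneg hr0])
  have hinj : Set.InjOn c (Set.Ico 0 δ) := by
    intro r hr r' hr' h
    obtain ⟨s, t, hu, h1, h2⟩ := hax r hr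
    obtain ⟨s', t', hu', h1', h2'⟩ := hax r' hr'
    rw [hc', hc', h1, h1', kap_vecO b hu, kap_vecO b hu', Prod.mk.injEq] at h
    have h3 : (s * (starRingEnd ℂ) t) ^ 2 = (s' * (starRingEnd ℂ) t') ^ 2 := by
      rw [mul_pow, mul_pow]
      exact h.1
    rcases sq_eq_sq_iff_eq_or_eq_neg.mp h3 with h4 | h4
    · rw [← h2, ← h2']
      unfold mm
      rw [h4]
    · have h5 : r = - r' := by
        rw [← h2, ← h2']
        unfold mm
        rw [h4, mul_neg, Complex.neg_re]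
      linarith [hr.1, hr'.1]
  have hK : ∀ t ∈ Set.Ico 0 δ, c t ∈ kap b '' L := by
    rintro r ⟨hr0, hr1⟩
    rw [hc']
    exact ⟨_, (hσ _ (hball r (by rwa [abs_of_nonneg hr0]))).1.1, rfl⟩
  have hopen : ∀ t ∈ Set.Ico 0 δ, ∀ J ∈ 𝓝 t, ∀ᶠ w in 𝓝[kap b '' L] (c t),
      ∃ s ∈ J ∩ Set.Ico 0 δ, c s = w := by
    intro a ha J hJ
    obtain ⟨s0, t0, hu0, hR, hm⟩ := hax a ha
    have hσa := hσ _ (hball a (by rw [abs_of_nonneg ha.1]; exact ha.2))
    have hRL : pt (vecO b e0 s0 t0) ∈ L := by rw [← hR]; exact hσa.1.1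
    have hRO : O ∈ 𝓝 (pt (vecO b e0 s0 t0)) := by
      rw [← hR]
      exact hOo.mem_nhds hσa.1.2
    have hnear : ∀ᶠ Q in 𝓝[L] (pt (vecO b e0 s0 t0)), ∃ s t : ℂ, UnitO e0 s t ∧
        pt (vecO b e0 s t) ∈ O ∧ pt (vecO b e0 s t) ∈ L ∧
        0 ≤ mm ζ s t ∧ mm ζ s t ∈ J ∧ kap b (pt (vecO b e0 s t)) = kap b Q := by
      rcases ha.1.lt_or_eq with ha0 | ha0
      · exact near_axis b hO hu0 hRL ha0 hm hRO hJ
      · have h1 : pt (vecO b e0 s0 t0) = pt (vecO b e0 0 1) := by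
          rw [← hR, ← ha0, Complex.ofReal_zero]
          have h1 := (hσf _ ⟨hP, hPO⟩).2
          rwa [hf0] at h1
        rw [h1] at hRO ⊢
        rw [← ha0] at hJ
        exact near_pole b hO hζ hRO hJ
    have hop := (redMap_kap hc hO).op _ hRL _ hnear
    rw [hc', hR]
    filter_upwards [hop] with w' hw'
    obtain ⟨Q, ⟨-, s, t, hu, h1, h2, h3, h4, h5⟩, hQw⟩ := hw'
    obtain ⟨h6, h7⟩ := hback s t hu h1 h2
    refine ⟨mm ζ s t, ⟨h4, h3, lt_of_le_of_lt (le_abs_self _) h6⟩, ?_⟩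
    rw [hc', h7, h5, hQw]
  have hw0 : c 0 ∈ kap b '' L := by rw [hc0]; exact w.2
  have := end_of (kap b '' L) hδ hcont hinj hK hopen hw0
  have hww : (⟨c 0, hw0⟩ : kap b '' L) = w := Subtype.ext hc0
  rwa [hww] at this

end Pool.Agent.H11.SO
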