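import Pool.Agent.H11.SO.EntO

/-! The slice at an interior point is in the axis. -/

set_option autoImplicit false

open scoped ContDiff Topology

namespace Pool.Agent.H11.SO

open Pool.Agent.H66.SyL Pool.Agent.H11.ST

variable {b : Bas} {L : Set (Op 3)}

private theorem re_rmul (a c p : ℂ) (x : ℝ) :
    (a * (x : ℂ) * c * p).re = x * (a * c * p).re := by
  have h : a * (x : ℂ) * c * p = (x : ℂ) * (a * c * p) := by ring
  rw [h, Complex.re_ofReal_mul]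

private theorem ax (hO : Orth b L) {Q : Op 3} (hQ : Q ∈ L) {p : ℂ}
    (hpos : 0 < (ent b Q 0 3 * (starRingEnd ℂ) p).re)
    (h1 : (ent b Q 1 3 * (starRingEnd ℂ) p).re = 0)
    (h2 : (ent b Q 2 3 * (starRingEnd ℂ) p).re = 0) :
    ∃ s' t' : ℂ, s' ≠ 0 ∧ UnitO e0 s' t' ∧ pt (vecO b e0 s' t') = Q ∧
      0 < (s' * (starRingEnd ℂ) t' * (starRingEnd ℂ) p).re := by
  obtain ⟨x, s, t, hu, rfl⟩ := hO.form Q hQ
  obtain ⟨i0, i1, i2, i3⟩ := inner_vecO b x s t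
  rw [ent_pt, i0, i3, re_rmul] at hpos
  rw [ent_pt, i1, i3, re_rmul] at h1
  rw [ent_pt, i2, i3, re_rmul] at h2
  have hr : (s * (starRingEnd ℂ) t * (starRingEnd ℂ) p).re ≠ 0 := by
    intro h
    rw [h, mul_zero] at hpos
    exact lt_irrefl _ hpos
  have x1 : x 1 = 0 := (mul_eq_zero.mp h1).resolve_right hr
  have x2 : x 2 = 0 := (mul_eq_zero.mp h2).resolve_right hr
  have x0 : x 0 ^ 2 = 1 := by
    have h := hu.1
    rw [x1, x2] at h
    linarith
  have hs : s ≠ 0 := by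
    intro h
    apply hr
    rw [h]
    simp
  have hv : vecO b x s t = vecO b e0 (s * x 0) t := by
    unfold vecO e0
    rw [x1, x2]
    simp
  have hx0 : x 0 ≠ 0 := by
    intro h
    rw [h] at x0
    norm_num at x0
  have hnx : ‖((x 0 : ℝ) : ℂ)‖ = 1 := by
    have h3 : ‖((x 0 : ℝ) : ℂ)‖ ^ 2 = 1 := by
      rw [Complex.norm_real, Real.norm_eq_abs, sq_abs, x0]
    have h4 : 0 ≤ ‖((x 0 : ℝ) : ℂ)‖ := norm_nonneg _
    nlinarith
  refine ⟨s * x 0, t, ?_, ⟨?_, ?_⟩, ?_, ?_⟩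
  · exact mul_ne_zero hs (by exact_mod_cast hx0)
  · unfold e0
    simp
  · rw [norm_mul, hnx, mul_one]
    exact hu.2
  · rw [hv]
  · rw [re_rmul]
    exact hpos

private theorem eq_of_sq {a a' p : ℂ} (h : a ^ 2 = a' ^ 2) (hr : 0 < (a * (starRingEnd ℂ) p).re)
    (hr' : 0 < (a' * (starRingEnd ℂ) p).re) : a = a' := by
  rcases sq_eq_sq_iff_eq_or_eq_neg.mp h with h1 | h1
  · exact h1
  · exfalso
    rw [h1, neg_mul, Complex.neg_re] at hr
    linarith

/-- Proof: Q = pt (vecO x s' t') near P: Re (ent Q 0 3 * conj (ent P 0 3)) > 0, ent Q i 3 = s' x_i conj t', so slO = 0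
gives x_1 = x_2 = 0, x = e0 after a change of sign. Injectivity: kap gives |t'|^2 and (s' conj t')^2, the
sign of s' conj t' = ent 0 3 is fixed near P; so all entries agree. -/
theorem slo_axis (hO : Orth b L) {s t : ℂ} (hu : UnitO e0 s t) (hs : s ≠ 0) (ht : t ≠ 0)
    (hP : pt (vecO b e0 s t) ∈ L) :
    ∃ W ∈ 𝓝 (pt (vecO b e0 s t)),
      (∀ Q ∈ L ∩ W, slO b (pt (vecO b e0 s t)) Q = 0 → ∃ s' t' : ℂ, s' ≠ 0 ∧ UnitO e0 s' t' ∧
        pt (vecO b e0 s' t') = Q) ∧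
      (∀ Q ∈ L ∩ W, ∀ Q' ∈ L ∩ W, slO b (pt (vecO b e0 s t)) Q = 0 →
        slO b (pt (vecO b e0 s t)) Q' = 0 → kap b Q = kap b Q' → Q = Q') := by
  obtain ⟨i0, i1, i2, i3⟩ := inner_vecO b e0 s t
  have hp0 : ent b (pt (vecO b e0 s t)) 0 3 = s * (starRingEnd ℂ) t := by
    rw [ent_pt, i0, i3]
    unfold e0
    simp
  have hp : ent b (pt (vecO b e0 s t)) 0 3 ≠ 0 := by
    rw [hp0]
    refine mul_ne_zero hs ?_
    intro h
    apply ht
    have h1 := congrArg (starRingEnd ℂ) h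
    rw [Complex.conj_conj, map_zero (starRingEnd ℂ)] at h1
    exact h1
  refine ⟨{Q : Op 3 | 0 < (ent b Q 0 3 *
    (starRingEnd ℂ) (ent b (pt (vecO b e0 s t)) 0 3)).re}, ?_, ?_, ?_⟩
  · apply IsOpen.mem_nhds
    · exact isOpen_lt continuous_const
        (Complex.continuous_re.comp ((continuous_ent b 0 3).mul continuous_const))
    · show 0 < (ent b (pt (vecO b e0 s t)) 0 3 *
        (starRingEnd ℂ) (ent b (pt (vecO b e0 s t)) 0 3)).re
      rw [Complex.mul_conj, Complex.ofReal_re]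
      exact Complex.normSq_pos.mpr hp
  · rintro Q ⟨hQ, hQ1⟩ hsl
    obtain ⟨s', t', h1, h2, h3, -⟩ := ax hO hQ hQ1 (congrArg Prod.fst hsl) (congrArg Prod.snd hsl)
    exact ⟨s', t', h1, h2, h3⟩
  · rintro Q ⟨hQ, hQ1⟩ Q' ⟨hQ', hQ1'⟩ hsl hsl' hk
    obtain ⟨s1, t1, hs1, hu1, rfl, hr1⟩ :=
      ax hO hQ hQ1 (congrArg Prod.fst hsl) (congrArg Prod.snd hsl)
    obtain ⟨s2, t2, hs2, hu2, rfl, hr2⟩ :=
      ax hO hQ' hQ1' (congrArg Prod.fst hsl') (congrArg Prod.snd hsl')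
    rw [kap_vecO b hu1, kap_vecO b hu2] at hk
    have k1 : s1 ^ 2 * (starRingEnd ℂ) t1 ^ 2 = s2 ^ 2 * (starRingEnd ℂ) t2 ^ 2 :=
      congrArg Prod.fst hk
    have k2 : ‖t1‖ ^ 2 = ‖t2‖ ^ 2 := congrArg Prod.snd hk
    have hn : ‖t1‖ = ‖t2‖ := (sq_eq_sq₀ (norm_nonneg _) (norm_nonneg _)).mp k2
    have ha : s1 * (starRingEnd ℂ) t1 = s2 * (starRingEnd ℂ) t2 := by
      refine eq_of_sq ?_ hr1 hr2
      rw [mul_pow, mul_pow]
      exact k1
    have ht1 : t1 ≠ 0 := by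
      intro h
      rw [h, map_zero (starRingEnd ℂ), mul_zero, zero_mul, Complex.zero_re] at hr1
      exact lt_irrefl _ hr1
    have ht1' : (starRingEnd ℂ) t1 ≠ 0 := by
      intro h
      apply ht1
      have h1 := congrArg (starRingEnd ℂ) h
      rw [Complex.conj_conj, map_zero (starRingEnd ℂ)] at h1
      exact h1
    have hc : ‖t2 / t1‖ = 1 := by
      rw [norm_div, hn, div_self]
      rw [← hn]
      exact norm_ne_zero_iff.mpr ht1
    have hcc : (t2 / t1) * (starRingEnd ℂ) (t2 / t1) = 1 := by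
      rw [Complex.mul_conj, Complex.normSq_eq_norm_sq, hc]
      simp
    have e2 : t2 = t2 / t1 * t1 := by
      rw [div_mul_cancel₀ _ ht1]
    have e1 : s2 = t2 / t1 * s1 := by
      have h4 : s1 * (starRingEnd ℂ) t1 = s2 * (starRingEnd ℂ) (t2 / t1) * (starRingEnd ℂ) t1 := by
        rw [ha, mul_assoc, ← map_mul, ← e2]
      have h5 : s1 = s2 * (starRingEnd ℂ) (t2 / t1) := mul_right_cancel₀ ht1' h4
      rw [h5, mul_comm s2, ← mul_assoc, hcc, one_mul]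
    rw [e1, e2]
    rw [div_mul_cancel₀ _ ht1]
    have h6 := pt_phase b (x := e0) (s := s1) (t := t1) hc
    rw [div_mul_cancel₀ _ ht1] at h6
    exact h6.symm

end Pool.Agent.H11.SO
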