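import Pool.Agent.H11.SO.EntO
import Pool.Agent.H66.SyL.MomA

/-! The axis functions are a submersion on L at interior points. -/

set_option autoImplicit false

open scoped ContDiff Topology

namespace Pool.Agent.H11.SO

open Pool.Agent.H66.SyL Pool.Agent.H11.ST

variable {b : Bas} {L : Set (Op 3)}

private theorem pt_diff (p q m : E 3) :
    Differentiable ℝ (fun a : ℝ =>
      pt (((Real.cos a : ℝ) : ℂ) • p + ((Real.sin a : ℝ) : ℂ) • q + m)) := by
  let β : E 3 → E 3 → Op 3 := fun u v => (innerSL ℂ u).smulRight v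
  have hβ : ∀ u v y, β u v y = inner ℂ u y • v := by
    intro u v y
    simp [β]
  have h : (fun a : ℝ => pt (((Real.cos a : ℝ) : ℂ) • p + ((Real.sin a : ℝ) : ℂ) • q + m))
      = fun a : ℝ => (Real.cos a * Real.cos a) • β p p + (Real.cos a * Real.sin a) • β p q
        + (Real.cos a) • β p m + (Real.sin a * Real.cos a) • β q p
        + (Real.sin a * Real.sin a) • β q q + (Real.sin a) • β q m
        + (Real.cos a) • β m p + (Real.sin a) • β m q + β m m := by
    funext a
    ext1 y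
    rw [pt_apply]
    simp only [_root_.add_apply, _root_.smul_apply, hβ,
      inner_add_left, inner_smul_left, Complex.conj_ofReal]
    simp only [← Complex.coe_smul, Complex.ofReal_mul]
    module
  rw [h]
  fun_prop

private theorem vecO_eq (b : Bas) (x : Fin 3 → ℝ) (s t : ℂ) :
    vecO b x s t = (s * x 0) • b 0 + (s * x 1) • b 1 + (s * x 2) • b 2 + t • b 3 := rfl

/-- Proof: the curves a -> pt (vecO (cos a, sin a, 0) s t), pt (vecO (cos a, 0, sin a) s t) lie in L (sat);
curve_deriv; slO of them is (|s t|^2 sin a, 0), (0, |s t|^2 sin a). -/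
theorem sub_o (hO : Orth b L) (C : LChart L) {s t : ℂ} (hu : UnitO e0 s t) (hs : s ≠ 0) (ht : t ≠ 0)
    (hP : pt (vecO b e0 s t) ∈ L ∩ C.U) :
    Function.Surjective
      (fderiv ℝ (fun y => slO b (pt (vecO b e0 s t)) (C.p y)) (C.r (pt (vecO b e0 s t)))) := by
  set P : Op 3 := pt (vecO b e0 s t) with hPdef
  have hunit : ∀ x : Fin 3 → ℝ, x 0 ^ 2 + x 1 ^ 2 + x 2 ^ 2 = 1 → UnitO x s t :=
    fun x hx => ⟨hx, hu.2⟩
  have hmem : ∀ x : Fin 3 → ℝ, x 0 ^ 2 + x 1 ^ 2 + x 2 ^ 2 = 1 → pt (vecO b x s t) ∈ L := by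
    intro x hx
    refine hO.sat P hP.1 x s t (hunit x hx) ?_
    rw [hPdef, kap_vecO b (hunit x hx), kap_vecO b hu]
  -- the value of slO on the points of the sphere
  have hval : ∀ x : Fin 3 → ℝ, slO b P (pt (vecO b x s t))
      = ((‖s‖ ^ 2 * ‖t‖ ^ 2) * x 1, (‖s‖ ^ 2 * ‖t‖ ^ 2) * x 2) := by
    intro x
    obtain ⟨i0, i1, i2, i3⟩ := inner_vecO b x s t
    obtain ⟨j0, -, -, j3⟩ := inner_vecO b e0 s t
    have e00 : (e0 0 : ℝ) = 1 := rfl
    have key : ∀ r : ℝ, (s * (r : ℂ) * (starRingEnd ℂ) t *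
        (starRingEnd ℂ) (s * ((1 : ℝ) : ℂ) * (starRingEnd ℂ) t)).re
          = (‖s‖ ^ 2 * ‖t‖ ^ 2) * r := by
      intro r
      have h1 : s * (r : ℂ) * (starRingEnd ℂ) t *
          (starRingEnd ℂ) (s * ((1 : ℝ) : ℂ) * (starRingEnd ℂ) t)
            = (s * (starRingEnd ℂ) s) * (t * (starRingEnd ℂ) t) * (r : ℂ) := by
        simp only [map_mul, Complex.conj_conj, Complex.ofReal_one, map_one]
        ring
      rw [h1, Complex.mul_conj, Complex.mul_conj, Complex.normSq_eq_norm_sq,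
        Complex.normSq_eq_norm_sq, ← Complex.ofReal_mul, ← Complex.ofReal_mul,
        Complex.ofReal_re]
    unfold slO
    rw [hPdef]
    simp only [ent_pt, i1, i2, i3, j0, j3, e00, key]
  have hc : (‖s‖ ^ 2 * ‖t‖ ^ 2) ≠ 0 :=
    mul_ne_zero (pow_ne_zero 2 (norm_ne_zero_iff.2 hs)) (pow_ne_zero 2 (norm_ne_zero_iff.2 ht))
  set c : ℝ := ‖s‖ ^ 2 * ‖t‖ ^ 2 with hcdef
  -- general principle
  have hmain : ∀ (x : ℝ → Fin 3 → ℝ) (w : ℝ × ℝ), x 0 = e0 →
      (∀ a, x a 0 ^ 2 + x a 1 ^ 2 + x a 2 ^ 2 = 1) →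
      DifferentiableAt ℝ (fun a => pt (vecO b (x a) s t)) 0 →
      HasDerivAt (fun a => ((c * x a 1, c * x a 2) : ℝ × ℝ)) w 0 →
      ∃ y, fderiv ℝ (fun y => slO b P (C.p y)) (C.r P) y = w := by
    intro x w hx0 hx1 hd hw
    set g : ℝ → Op 3 := fun a => pt (vecO b (x a) s t) with hg
    have hg0 : g 0 = P := by rw [hg, hPdef]; simp only [hx0]
    obtain ⟨y, -, hy, -⟩ := curve_deriv C (g := g) (t0 := 0) (X := deriv g 0)
      (Filter.Eventually.of_forall fun a => hmem _ (hx1 a)) (by rw [hg0]; exact hP.2)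
      hd.hasDerivAt
    rw [hg0] at hy
    refine ⟨y, ?_⟩
    have hball : C.r P ∈ Metric.ball C.x0 C.δ := C.r_mem _ hP
    have hp : DifferentiableAt ℝ C.p (C.r P) :=
      (C.smooth_p.contDiffAt (Metric.isOpen_ball.mem_nhds hball)).differentiableAt (by norm_num)
    have hsl : Differentiable ℝ (slO b P) := (contDiff_slO b P).differentiable (by norm_num)
    have h1 : fderiv ℝ (fun y => slO b P (C.p y)) (C.r P)
        = (fderiv ℝ (slO b P) (C.p (C.r P))).comp (fderiv ℝ C.p (C.r P)) :=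
      fderiv_comp (C.r P) (hsl _) hp
    rw [h1, ContinuousLinearMap.comp_apply, ← hy, C.p_r _ hP]
    have h2 : HasDerivAt (fun a => slO b P (g a)) (fderiv ℝ (slO b P) (g 0) (deriv g 0)) 0 :=
      (hsl (g 0)).hasFDerivAt.comp_hasDerivAt (0 : ℝ) hd.hasDerivAt
    rw [hg0] at h2
    have h3 : (fun a => slO b P (g a)) = fun a => ((c * x a 1, c * x a 2) : ℝ × ℝ) := by
      funext a
      exact hval (x a)
    rw [h3] at h2
    exact h2.unique hw
  have hsin : HasDerivAt (fun a : ℝ => c * Real.sin a) c 0 := by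
    have := (Real.hasDerivAt_sin 0).const_mul c
    rwa [Real.cos_zero, mul_one] at this
  have hz : HasDerivAt (fun _ : ℝ => c * (0 : ℝ)) 0 0 := hasDerivAt_const _ _
  obtain ⟨y1, hy1⟩ := hmain (fun a => ![Real.cos a, Real.sin a, 0]) (c, 0)
    (by funext i; fin_cases i <;> simp [e0])
    (fun a => by simp)
    (by
      have h := (pt_diff (s • b 0) (s • b 1) (t • b 3)) 0
      have h2 : (fun a : ℝ => pt (vecO b ![Real.cos a, Real.sin a, 0] s t))
          = fun a : ℝ => pt (((Real.cos a : ℝ) : ℂ) • (s • b 0) +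
            ((Real.sin a : ℝ) : ℂ) • (s • b 1) + t • b 3) := by
        funext a
        rw [vecO_eq]
        simp only [Matrix.cons_val_zero, Matrix.cons_val_one, Matrix.cons_val, smul_smul,
          Complex.ofReal_zero, mul_zero, zero_smul, add_zero]
        rw [mul_comm s, mul_comm s]
      rw [h2]
      exact h)
    (hsin.prodMk hz)
  obtain ⟨y2, hy2⟩ := hmain (fun a => ![Real.cos a, 0, Real.sin a]) (0, c)
    (by funext i; fin_cases i <;> simp [e0])
    (fun a => by simp)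
    (by
      have h := (pt_diff (s • b 0) (s • b 2) (t • b 3)) 0
      have h2 : (fun a : ℝ => pt (vecO b ![Real.cos a, 0, Real.sin a] s t))
          = fun a : ℝ => pt (((Real.cos a : ℝ) : ℂ) • (s • b 0) +
            ((Real.sin a : ℝ) : ℂ) • (s • b 2) + t • b 3) := by
        funext a
        rw [vecO_eq]
        simp only [Matrix.cons_val_zero, Matrix.cons_val_one, Matrix.cons_val, smul_smul,
          Complex.ofReal_zero, mul_zero, zero_smul, add_zero]
        rw [mul_comm s, mul_comm s]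
      rw [h2]
      exact h)
    (hz.prodMk hsin)
  rintro ⟨w1, w2⟩
  refine ⟨(w1 / c) • y1 + (w2 / c) • y2, ?_⟩
  rw [map_add, map_smul, map_smul, hy1, hy2]
  ext
  · simp [div_mul_cancel₀ _ hc]
  · simp [div_mul_cancel₀ _ hc]

end Pool.Agent.H11.SO
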