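import Pool.Agent.H11.ST.ArcA
import Pool.Agent.H11.ST.ImpI
import Pool.Agent.H11.SO.RedO
import Pool.Agent.H11.SO.SubO
import Pool.Agent.H11.SO.SlO
import Pool.Agent.H11.SO.RotO

/-! The reduced curve is an arc near an interior point. -/

set_option autoImplicit false

open scoped ContDiff Topology
open Topology

namespace Pool.Agent.H11.SO

open Pool.Agent.H66.SyL Pool.Agent.H11.ST

variable {b : Bas} {L : Set (Op 3)}

private theorem slO_ax (P : Op 3) (s t : ℂ) : slO b P (pt (vecO b e0 s t)) = 0 := by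
  obtain ⟨-, i1, i2, -⟩ := inner_vecO b e0 s t
  have h1 : (e0 1 : ℂ) = 0 := by simp [e0]
  have h2 : (e0 2 : ℂ) = 0 := by simp [e0]
  unfold slO
  rw [ent_pt, ent_pt, i1, i2, h1, h2]
  simp

/-- Proof (as ST/LocI.lean, which is proved): chart C (exists_lchart), W from slo_axis, (ε, σ, κ, O) from imp_i
with sub_o for f = slO b P. c a = kap (σ a). Injective by slo_axis. Open: R = σ a is on the axis (slo_axis),
V = nbhd of R in O where κ in J on L; rot_axis: for Q in L near R a point of the axis in V (in L by sat, slO = 0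
on the axis) with the same kap; redMap_kap.op. Then arc_of. -/
theorem loc_o (hL : IsLagrangian L) (hc : IsCompact L) (hO : Orth b L) {s t : ℂ}
    (hu : UnitO e0 s t) (hs : s ≠ 0) (ht : t ≠ 0) (hP : pt (vecO b e0 s t) ∈ L)
    (w : kap b '' L) (hw : (w : ℂ × ℝ) = kap b (pt (vecO b e0 s t))) : ArcAt w := by
  obtain ⟨C, hPC⟩ := exists_lchart hL hP
  obtain ⟨W, hW, hax, hinj⟩ := slo_axis hO hu hs ht hP
  obtain ⟨ε, σ, κ, O, hε, hOo, hPO, hOW, hσ, hκ, hσ0, h3, h4⟩ :=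
    imp_i C ⟨hP, hPC⟩ (slO b (pt (vecO b e0 s t))) (contDiff_slO b _) (slO_ax _ s t)
      (sub_o hO C hu hs ht ⟨hP, hPC⟩) hW
  have hmem : kap b (σ 0) ∈ kap b '' L := by
    rw [hσ0]
    exact Set.mem_image_of_mem _ hP
  have key := arc_of (kap b '' L) (c := fun a => kap b (σ a)) hε
    ((continuous_kap b).comp_continuousOn hσ)
    (by
      intro s1 hs1 t1 ht1 hst
      obtain ⟨a1, a2, a3⟩ := h3 s1 hs1
      obtain ⟨b1, b2, b3⟩ := h3 t1 ht1
      have h5 : σ s1 = σ t1 := hinj _ ⟨a1.1, hOW a1.2⟩ _ ⟨b1.1, hOW b1.2⟩ a2 b2 hst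
      rw [← a3, ← b3, h5])
    (by
      intro a ha
      exact Set.mem_image_of_mem _ (h3 a ha).1.1)
    (by
      intro a ha J hJ
      obtain ⟨t1, t2, t3⟩ := h3 a ha
      have h5 : κ ⁻¹' J ∈ 𝓝[L ∩ O] (σ a) := by
        refine (hκ (σ a) t1).preimage_mem_nhdsWithin ?_
        rw [t3]
        exact hJ
      obtain ⟨V1, hV1, hV2⟩ := mem_nhdsWithin_iff_exists_mem_nhds_inter.1 h5
      have hV : V1 ∩ O ∈ 𝓝 (σ a) := Filter.inter_mem hV1 (hOo.mem_nhds t1.2)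
      obtain ⟨s', t', hs', hu', hR⟩ := hax _ ⟨t1.1, hOW t1.2⟩ t2
      have hVR : V1 ∩ O ∈ 𝓝 (pt (vecO b e0 s' t')) := by rw [hR]; exact hV
      have hRL : pt (vecO b e0 s' t') ∈ L := by rw [hR]; exact t1.1
      have h6 := rot_axis hO hu' hs' hRL hVR
      have h7 := (redMap_kap hc hO).op _ hRL _ h6
      rw [hR] at h7
      filter_upwards [h7] with w' hw'
      obtain ⟨Q, ⟨hQL, s2, t2', hu2, hQ1, hQ2⟩, hQw⟩ := hw'
      have hQ3 : pt (vecO b e0 s2 t2') ∈ L := hO.sat Q hQL _ _ _ hu2 hQ2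
      obtain ⟨h8, h9⟩ := h4 _ ⟨hQ3, hQ1.2⟩ (slO_ax _ s2 t2')
      refine ⟨κ (pt (vecO b e0 s2 t2')), ⟨hV2 ⟨hQ1.1, hQ3, hQ1.2⟩, h8⟩, ?_⟩
      show kap b (σ (κ (pt (vecO b e0 s2 t2')))) = w'
      rw [h9, hQ2, hQw])
    hmem
  have e : (⟨kap b (σ 0), hmem⟩ : kap b '' L) = w := by
    refine Subtype.ext ?_
    rw [hw, ← hσ0]
  rw [← e]
  exact key

end Pool.Agent.H11.SO
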