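import Pool.Agent.H11.SO.TwoA
import Pool.Agent.H11.ST.Gm
import Pool.Agent.H11.ST.Inj

/-! Parametrisation of the reduced curve. -/

set_option autoImplicit false

open scoped Topology NNReal
open Topology MeasureTheory

namespace Pool.Agent.H11.SO

open Pool.Agent.H11.ST

/-- among two different points one is not `y` -/
private theorem exists_ne_of_end {Y : Type*} [TopologicalSpace Y] {K : Set Y} {y y' : Y} (x : K) (hx : (x : Y) = y)
    (he : EndAt x) : ∃ x0 : K, (x0 : Y) ≠ y ∧ (x0 : Y) ≠ y' := by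
  obtain ⟨e, he1, he0, -⟩ := he Set.univ Filter.univ_mem
  have hinj := he1.injective
  have h1 : ((e 1 : K) : Y) ≠ y := by
    intro h
    have h2 : e 1 = e 0 := by
      rw [he0]
      exact Subtype.ext (h.trans hx.symm)
    exact one_ne_zero (hinj h2)
  have h2 : ((e 2 : K) : Y) ≠ y := by
    intro h
    have h2 : e 2 = e 0 := by
      rw [he0]
      exact Subtype.ext (h.trans hx.symm)
    exact two_ne_zero (hinj h2)
  by_cases h3 : ((e 1 : K) : Y) = y'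
  · refine ⟨e 2, h2, fun h4 => ?_⟩
    have h5 : e 1 = e 2 := Subtype.ext (h3.trans h4.symm)
    have h6 := hinj h5
    have h7 : (1 : ℝ) = 2 := by exact_mod_cast congrArg NNReal.toReal h6
    norm_num at h7
  · exact ⟨e 1, h1, h3⟩

/-- Proof: some x0 in K is different from y0, y1 (K is not empty; if x = y0 or y1 is in K, the injective map e of
EndAt has infinite range). ArcAt x0, it cuts K (exists_side or directly), end_in_side on both sides gives two different points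
of K which are not ArcAt, so they are y0 and y1. exists_gm, homeo_of_gm. -/
theorem arc_param {Y : Type*} [TopologicalSpace Y] [T2Space Y] {K : Set Y} (hK : IsCompact K)
    (hKc : IsConnected K) {y0 y1 : Y} (hy : y0 ≠ y1)
    (hI : ∀ x : K, (x : Y) ≠ y0 → (x : Y) ≠ y1 → ArcAt x)
    (h0 : ∀ x : K, (x : Y) = y0 → EndAt x) (h1 : ∀ x : K, (x : Y) = y1 → EndAt x)
    (hcut : ∀ x : K, ArcAt x → ¬ IsPreconnected ({x}ᶜ : Set K)) :
    ∃ h : Set.Icc (0 : ℝ) 1 ≃ₜ K, ((h 0 : K) : Y) = y0 ∧ ((h 1 : K) : Y) = y1 := by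
  classical
  have _ : CompactSpace K := isCompact_iff_compactSpace.1 hK
  have _ : ConnectedSpace K := isConnected_iff_connectedSpace.1 hKc
  have hAE : ∀ x : K, ArcAt x ∨ EndAt x := by
    intro x
    by_cases hx0 : (x : Y) = y0
    · exact Or.inr (h0 x hx0)
    · by_cases hx1 : (x : Y) = y1
      · exact Or.inr (h1 x hx1)
      · exact Or.inl (hI x hx0 hx1)
  obtain ⟨x0, hx0, hx1⟩ : ∃ x0 : K, (x0 : Y) ≠ y0 ∧ (x0 : Y) ≠ y1 := by
    obtain ⟨x, hx⟩ := hKc.nonempty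
    by_cases hx0 : x = y0
    · exact exists_ne_of_end ⟨x, hx⟩ hx0 (h0 ⟨x, hx⟩ hx0)
    · by_cases hx1 : x = y1
      · obtain ⟨z, hz1, hz2⟩ := exists_ne_of_end (y' := y0) ⟨x, hx⟩ hx1 (h1 ⟨x, hx⟩ hx1)
        exact ⟨z, hz2, hz1⟩
      · exact ⟨⟨x, hx⟩, hx0, hx1⟩
  have hArc := hI x0 hx0 hx1
  have hnp := hcut x0 hArc
  obtain ⟨A, B, hA, hB, hAB, hd, hAn, hBn⟩ : ∃ A B : Set K, IsOpen A ∧ IsOpen B ∧ A ∪ B = {x0}ᶜ ∧ Disjoint A B ∧
      A.Nonempty ∧ B.Nonempty := by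
    unfold IsPreconnected at hnp
    push Not at hnp
    obtain ⟨u, v, hu, hv, hs, hsu, hsv, hsuv⟩ := hnp
    refine ⟨{x0}ᶜ ∩ u, {x0}ᶜ ∩ v, isOpen_compl_singleton.inter hu, isOpen_compl_singleton.inter hv, ?_, ?_, hsu, hsv⟩
    · rw [← Set.inter_union_distrib_left]
      exact Set.inter_eq_left.2 hs
    · rw [Set.disjoint_left]
      rintro z ⟨hz1, hz2⟩ ⟨_, hz3⟩
      have h5 : z ∈ ({x0}ᶜ : Set K) ∩ (u ∩ v) := ⟨hz1, hz2, hz3⟩
      rw [hsuv] at h5
      exact h5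
  obtain ⟨p, hpA, hp⟩ := end_in_side hAE hcut hArc hA hB hAB hd hAn hBn
  obtain ⟨q, hqB, hq⟩ := end_in_side hAE hcut hArc hB hA (by rw [Set.union_comm]; exact hAB) hd.symm hBn hAn
  have hpq : p ≠ q := by
    rintro rfl
    exact Set.disjoint_left.1 hd hpA hqB
  have hcase : ∀ z : K, ¬ ArcAt z → (z : Y) = y0 ∨ (z : Y) = y1 := by
    intro z hz
    by_contra hcon
    push Not at hcon
    exact hz (hI z hcon.1 hcon.2)
  obtain ⟨P, Q, hP, hQ⟩ : ∃ P Q : K, (P : Y) = y0 ∧ (Q : Y) = y1 := by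
    rcases hcase p hp with h2 | h2 <;> rcases hcase q hq with h3 | h3
    · exact absurd (Subtype.ext (h2.trans h3.symm)) hpq
    · exact ⟨p, q, h2, h3⟩
    · exact ⟨q, p, h3, h2⟩
    · exact absurd (Subtype.ext (h2.trans h3.symm)) hpq
  have hPQ : P ≠ Q := by
    rintro rfl
    exact hy (hP.symm.trans hQ)
  have hI' : ∀ x : K, x ≠ P → x ≠ Q → ArcAt x := fun x hx hx' => hI x
    (fun h2 => hx (Subtype.ext (h2.trans hP.symm))) (fun h2 => hx' (Subtype.ext (h2.trans hQ.symm)))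
  obtain ⟨g, hg1, hg2, hg3, hg4, hg5, hg6⟩ := exists_gm hPQ hI' (h0 P hP) (h1 Q hQ)
    (fun x hx hx' => hcut x (hI' x hx hx'))
  obtain ⟨h, hh0, hh1⟩ := homeo_of_gm hPQ g hg1 hg2 hg3 hg4 hg5 hg6
  exact ⟨h, by rw [hh0]; exact hP, by rw [hh1]; exact hQ⟩

end Pool.Agent.H11.SO
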