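import Pool.Agent.H11.SO.SqD
import Pool.Agent.H11.SO.ContO
import Pool.Agent.H11.SO.FibO

/-! The map from the 3-sphere to L. -/

set_option autoImplicit false

open scoped Topology
open Topology

namespace Pool.Agent.H11.SO

open Pool.Agent.H66.SyL Pool.Agent.H11.ST

variable {b : Bas} {L : Set (Op 3)}

/-- the curve of reduced points, the parameter clamped to [0, 1] -/
private noncomputable def cur (h : Set.Icc (0 : ℝ) 1 ≃ₜ (kap b '' L)) (t : ℝ) : ℂ × ℝ :=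
  ((h (Set.projIcc (0 : ℝ) 1 zero_le_one t) : kap b '' L) : ℂ × ℝ)

private theorem cur_of_mem (h : Set.Icc (0 : ℝ) 1 ≃ₜ (kap b '' L)) {t : ℝ} (ht : t ∈ Set.Icc (0 : ℝ) 1) :
    cur h t = ((h ⟨t, ht⟩ : kap b '' L) : ℂ × ℝ) := by
  unfold cur
  rw [Set.projIcc_of_mem zero_le_one ht]

private theorem cur_mem (h : Set.Icc (0 : ℝ) 1 ≃ₜ (kap b '' L)) (t : ℝ) : cur h t ∈ kap b '' L :=
  (h (Set.projIcc (0 : ℝ) 1 zero_le_one t)).2

private theorem cur_cont (h : Set.Icc (0 : ℝ) 1 ≃ₜ (kap b '' L)) : Continuous (cur h) :=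
  continuous_subtype_val.comp (h.continuous.comp continuous_projIcc)

private theorem cur_inj (h : Set.Icc (0 : ℝ) 1 ≃ₜ (kap b '' L)) {s t : ℝ} (hs : s ∈ Set.Icc (0 : ℝ) 1)
    (ht : t ∈ Set.Icc (0 : ℝ) 1) (he : cur h s = cur h t) : s = t := by
  rw [cur_of_mem h hs, cur_of_mem h ht] at he
  have h1 := h.injective (Subtype.ext he)
  exact congrArg Subtype.val h1

/-- Proof (as ST/Psi.lean): (F t, ρ t) = h (t clamped to [0, 1]); 0 < ρ t < 1 for 0 < t < 1 because h is injective and a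
point of kap L with second coordinate 0 or 1 is (0, 0) or (0, 1) (norm_fst). D from exists_D. Psi y = pt (zO b D ρ y):
in L by zO_form and Orth.sat, continuous by continuousOn_zO, surjective by Orth.form and zO_surj, fibres by
zO_fib (kap gives h (y_3^2)), zO_neg. -/
theorem exists_psiO (hO : Orth b L) (h : Set.Icc (0 : ℝ) 1 ≃ₜ (kap b '' L))
    (h0 : ((h 0 : kap b '' L) : ℂ × ℝ) = (0, 0)) (h1 : ((h 1 : kap b '' L) : ℂ × ℝ) = (0, 1)) :
    ∃ Ψ : Metric.sphere (0 : EuclideanSpace ℝ (Fin 4)) 1 → L, Continuous Ψ ∧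
      Function.Surjective Ψ ∧ ∀ x y, Ψ x = Ψ y ↔
        ((x : EuclideanSpace ℝ (Fin 4)) = y ∨ (x : EuclideanSpace ℝ (Fin 4)) = -y) := by
  have m0 : (0 : ℝ) ∈ Set.Icc (0 : ℝ) 1 := ⟨le_rfl, zero_le_one⟩
  have m1 : (1 : ℝ) ∈ Set.Icc (0 : ℝ) 1 := ⟨zero_le_one, le_rfl⟩
  have c0 : cur h 0 = (0, 0) := by
    rw [cur_of_mem h m0]
    exact h0
  have c1 : cur h 1 = (0, 1) := by
    rw [cur_of_mem h m1]
    exact h1
  set F : ℝ → ℂ := fun t => (cur h t).1 with hF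
  set ρ : ℝ → ℝ := fun t => (cur h t).2 with hρ
  have hn : ∀ t, ‖F t‖ = ρ t * (1 - ρ t) ∧ 0 ≤ ρ t ∧ ρ t ≤ 1 := fun t => hO.norm_fst (cur_mem h t)
  have hFc : Continuous F := continuous_fst.comp (cur_cont h)
  have hρc : Continuous ρ := continuous_snd.comp (cur_cont h)
  have ρ0 : ρ 0 = 0 := by
    simp only [hρ, c0]
  have ρ1 : ρ 1 = 1 := by
    simp only [hρ, c1]
  have hi : ∀ t ∈ Set.Ioo (0 : ℝ) 1, 0 < ρ t ∧ ρ t < 1 := by
    intro t ht
    obtain ⟨n1, n2, n3⟩ := hn t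
    have mt : t ∈ Set.Icc (0 : ℝ) 1 := Set.Ioo_subset_Icc_self ht
    refine ⟨lt_of_le_of_ne n2 fun he => ?_, lt_of_le_of_ne n3 fun he => ?_⟩
    · have hFt : F t = 0 := by
        rw [← he] at n1
        rw [zero_mul] at n1
        exact norm_eq_zero.1 n1
      have h2 : cur h t = cur h 0 := by
        rw [c0]
        exact Prod.ext hFt he.symm
      exact ht.1.ne' (cur_inj h mt m0 h2)
    · have hFt : F t = 0 := by
        rw [he, sub_self, mul_zero] at n1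
        exact norm_eq_zero.1 n1
      have h2 : cur h t = cur h 1 := by
        rw [c1]
        exact Prod.ext hFt he
      exact ht.2.ne (cur_inj h mt m1 h2)
  have hi' : ∀ t ∈ Set.Icc (0 : ℝ) 1, 0 ≤ ρ t ∧ ρ t ≤ 1 := fun t _ => (hn t).2
  obtain ⟨D, hD, hDc, hFD⟩ := exists_D F ρ hFc.continuousOn (fun t _ => (hn t).1) ρ0 ρ1 hi
  have hcur : ∀ t ∈ Set.Icc (0 : ℝ) 1, cur h t = (((ρ t * (1 - ρ t) : ℝ) : ℂ) * D t ^ 2, ρ t) := by
    intro t ht
    rw [← hFD t ht]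
  have hsph : ∀ y : Metric.sphere (0 : EuclideanSpace ℝ (Fin 4)) 1, ‖(y : EuclideanSpace ℝ (Fin 4))‖ = 1 :=
    fun y => mem_sphere_zero_iff_norm.1 y.2
  have hkap : ∀ y : EuclideanSpace ℝ (Fin 4), ‖y‖ = 1 →
      y 3 ^ 2 ∈ Set.Icc (0 : ℝ) 1 ∧ kap b (pt (zO b D ρ y)) = cur h (y 3 ^ 2) := by
    intro y hy
    obtain ⟨h2, _, h3⟩ := zO_form b D ρ hD ρ0 ρ1 hi' hy
    exact ⟨h2, by rw [h3, hcur _ h2]⟩
  have hmem : ∀ y : EuclideanSpace ℝ (Fin 4), ‖y‖ = 1 → pt (zO b D ρ y) ∈ L := by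
    intro y hy
    obtain ⟨h2, ⟨x, s, t, hu, hx⟩, _⟩ := zO_form b D ρ hD ρ0 ρ1 hi' hy
    obtain ⟨P, hP, hPk⟩ := cur_mem h (y 3 ^ 2)
    rw [← hx]
    refine hO.sat P hP x s t hu ?_
    rw [hx, (hkap y hy).2, hPk]
  refine ⟨fun y => ⟨pt (zO b D ρ y), hmem y (hsph y)⟩, ?_, ?_, ?_⟩
  · refine Continuous.subtype_mk ?_ _
    exact (continuousOn_zO b D ρ hD hDc hρc.continuousOn ρ0 ρ1 hi').restrict
  · rintro ⟨Q, hQ⟩
    obtain ⟨x, s, t, hu, rfl⟩ := hO.form Q hQ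
    obtain ⟨τ, hτ⟩ := h.surjective ⟨kap b (pt (vecO b x s t)), Set.mem_image_of_mem _ hQ⟩
    have hk : kap b (pt (vecO b x s t)) = cur h (τ : ℝ) := by
      rw [cur_of_mem h τ.2]
      have : (⟨(τ : ℝ), τ.2⟩ : Set.Icc (0 : ℝ) 1) = τ := rfl
      rw [this, hτ]
    rw [hcur _ τ.2] at hk
    obtain ⟨y, hy, _, hyp⟩ := zO_surj b D ρ hD ρ0 ρ1 hi' hi τ.2 hu hk
    exact ⟨⟨y, mem_sphere_zero_iff_norm.2 hy⟩, Subtype.ext hyp⟩
  · intro x y
    have hx := hsph x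
    have hy := hsph y
    constructor
    · intro he
      have he' : pt (zO b D ρ x) = pt (zO b D ρ y) := congrArg Subtype.val he
      obtain ⟨mx, kx⟩ := hkap x hx
      obtain ⟨my, ky⟩ := hkap y hy
      have h2 : cur h ((x : EuclideanSpace ℝ (Fin 4)) 3 ^ 2) = cur h ((y : EuclideanSpace ℝ (Fin 4)) 3 ^ 2) := by
        rw [← kx, ← ky, he']
      exact zO_fib b D ρ hD ρ0 ρ1 hi hx hy (cur_inj h mx my h2) he'
    · rintro (he | he)
      · refine Subtype.ext ?_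
        show pt (zO b D ρ x) = pt (zO b D ρ y)
        rw [he]
      · refine Subtype.ext ?_
        show pt (zO b D ρ x) = pt (zO b D ρ y)
        rw [he, zO_neg]
        have h2 : -zO b D ρ (y : EuclideanSpace ℝ (Fin 4)) = (-1 : ℂ) • zO b D ρ (y : EuclideanSpace ℝ (Fin 4)) := by
          rw [neg_one_smul]
        rw [h2, pt_smul (by rw [norm_neg, norm_one])]

end Pool.Agent.H11.SO
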