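import Pool.Agent.H11.SO.CutG
import Pool.Agent.H11.SO.BasO
import Pool.Agent.H11.SO.LocO
import Pool.Agent.H11.SO.LocA
import Pool.Agent.H11.SO.LocB
import Pool.Agent.H11.SO.Param
import Pool.Agent.H11.SO.PsiO
import Pool.Agent.H11.ST.Rho

/-! Orthogonal Lagrangian rational homology 3-spheres in CP^3 are homeomorphic to RP^3. -/

set_option autoImplicit false

open scoped ContDiff Topology
open Topology

namespace Pool.Agent.H11.SO

open Pool.Agent.H66.SyL Pool.Agent.H11.ST

private theorem norm_one_of_sq {c : ℂ} (h : ‖c‖ ^ 2 = 1) : ‖c‖ = 1 := by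
  have h1 := norm_nonneg c
  nlinarith

theorem orth_main {L : Set (Op 3)} (hL : IsLagrangian L) (hc : IsCompact L) (hconn : IsConnected L)
    (h1 : H1Zero L) {b : Bas} (hO : Orth b L) : Nonempty (L ≃ₜ RP3) := by
  have hR := redMap_kap hc hO
  have hy : ((0 : ℂ), (0 : ℝ)) ≠ ((0 : ℂ), (1 : ℝ)) := by
    intro h
    have h2 := congrArg Prod.snd h
    simp at h2
  obtain ⟨h, hh0, hh1⟩ := arc_param (K := kap b '' L) (hc.image (continuous_kap b))
    (hconn.image _ (continuous_kap b).continuousOn) hy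
    (by
      rintro ⟨w, hw⟩ hw0 hw1
      obtain ⟨P, hP, hPw⟩ := hw
      obtain ⟨x, s, t, hu, hPx⟩ := hO.form P hP
      obtain ⟨b', hO', hk, hv⟩ := exists_basis b L hu.1 hO
      have hu' : UnitO e0 s t := ⟨by simp [e0], hu.2⟩
      have hkw : w = (s ^ 2 * (starRingEnd ℂ) t ^ 2, ‖t‖ ^ 2) := by
        rw [← hPw, ← hPx, kap_vecO b hu]
      have hs : s ≠ 0 := by
        intro h
        apply hw1
        have ht : ‖t‖ ^ 2 = 1 := by
          have := hu.2
          rw [h, norm_zero] at this
          linarith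
        show w = _
        rw [hkw, h, ht]
        simp
      have ht : t ≠ 0 := by
        intro h
        apply hw0
        show w = _
        rw [hkw, h]
        simp
      have hP' : pt (vecO b' e0 s t) ∈ L := by rw [hv, hPx]; exact hP
      have key := loc_o hL hc hO' hu' hs ht hP'
      rw [hk] at key
      refine key _ ?_
      show w = _
      rw [hv, hPx, hPw])
    (by
      rintro ⟨w, hw⟩ hw0
      have hw0' : w = ((0 : ℂ), (0 : ℝ)) := hw0
      obtain ⟨P, hP, hPw⟩ := hw
      obtain ⟨x, s, t, hu, hPx⟩ := hO.form P hP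
      obtain ⟨b', hO', hk, hv⟩ := exists_basis b L hu.1 hO
      have hkw : w = (s ^ 2 * (starRingEnd ℂ) t ^ 2, ‖t‖ ^ 2) := by
        rw [← hPw, ← hPx, kap_vecO b hu]
      have ht : t = 0 := by
        have h2 := congrArg Prod.snd (hkw.symm.trans hw0')
        simpa using h2
      have hs : ‖s‖ = 1 := by
        have h2 := hu.2
        rw [ht, norm_zero] at h2
        have h3 : ‖s‖ ^ 2 = 1 := by linarith
        exact norm_one_of_sq h3
      have hPP : pt (vecO b' e0 1 0) = P := by
        rw [hv, ← hPx, ht]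
        have h4 := pt_phase b (x := x) (s := 1) (t := 0) hs
        rw [mul_one, mul_zero] at h4
        exact h4.symm
      have hP' : pt (vecO b' e0 1 0) ∈ L := by rw [hPP]; exact hP
      have key := loc_a hL hc hO' hP'
      rw [hk] at key
      refine key _ ?_
      show w = _
      rw [hPP, hPw])
    (by
      rintro ⟨w, hw⟩ hw1
      have hw1' : w = ((0 : ℂ), (1 : ℝ)) := hw1
      obtain ⟨P, hP, hPw⟩ := hw
      obtain ⟨x, s, t, hu, hPx⟩ := hO.form P hP
      have hkw : w = (s ^ 2 * (starRingEnd ℂ) t ^ 2, ‖t‖ ^ 2) := by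
        rw [← hPw, ← hPx, kap_vecO b hu]
      have ht : ‖t‖ ^ 2 = 1 := congrArg Prod.snd (hkw.symm.trans hw1')
      have ht1 : ‖t‖ = 1 := norm_one_of_sq ht
      have hs : s = 0 := by
        have h2 := hu.2
        have h3 : ‖s‖ ^ 2 = 0 := by linarith
        exact norm_eq_zero.mp (pow_eq_zero_iff (two_ne_zero)|>.mp h3)
      have hPP : pt (vecO b e0 0 1) = P := by
        rw [← hPx, hs]
        have h4 := pt_phase b (x := e0) (s := 0) (t := 1) ht1
        rw [mul_one, mul_zero] at h4
        rw [← h4]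
        simp [vecO]
      have hP' : pt (vecO b e0 0 1) ∈ L := by rw [hPP]; exact hP
      refine loc_b hL hc hO hP' _ ?_
      show w = _
      rw [hPP, hPw])
    (by
      intro x hx
      obtain ⟨e, he, he0, -⟩ := hx Set.univ Filter.univ_mem
      rw [← he0]
      exact cut_gen hR h1 e he)
  obtain ⟨Ψ, hΨ, hΨs, hΨf⟩ := exists_psiO hO h hh0 hh1
  obtain ⟨r, hr, hrs, hrf⟩ := exists_rho
  exact homeo_of_maps Ψ r hΨ hr hΨs hrs fun x y => (hΨf x y).trans (hrf x y).symm

end Pool.Agent.H11.SO
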