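import Pool.Agent.H11.SO.EntO

/-! Normal form of two points in a fibre of kap. -/

set_option autoImplicit false

open scoped ContDiff Topology

namespace Pool.Agent.H11.SO

open Pool.Agent.H66.SyL Pool.Agent.H11.ST

variable {b : Bas} {L : Set (Op 3)}

/-- Proof: P = pt (vecO x s t), Q = pt (vecO x1 s1 t1), |t1| = |t|, |s1| = |s|, s1^2 conj t1^2 = s^2 conj t^2.
If t ≠ 0 multiply the second lift by a phase so that t1 = t; then s1 = s or -s; replace x1 by -x1 (pt_neg).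
If t = 0 multiply so that s1 = s. -/
theorem normal_form {x x1 : Fin 3 → ℝ} {s t s1 t1 : ℂ} (h : UnitO x s t) (h1 : UnitO x1 s1 t1)
    (hk : kap b (pt (vecO b x s t)) = kap b (pt (vecO b x1 s1 t1))) :
    ∃ x2 : Fin 3 → ℝ, UnitO x2 s t ∧ pt (vecO b x2 s t) = pt (vecO b x1 s1 t1) := by
  rw [kap_vecO b h, kap_vecO b h1, Prod.mk.injEq] at hk
  obtain ⟨hk1, hk2⟩ := hk
  have ht : ‖t‖ = ‖t1‖ := by
    have := (sq_eq_sq₀ (norm_nonneg t) (norm_nonneg t1)).1 hk2
    exact this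
  have hs : ‖s‖ = ‖s1‖ := by
    have h2 := h.2
    have h3 := h1.2
    rw [← ht] at h3
    exact (sq_eq_sq₀ (norm_nonneg s) (norm_nonneg s1)).1 (by linarith)
  rcases eq_or_ne t 0 with h0 | h0
  · have ht1 : t1 = 0 := by
      rw [h0, norm_zero] at ht
      exact norm_eq_zero.1 ht.symm
    have hs1 : s1 ≠ 0 := by
      intro hz
      have h3 := h1.2
      rw [hz, ht1, norm_zero] at h3
      norm_num at h3
    have hc : ‖s / s1‖ = 1 := by
      rw [norm_div, hs, div_self (norm_ne_zero_iff.2 hs1)]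
    refine ⟨x1, ⟨h1.1, h.2⟩, ?_⟩
    rw [← pt_phase b (x := x1) (s := s1) (t := t1) hc, div_mul_cancel₀ s hs1, ht1, mul_zero, h0]
  · have ht1 : t1 ≠ 0 := by
      intro hz
      rw [hz, norm_zero] at ht
      exact h0 (norm_eq_zero.1 ht)
    have hc : ‖t / t1‖ = 1 := by
      rw [norm_div, ht, div_self (norm_ne_zero_iff.2 ht1)]
    have hcc : (t / t1) * (starRingEnd ℂ) (t / t1) = 1 := by
      rw [Complex.mul_conj, Complex.normSq_eq_norm_sq, hc]
      norm_num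
    have hct : (starRingEnd ℂ) t = (starRingEnd ℂ) (t / t1) * (starRingEnd ℂ) t1 := by
      rw [← map_mul, div_mul_cancel₀ t ht1]
    have hct0 : (starRingEnd ℂ) t ^ 2 ≠ 0 := pow_ne_zero 2 ((map_ne_zero _).2 h0)
    have hsq : ((t / t1) * s1) ^ 2 = s ^ 2 := by
      apply mul_right_cancel₀ hct0
      rw [hk1]
      calc ((t / t1) * s1) ^ 2 * (starRingEnd ℂ) t ^ 2
          = ((t / t1) * s1) ^ 2 * ((starRingEnd ℂ) (t / t1) * (starRingEnd ℂ) t1) ^ 2 := by rw [← hct]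
        _ = ((t / t1) * (starRingEnd ℂ) (t / t1)) ^ 2 * (s1 ^ 2 * (starRingEnd ℂ) t1 ^ 2) := by ring
        _ = s1 ^ 2 * (starRingEnd ℂ) t1 ^ 2 := by rw [hcc]; ring
    have hpt : pt (vecO b x1 s1 t1) = pt (vecO b x1 ((t / t1) * s1) t) := by
      rw [← pt_phase b (x := x1) (s := s1) (t := t1) hc, div_mul_cancel₀ t ht1]
    rcases sq_eq_sq_iff_eq_or_eq_neg.1 hsq with h4 | h4
    · refine ⟨x1, ⟨h1.1, h.2⟩, ?_⟩
      rw [hpt, h4]
    · refine ⟨-x1, ⟨?_, h.2⟩, ?_⟩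
      · have h5 := h1.1
        simp only [Pi.neg_apply, neg_sq]
        exact h5
      · rw [hpt, h4, pt_neg]

end Pool.Agent.H11.SO
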