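import Pool.Agent.H11.SO.Defs

/-! A continuous square root of the phase. -/

set_option autoImplicit false

open scoped Topology
open Topology

namespace Pool.Agent.H11.SO

/-- Proof: F does not vanish on (0, 1), which is simply connected (homeomorphic to the line, contractible): lift
of F / |F| through the covering Circle -> Circle, or a continuous argument θ with F = |F| exp (i θ) on (0, 1)
(lifting through exp / Circle.exp, or by an increasing sequence of compact intervals), D = exp (i θ / 2) on (0, 1),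
D = 1 outside. -/
theorem exists_D (F : ℝ → ℂ) (ρ : ℝ → ℝ) (hF : ContinuousOn F (Set.Icc 0 1))
    (hFρ : ∀ t ∈ Set.Icc (0 : ℝ) 1, ‖F t‖ = ρ t * (1 - ρ t)) (h0 : ρ 0 = 0) (h1 : ρ 1 = 1)
    (hi : ∀ t ∈ Set.Ioo (0 : ℝ) 1, 0 < ρ t ∧ ρ t < 1) :
    ∃ D : ℝ → ℂ, (∀ t, ‖D t‖ = 1) ∧ ContinuousOn D (Set.Ioo 0 1) ∧
      ∀ t ∈ Set.Icc (0 : ℝ) 1, F t = ((ρ t * (1 - ρ t) : ℝ) : ℂ) * D t ^ 2 := by
  classical
  have hsc : IsSimplyConnected (Set.Ioo (0 : ℝ) 1) := by
    haveI : ContractibleSpace (Set.Ioo (0 : ℝ) 1) :=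
      (convex_Ioo (0 : ℝ) 1).contractibleSpace ⟨1 / 2, by norm_num⟩
    exact SimplyConnectedSpace.ofContractible _
  have hne : ∀ t ∈ Set.Ioo (0 : ℝ) 1, F t ≠ 0 := by
    intro t ht h
    have h2 := hFρ t (Set.Ioo_subset_Icc_self ht)
    rw [h, norm_zero] at h2
    obtain ⟨h3, h4⟩ := hi t ht
    have : 0 < ρ t * (1 - ρ t) := mul_pos h3 (by linarith)
    linarith
  obtain ⟨f, hf, hfp⟩ := Complex.exists_continuousOn_pow_eq hsc isOpen_Ioo (hF.mono Set.Ioo_subset_Icc_self)
    (by rintro ⟨t, ht, h⟩; exact hne t ht h) (n := 2) two_ne_zero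
  have hfne : ∀ t ∈ Set.Ioo (0 : ℝ) 1, f t ≠ 0 := by
    intro t ht h
    apply hne t ht
    rw [← hfp t, h]
    norm_num
  refine ⟨fun t => if t ∈ Set.Ioo (0 : ℝ) 1 then f t / ((‖f t‖ : ℝ) : ℂ) else 1, ?_, ?_, ?_⟩
  · intro t
    by_cases ht : t ∈ Set.Ioo (0 : ℝ) 1
    · simp only [if_pos ht]
      rw [norm_div, Complex.norm_real, norm_norm]
      exact div_self (norm_ne_zero_iff.2 (hfne t ht))
    · simp only [if_neg ht, norm_one]
  · have h2 : ContinuousOn (fun t => f t / ((‖f t‖ : ℝ) : ℂ)) (Set.Ioo 0 1) := by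
      refine hf.div (Complex.continuous_ofReal.comp_continuousOn hf.norm) ?_
      intro t ht h
      exact norm_ne_zero_iff.2 (hfne t ht) (Complex.ofReal_eq_zero.1 h)
    refine h2.congr fun t ht => ?_
    simp only [if_pos ht]
  · intro t ht
    by_cases ht' : t ∈ Set.Ioo (0 : ℝ) 1
    · simp only [if_pos ht']
      rw [← hFρ t ht, ← hfp t, norm_pow, div_pow]
      have h3 : ((‖f t‖ : ℝ) : ℂ) ≠ 0 := fun h => norm_ne_zero_iff.2 (hfne t ht') (Complex.ofReal_eq_zero.1 h)
      push_cast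
      field_simp
    · have h4 : t = 0 ∨ t = 1 := by
        rcases ht.1.lt_or_eq with h5 | h5
        · rcases ht.2.lt_or_eq with h6 | h6
          · exact absurd ⟨h5, h6⟩ ht'
          · exact Or.inr h6
        · exact Or.inl h5.symm
      have h5 : ρ t * (1 - ρ t) = 0 := by
        rcases h4 with rfl | rfl
        · rw [h0]; ring
        · rw [h1]; ring
      have h6 := hFρ t ht
      rw [h5] at h6 ⊢
      rw [norm_eq_zero.1 h6]
      simp

end Pool.Agent.H11.SO
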