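import Pool.Agent.H11.ST.GmA
import Pool.Agent.H11.ST.MeasA

/-! Each side of an interior point contains an end. -/

set_option autoImplicit false

open scoped Topology NNReal
open Topology MeasureTheory

namespace Pool.Agent.H11.SO

open Pool.Agent.H11.ST

/-- one version, with the left half of the arc in A -/
private theorem two_left {X : Type*} [TopologicalSpace X] [T2Space X] [CompactSpace X]
    [ConnectedSpace X] (h : ∀ x : X, ArcAt x ∨ EndAt x)
    (hcut : ∀ x : X, ArcAt x → ¬ IsPreconnected ({x}ᶜ : Set X)) {x0 : X}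
    {A B : Set X} (hA : IsOpen A) (hB : IsOpen B) (hAB : A ∪ B = {x0}ᶜ) (hd : Disjoint A B)
    (harc : ∀ p ∈ A, ArcAt p) {c : ℝ → X} (hc : IsOpenEmbedding c)
    (h0 : c 0 = x0) (hl : c '' Set.Iio 0 ⊆ A) (hr : c '' Set.Ioi 0 ⊆ B) : False := by
  classical
  let _ : MeasurableSpace X := borel X
  have _ : BorelSpace X := ⟨rfl⟩
  obtain ⟨μ, hμ1, hμ2, hμ3⟩ := exists_meas (X := X) h
  have hx0A : x0 ∉ A := by
    intro hx
    have : x0 ∈ ({x0}ᶜ : Set X) := by rw [← hAB]; exact Or.inl hx
    exact this rfl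
  have hx0B : x0 ∉ B := by
    intro hx
    have : x0 ∈ ({x0}ᶜ : Set X) := by rw [← hAB]; exact Or.inr hx
    exact this rfl
  have hAB' : ∀ y, y ∈ A → y ∉ B := fun y hy hy' => Set.disjoint_left.1 hd hy hy'
  have hcov : ∀ y, y ∈ A ∨ y = x0 ∨ y ∈ B := by
    intro y
    by_cases hy : y = x0
    · exact Or.inr (Or.inl hy)
    · have h1 : y ∈ A ∪ B := by rw [hAB]; exact hy
      rcases h1 with h1 | h1
      · exact Or.inl h1
      · exact Or.inr (Or.inr h1)
  have hBc : IsClosed (B ∪ {x0}) := by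
    have e : B ∪ {x0} = Aᶜ := by
      ext y
      simp only [Set.mem_union, Set.mem_singleton_iff, Set.mem_compl_iff]
      constructor
      · rintro (hy | rfl)
        · exact fun hy' => hAB' y hy' hy
        · exact hx0A
      · intro hy
        rcases hcov y with h1 | h1 | h1
        · exact absurd h1 hy
        · exact Or.inr h1
        · exact Or.inl h1
    rw [e]
    exact hA.isClosed_compl
  have hAc : IsClosed (A ∪ {x0}) := by
    have e : A ∪ {x0} = Bᶜ := by
      ext y
      simp only [Set.mem_union, Set.mem_singleton_iff, Set.mem_compl_iff]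
      constructor
      · rintro (hy | rfl)
        · exact hAB' y hy
        · exact hx0B
      · intro hy
        rcases hcov y with h1 | h1 | h1
        · exact Or.inl h1
        · exact Or.inr h1
        · exact absurd h1 hy
    rw [e]
    exact hB.isClosed_compl
  -- the function g
  obtain ⟨g, hg⟩ : ∃ g : X → ℝ, ∀ y ∈ A, ∀ S : Set X, IsSide x0 y S → g y = μ.real S := by
    refine ⟨fun y => if hy : ∃ S, IsSide x0 y S then μ.real hy.choose else 0, ?_⟩
    intro y hy S hS
    have hex : ∃ S, IsSide x0 y S := ⟨S, hS⟩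
    have e1 : (fun y => if hy : ∃ S, IsSide x0 y S then μ.real hy.choose else 0) y = μ.real hex.choose := dif_pos hex
    refine e1.trans ?_
    obtain ⟨c1, hc1, h10, -⟩ := harc y hy Set.univ Filter.univ_mem
    rw [side_unique hex.choose_spec hS hc1 h10]
  have hside : ∀ y ∈ A, ∃ S, IsSide x0 y S := by
    intro y hy
    refine exists_side ?_ (hcut y (harc y hy))
    rintro rfl
    exact hx0A hy
  -- the local form of g
  have hloc : ∀ y ∈ A, ∃ c1 : ℝ → X, IsOpenEmbedding c1 ∧ c1 0 = y ∧ Set.range c1 ⊆ A ∧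
      ∀ t, g (c1 t) = g y + μ.real (c1 '' Set.Iio t) - μ.real (c1 '' Set.Iio 0) := by
    intro y hy
    obtain ⟨c1, hc1, h10, h1A⟩ := harc y hy A (hA.mem_nhds hy)
    obtain ⟨S, hS⟩ := hside y hy
    have hp : x0 ∉ Set.range c1 := fun hp => hx0A (h1A hp)
    rw [← h10] at hS
    obtain ⟨c2, hc2, h20, h2r, h2⟩ := side_meas μ hc1 hp hS
    have h2A : Set.range c2 ⊆ A := by rw [h2r]; exact h1A
    refine ⟨c2, hc2, h20.trans h10, h2A, fun t => ?_⟩
    have ht : c2 t ∈ A := h2A ⟨t, rfl⟩
    obtain ⟨S', hS'⟩ := hside (c2 t) ht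
    rw [hg (c2 t) ht S' hS', h2 t S' hS', hg y hy S (by rw [← h10]; exact hS)]
  have hcont : ∀ y ∈ A, ContinuousAt g y := by
    intro y hy
    obtain ⟨c1, hc1, h10, h1A, h1⟩ := hloc y hy
    have h2 : Continuous (g ∘ c1) := by
      have e : g ∘ c1 = fun t => g y + μ.real (c1 '' Set.Iio t) - μ.real (c1 '' Set.Iio 0) := by
        funext t
        exact h1 t
      rw [e]
      exact (continuous_const.add (arc_meas μ hc1).1).sub continuous_const
    have h3 : ContinuousAt (g ∘ c1) 0 := h2.continuousAt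
    rw [hc1.continuousAt_iff, h10] at h3
    exact h3
  -- the side of c u
  have hu1 : ∀ u : ℝ, u < 0 → c u ∈ A := fun u hu => hl ⟨u, hu, rfl⟩
  have hD : ∀ u : ℝ, u < 0 → IsSide x0 (c u) (B ∪ c '' Set.Ioi u) := by
    intro u hu
    have e2 : B ∪ c '' Set.Ioi u ∪ {c u} = (B ∪ {x0}) ∪ c '' Set.Icc u 0 := by
      ext y
      constructor
      · rintro ((hy | ⟨v, hv, rfl⟩) | hy)
        · exact Or.inl (Or.inl hy)
        · have hv : u < v := hv
          rcases lt_or_ge 0 v with h1 | h1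
          · exact Or.inl (Or.inl (hr ⟨v, h1, rfl⟩))
          · exact Or.inr ⟨v, ⟨hv.le, h1⟩, rfl⟩
        · have hy : y = c u := hy
          rw [hy]
          exact Or.inr ⟨u, ⟨le_rfl, hu.le⟩, rfl⟩
      · rintro ((hy | hy) | ⟨v, hv, rfl⟩)
        · exact Or.inl (Or.inl hy)
        · have hy : y = x0 := hy
          rw [hy, ← h0]
          exact Or.inl (Or.inr ⟨0, hu, rfl⟩)
        · rcases hv.1.lt_or_eq with h1 | h1
          · exact Or.inl (Or.inr ⟨v, h1, rfl⟩)
          · rw [← h1]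
            exact Or.inr rfl
    refine ⟨hB.union (hc.isOpenMap _ isOpen_Ioi), ?_, ?_, ?_, ?_⟩
    · rw [e2]
      exact (hBc.union (isCompact_Icc.image hc.continuous).isClosed).isOpen_compl
    · rw [← h0]
      exact Or.inr ⟨0, hu, rfl⟩
    · rintro (hy | ⟨v, hv, hvu⟩)
      · exact hAB' _ (hu1 u hu) hy
      · have := hc.injective hvu
        have hv : u < v := hv
        linarith
    · refine ⟨c (u - 1), ?_⟩
      rintro ((hy | ⟨v, hv, hvu⟩) | hy)
      · exact hAB' _ (hu1 (u - 1) (by linarith)) hy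
      · have := hc.injective hvu
        have hv : u < v := hv
        linarith
      · have := hc.injective hy
        linarith
  have hgc : ∀ u : ℝ, u < 0 → g (c u) = μ.real (B ∪ c '' Set.Ioi u) := fun u hu =>
    hg (c u) (hu1 u hu) _ (hD u hu)
  have hdec : ∀ u : ℝ, -1 < u → u < 0 → g (c u) < g (c (-1)) := by
    intro u hu1' hu0
    rw [hgc u hu0, hgc (-1) (by norm_num)]
    have hopen : IsOpen (c '' Set.Ioo (-1) u) := hc.isOpenMap _ isOpen_Ioo
    have hne : (c '' Set.Ioo (-1) u).Nonempty := (Set.nonempty_Ioo.2 hu1').image c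
    have hpos : 0 < μ.real (c '' Set.Ioo (-1) u) :=
      ENNReal.toReal_pos (hopen.measure_pos μ hne).ne' (measure_ne_top μ _)
    have hdis : Disjoint (B ∪ c '' Set.Ioi u) (c '' Set.Ioo (-1) u) := by
      rw [Set.disjoint_left]
      rintro y (hy | ⟨v, hv, rfl⟩) ⟨w, hw, hwy⟩
      · rw [← hwy] at hy
        exact hAB' _ (hu1 w (by linarith [hw.2])) hy
      · have := hc.injective hwy
        have hv : u < v := hv
        linarith [hw.2]
    have hsub : (B ∪ c '' Set.Ioi u) ∪ c '' Set.Ioo (-1) u ⊆ B ∪ c '' Set.Ioi (-1) := by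
      rintro y ((hy | ⟨v, hv, rfl⟩) | ⟨w, hw, rfl⟩)
      · exact Or.inl hy
      · have hv : u < v := hv
        exact Or.inr ⟨v, by show (-1 : ℝ) < v; linarith, rfl⟩
      · exact Or.inr ⟨w, hw.1, rfl⟩
    have h1 := measureReal_mono (μ := μ) hsub
    rw [measureReal_union hdis hopen.measurableSet] at h1
    linarith
  -- the compact set
  set Z : Set X := (A ∪ {x0}) \ c '' Set.Ioo (-1) 1 with hZ
  have hZc : IsCompact Z := (hAc.sdiff (hc.isOpenMap _ isOpen_Ioo)).isCompact
  have hZA : Z ⊆ A := by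
    rintro y ⟨hy | hy, hy2⟩
    · exact hy
    · exfalso
      have hy : y = x0 := hy
      exact hy2 ⟨0, ⟨by norm_num, by norm_num⟩, by rw [hy, h0]⟩
  have hcZ : c (-1) ∈ Z := by
    refine ⟨Or.inl (hu1 _ (by norm_num)), ?_⟩
    rintro ⟨v, hv, hvu⟩
    have := hc.injective hvu
    linarith [hv.1]
  obtain ⟨y, hyZ, hymax⟩ := hZc.exists_isMaxOn ⟨_, hcZ⟩
    (fun z hz => (hcont z (hZA hz)).continuousWithinAt)
  obtain ⟨c1, hc1, h10, h1A, h1⟩ := hloc y (hZA hyZ)
  have h2 : g y < g (c1 1) := by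
    rw [h1 1]
    have := (arc_meas μ hc1).2 (show (0 : ℝ) < 1 by norm_num)
    have this : μ.real (c1 '' Set.Iio 0) < μ.real (c1 '' Set.Iio 1) := this
    linarith
  have h3 : c1 1 ∈ A := h1A ⟨1, rfl⟩
  have h4 : c1 1 ∉ Z := fun h4 => absurd (hymax h4) (not_le.2 h2)
  have h5 : c1 1 ∈ c '' Set.Ioo (-1) 1 := by
    by_contra h5
    exact h4 ⟨Or.inl h3, h5⟩
  obtain ⟨u, hu, huy⟩ := h5
  have hu0 : u < 0 := by
    by_contra hu0
    rcases (not_lt.1 hu0).lt_or_eq with h6 | h6
    · exact hAB' _ h3 (by rw [← huy]; exact hr ⟨u, h6, rfl⟩)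
    · rw [← h6, h0] at huy
      exact hx0A (by rw [huy]; exact h3)
  have h6 := hdec u hu.1 hu0
  rw [huy] at h6
  have h7 : g (c (-1)) ≤ g y := hymax hcZ
  linarith

/-- Proof: suppose all points of A are ArcAt. μ from exists_meas (borel), for y in A let S y be the side of y which
contains x0 (exists_side, side_unique), g y = μ (S y). For y in A take an arc c around y in A: by side_meas
(p = x0) and arc_meas g is continuous at y and is not a local maximum (g (c' 1) > g y, arbitrarily near).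
Arc c at x0: side_local (A is a side of x0 for every a in A), after c -> c(-t) c(-oo, 0) is in A, c(0, oo) in B. For
u < 0 the side of c u containing x0 is B ∪ c(u, oo), so g (c u) < g (c (-1)) for -1 < u < 0. Z = A minus c(-1, 0) is
(A ∪ x0) minus c(-1, 1), compact, contains c (-1); g has a maximum on Z at y, some y' in A has g y' > g y, not in
Z, so y' = c u and g y' < g (c (-1)) ≤ g y, contradiction. -/
theorem end_in_side {X : Type*} [TopologicalSpace X] [T2Space X] [CompactSpace X]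
    [ConnectedSpace X] (h : ∀ x : X, ArcAt x ∨ EndAt x)
    (hcut : ∀ x : X, ArcAt x → ¬ IsPreconnected ({x}ᶜ : Set X)) {x0 : X} (hx0 : ArcAt x0)
    {A B : Set X} (hA : IsOpen A) (hB : IsOpen B) (hAB : A ∪ B = {x0}ᶜ) (hd : Disjoint A B)
    (hAn : A.Nonempty) (hBn : B.Nonempty) : ∃ p ∈ A, ¬ ArcAt p := by
  by_contra hcon
  push Not at hcon
  obtain ⟨c, hc, h0, -⟩ := hx0 Set.univ Filter.univ_mem
  obtain ⟨a, ha⟩ := hAn
  have hx0A : x0 ∉ A := by
    intro hx
    have : x0 ∈ ({x0}ᶜ : Set X) := by rw [← hAB]; exact Or.inl hx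
    exact this rfl
  have hx0B : x0 ∉ B := by
    intro hx
    have : x0 ∈ ({x0}ᶜ : Set X) := by rw [← hAB]; exact Or.inr hx
    exact this rfl
  have hBe : (A ∪ {x0})ᶜ = B := by
    ext y
    simp only [Set.mem_compl_iff, Set.mem_union, Set.mem_singleton_iff, not_or]
    constructor
    · rintro ⟨h1, h2⟩
      have h3 : y ∈ A ∪ B := by rw [hAB]; exact h2
      exact h3.resolve_left h1
    · intro hy
      refine ⟨fun hy' => Set.disjoint_left.1 hd hy' hy, ?_⟩
      rintro rfl
      exact hx0B hy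
  have hS : IsSide a x0 A := ⟨hA, by rw [hBe]; exact hB, ha, hx0A, by rw [hBe]; exact hBn⟩
  rcases side_local hS hc h0 with ⟨h1, h2⟩ | ⟨h1, h2⟩
  · rw [hBe] at h2
    exact two_left h hcut hA hB hAB hd hcon hc h0 h1 h2
  · rw [hBe] at h2
    have hc' : IsOpenEmbedding (fun t : ℝ => c (-t)) := hc.comp (Homeomorph.neg ℝ).isOpenEmbedding
    refine two_left h hcut hA hB hAB hd hcon hc' (by simpa using h0) ?_ ?_
    · rintro x ⟨u, hu, rfl⟩
      have hu : u < 0 := hu
      exact h1 ⟨-u, by show (0 : ℝ) < -u; linarith, rfl⟩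
    · rintro x ⟨u, hu, rfl⟩
      have hu : 0 < u := hu
      exact h2 ⟨-u, by show -u < (0 : ℝ); linarith, rfl⟩

end Pool.Agent.H11.SO
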